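import Pool.Agent.H35.TC.Ess

/-!
# TC: the choice of the samples as a function of the line, real valued
-/

set_option autoImplicit false

namespace Pool.TC35

open Finset Real Matrix
open Pool.Agent.H49.Ent Pool.Agent.H32.Dense Pool.STK Pool.SLO

variable {Ω Λ : Type} [Fintype Ω] {p : Ω → ℝ}

open Classical in
theorem Ex_tup (hp : ∀ ω, 0 ≤ p ω) (L : Ω → Λ) (n : ℕ) (F : (Fin (n + 1) → Ω) → ℝ) :
    Ex (tup p L n) F = ∑ z ∈ univ.image L, law p L z *
      ∑ v : Fin (n + 1) → Ω, (∏ j, cond p L z (v j)) * F v := by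
  unfold Ex
  simp only [Finset.mul_sum]
  rw [Finset.sum_comm]
  refine Finset.sum_congr rfl fun v _ => ?_
  rw [tup_mix hp L n v, Finset.sum_mul]
  refine Finset.sum_congr rfl fun z _ => ?_
  ring

/-- **The other samples as a function of the line**, real valued: `a + 1` new samples. -/
theorem fix_r (hl : IsLaw p) (L : Ω → Λ) (a N : ℕ)
    (G : (Fin (a + 1) → Ω) → (Fin (N + 1) → Ω) → ℝ) :
    ∃ f : Λ → Fin (N + 1) → Ω,
      (∀ ω, 0 < p ω → ∀ j, L (f (L ω) j) = L ω ∧ 0 < p (f (L ω) j)) ∧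
      Ex (tup p L a) (fun v => G v (f (L (v 0)))) ≤
        Ex (tup p L (a + 1 + N)) (fun w => G (fun i => w (Fin.castAdd (N + 1) i))
          (fun j => w (Fin.natAdd (a + 1) j))) := by
  classical
  have h0 := hl.nonneg
  obtain ⟨ω₀⟩ : Nonempty Ω := by
    by_contra h
    rw [not_nonempty_iff] at h
    have := hl.sum_one
    simp at this
  obtain ⟨W, hW⟩ : ∃ W : Λ → (Fin (N + 1) → Ω) → ℝ, W = fun z u =>
      ∑ v : Fin (a + 1) → Ω, (∏ j, cond p L z (v j)) * G v u := ⟨_, rfl⟩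
  obtain ⟨S, hS⟩ : ∃ S : Λ → Finset (Fin (N + 1) → Ω), S = fun z =>
      univ.filter fun u => ∀ j, L (u j) = z ∧ 0 < p (u j) := ⟨_, rfl⟩
  have hSm : ∀ z u, u ∈ S z ↔ ∀ j, L (u j) = z ∧ 0 < p (u j) := fun z u => by
    rw [hS]
    simp
  have key : ∀ z, ∃ u : Fin (N + 1) → Ω,
      ((S z).Nonempty → u ∈ S z ∧ ∀ u' ∈ S z, W z u ≤ W z u') := by
    intro z
    by_cases h : (S z).Nonempty
    · obtain ⟨u, h1, h2⟩ := Finset.exists_min_image (S z) (W z) h
      exact ⟨u, fun _ => ⟨h1, h2⟩⟩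
    · exact ⟨fun _ => ω₀, fun h' => absurd h' h⟩
  choose f hf using key
  have hne : ∀ ω, 0 < p ω → (S (L ω)).Nonempty := fun ω hω =>
    ⟨fun _ => ω, (hSm _ _).2 fun _ => ⟨rfl, hω⟩⟩
  refine ⟨f, fun ω hω j => (hSm _ _).1 (hf _ (hne ω hω)).1 j, ?_⟩
  rw [Ex_tup h0, Ex_tup h0]
  refine Finset.sum_le_sum fun z _ => ?_
  rcases (law_nonneg h0 L z).eq_or_lt with h5 | h5
  · rw [← h5, zero_mul, zero_mul]
  refine mul_le_mul_of_nonneg_left ?_ h5.le
  have hc0 : ∀ ω, 0 ≤ cond p L z ω := cond_nonneg h0 L z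
  have hc1 : ∑ ω, cond p L z ω = 1 := sum_cond p L h5.ne'
  have hcz : ∀ ω, cond p L z ω ≠ 0 → L ω = z ∧ 0 < p ω := by
    intro ω h
    unfold Pool.Agent.H49.Ent.cond at h
    split_ifs at h with h6
    · refine ⟨h6, (h0 ω).lt_of_ne fun h7 => h ?_⟩
      rw [← h7, zero_div]
    · exact absurd rfl h
  -- the left side
  have e1 : (∑ v : Fin (a + 1) → Ω, (∏ j, cond p L z (v j)) * G v (f (L (v 0)))) = W z (f z) := by
    rw [hW]
    refine Finset.sum_congr rfl fun v _ => ?_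
    by_cases h : ∏ j, cond p L z (v j) = 0
    · rw [h, zero_mul, zero_mul]
    · have h1 : cond p L z (v 0) ≠ 0 := fun h' => h (Finset.prod_eq_zero (Finset.mem_univ 0) h')
      rw [(hcz _ h1).1]
  -- the right side
  have e2 : (∑ w : Fin (a + 1 + N + 1) → Ω, (∏ j, cond p L z (w j)) *
      G (fun i => w (Fin.castAdd (N + 1) i)) (fun j => w (Fin.natAdd (a + 1) j))) =
      ∑ u : Fin (N + 1) → Ω, (∏ j, cond p L z (u j)) * W z u := by
    have e3 := (Fin.appendEquiv (α := Ω) (a + 1) (N + 1)).sum_comp (fun w =>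
      (∏ j, cond p L z (w j)) *
        G (fun i => w (Fin.castAdd (N + 1) i)) (fun j => w (Fin.natAdd (a + 1) j)))
    refine Eq.trans e3.symm ?_
    rw [Fintype.sum_prod_type, Finset.sum_comm]
    refine Finset.sum_congr rfl fun u _ => ?_
    rw [hW]
    simp only
    rw [Finset.mul_sum]
    refine Finset.sum_congr rfl fun v _ => ?_
    have e4 : Fin.appendEquiv (α := Ω) (a + 1) (N + 1) (v, u) = Fin.append v u := rfl
    rw [e4, Fin.prod_univ_add]
    simp only [Fin.append_left, Fin.append_right]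
    ring
  rw [e1, e2]
  have hprod : ∑ u : Fin (N + 1) → Ω, ∏ j, cond p L z (u j) = 1 := by
    rw [sum_pi_prod (fun (_ : Fin (N + 1)) x => cond p L z x)]
    simp [hc1]
  calc W z (f z) = ∑ u : Fin (N + 1) → Ω, (∏ j, cond p L z (u j)) * W z (f z) := by
        rw [← Finset.sum_mul, hprod, one_mul]
    _ ≤ ∑ u : Fin (N + 1) → Ω, (∏ j, cond p L z (u j)) * W z u := by
        refine Finset.sum_le_sum fun u _ => ?_
        by_cases h : ∏ j, cond p L z (u j) = 0
        · rw [h, zero_mul, zero_mul]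
        · have hu : u ∈ S z := (hSm _ _).2 fun j =>
            hcz _ fun h' => h (Finset.prod_eq_zero (Finset.mem_univ j) h')
          exact mul_le_mul_of_nonneg_left ((hf z ⟨u, hu⟩).2 u hu)
            (Finset.prod_nonneg fun j _ => hc0 _)

end Pool.TC35
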