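import Pool.Agent.H35.TC.Tg0

/-!
# TC: the body with one long column

`vm_inv`, `vm_inc`: the matrix with the long column in the sampled body. `spn_of`: a vector in the
sampled body of the next place is a combination of the vectors of the place.
-/

set_option autoImplicit false

namespace Pool.TC35

open Finset Real Matrix
open Pool.Agent.H49.Ent Pool.Agent.H32.Dense Pool.STK Pool.FAD Pool.POT Pool.SLO Pool.TQ
open Pool.TT37 (dd)

variable {c k d X N : ℕ}

theorem Tx_inv_le (i j : Fin c) : |(Tx c X)⁻¹ i j| ≤ 2 ^ X := by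
  have h2 : (Tx c X)⁻¹ = diagonal fun _ => (2 : ℝ) ^ X := by
    refine Matrix.inv_eq_left_inv ?_
    unfold Tx
    rw [Matrix.diagonal_mul_diagonal]
    have : (fun _ : Fin c => (2 : ℝ) ^ X * ((2 : ℝ) ^ X)⁻¹) = fun _ => 1 := by
      funext _
      exact mul_inv_cancel₀ (by positivity)
    rw [this, Matrix.diagonal_one]
  rw [h2, Matrix.diagonal_apply]
  split_ifs
  · rw [abs_of_pos (by positivity)]
  · rw [abs_zero]
    positivity

theorem Tx_self (i : Fin c) : Tx c X i i ≠ 0 := by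
  unfold Tx
  rw [Matrix.diagonal_apply_eq]
  positivity

theorem Vm_self (i0 : Fin c) (a : Fin c → ℝ) (i : Fin c) : Vm X i0 a i i0 = a i := by
  unfold Vm
  rw [Matrix.updateCol_self]

theorem Vm_det_ne {i0 : Fin c} {a : Fin c → ℝ} (ha : a i0 ≠ 0) : (Vm X i0 a).det ≠ 0 := by
  rw [Vm_det]
  exact mul_ne_zero ha (by positivity)

/-- The inverse of the matrix with a long column. -/
theorem vm_inv {i0 : Fin c} {a : Fin c → ℝ} (ha : (((2 : ℝ) ^ X)⁻¹) ≤ |a i0|)
    (hm : ∀ i, |a i| ≤ |a i0|) (i j : Fin c) : |(Vm X i0 a)⁻¹ i j| ≤ 2 ^ X := by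
  have hX : (0 : ℝ) < 2 ^ X := by positivity
  have ha0 : 0 < |a i0| := (inv_pos.2 hX).trans_le ha
  have hne : a i0 ≠ 0 := abs_pos.1 ha0
  have h1 : (Vm X i0 a)⁻¹ i j = ((Vm X i0 a)⁻¹ *ᵥ Pi.single j 1) i := by
    rw [Matrix.mulVec_single_one]
    rfl
  have h2 : |1 / a i0| ≤ 2 ^ X := by
    rw [abs_div, abs_one, div_le_iff₀ ha0]
    calc (1 : ℝ) = 2 ^ X * ((2 : ℝ) ^ X)⁻¹ := (mul_inv_cancel₀ hX.ne').symm
      _ ≤ 2 ^ X * |a i0| := mul_le_mul_of_nonneg_left ha hX.le
  rw [h1, Vm_mul X i0 a hne]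
  simp only [Pi.single_apply]
  by_cases hi : i = i0
  · rw [if_pos hi]
    by_cases hj : i0 = j
    · rw [if_pos hj]
      exact h2
    · rw [if_neg hj, zero_div, abs_zero]
      positivity
  · rw [if_neg hi]
    have h3 : |a i / a i0| ≤ 1 := by
      rw [abs_div, div_le_one ha0]
      exact hm i
    by_cases hj : i0 = j
    · have hij : i ≠ j := fun e => hi (e.trans hj.symm)
      rw [if_neg hij, if_pos hj, zero_sub, mul_one, abs_mul, abs_neg, abs_of_pos hX]
      exact mul_le_of_le_one_right hX.le h3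
    · rw [if_neg hj, mul_zero, sub_zero]
      split_ifs
      · rw [mul_one, abs_of_pos hX]
      · rw [mul_zero, abs_zero]
        positivity

/-- The matrix with a long column in a body. -/
theorem vm_inc {W : Matrix (Fin c) (Fin c) ℝ} (hW : ∀ i j, |W⁻¹ i j| ≤ 2 ^ X) {i0 : Fin c}
    {a : Fin c → ℝ} (ha : ∀ i, |(W⁻¹ *ᵥ a) i| ≤ 1) : Inc c (Vm X i0 a) W := by
  intro i
  refine row_one (fun i j => ?_) i
  by_cases hj : j = i0
  · have h1 : (W⁻¹ * Vm X i0 a) i j = (W⁻¹ *ᵥ a) i := by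
      rw [Matrix.mul_apply]
      refine Finset.sum_congr rfl fun l _ => ?_
      rw [hj, Vm_self]
    rw [h1]
    exact ha i
  · have h1 : (W⁻¹ * Vm X i0 a) i j = W⁻¹ i j * ((2 : ℝ) ^ X)⁻¹ := by
      rw [Matrix.mul_apply, Finset.sum_eq_single j]
      · unfold Vm Tx
        rw [Matrix.updateCol_ne hj, Matrix.diagonal_apply_eq]
      · intro l _ hl
        unfold Vm Tx
        rw [Matrix.updateCol_ne hj, Matrix.diagonal_apply_ne _ hl, mul_zero]
      · intro h
        exact absurd (Finset.mem_univ _) h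
    rw [h1, abs_mul, abs_of_pos (by positivity : (0 : ℝ) < ((2 : ℝ) ^ X)⁻¹), ← div_eq_mul_inv,
      div_le_one (by positivity)]
    exact hW i j

theorem tx_inc {W : Matrix (Fin c) (Fin c) ℝ} (hW : ∀ i j, |W⁻¹ i j| ≤ 2 ^ X) :
    Inc c (Tx c X) W := by
  intro i
  refine row_one (fun i j => ?_) i
  unfold Tx
  rw [Matrix.mul_diagonal, abs_mul, abs_of_pos (by positivity : (0 : ℝ) < ((2 : ℝ) ^ X)⁻¹),
    ← div_eq_mul_inv, div_le_one (by positivity)]
  exact hW i j

variable {Ω : Type} [Fintype Ω] {p : Ω → ℝ} {P P' : Pl Ω c k d}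

/-- **The vector is a combination of the vectors of the place.** -/
theorem spn_of {Mt : P'.B → Matrix (Fin c) (Fin c) ℝ} {ph : Fin k → ℝ}
    {Gd : (Fin (d + 2) → Ω) → Prop} {D Dh : ℝ} (hD : 1 ≤ D) (hDh : 1 ≤ Dh) {δ : ℝ}
    (htau : ∀ ω, P'.tau (P'.th ω) = P.tau (P.th ω)) (hMd : ∀ b, (Mt b).det ≠ 0)
    (hMi : ∀ b i j, |(Mt b)⁻¹ i j| ≤ D) (hφ : ∀ u, |ph u| ≤ D)
    (hchg : ∃ a : P'.Λ → Fin k → Fin (d + 1) → Fin c → ℝ, ∀ ω, 0 < p ω → ∀ u i,
      |P'.E (P'.th ω) u i - (ph u * (Mt (P'.b ω) *ᵥ P.E (P.th ω) u) i +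
        ∑ n, a (P'.L ω) u n i * ((P.tau (P.th ω) : ℝ) / 2 ^ X) ^ (n : ℕ))| ≤ D / 2 ^ X)
    (w : Fin (N + 1) → Ω) (ω : Ω)
    (hw : ∀ j, 0 < p (w j) ∧ P'.L (w j) = P'.L (w 0) ∧ P'.b (w j) = P'.b ω)
    (hGd : ∀ σ : Fin (d + 2) → Fin (N + 1), Function.Injective σ → Gd fun j => w (σ j))
    (g : Fin c → ℝ) (hg : ∀ i, |((bm X (fam d P'.tau P'.E fun j => P'.th (w j)))⁻¹ *ᵥ
      (Mt (P'.b ω) *ᵥ g)) i| ≤ Dh) (h1 : Dh * D ≤ 2 ^ (δ * X))
    (h2 : c * (D * (c * (Dh * ((d + 2) * D)))) ≤ 2 ^ (δ * X)) :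
    Spn P P' p X δ Gd ω g := by
  classical
  have hX : (0 : ℝ) < 2 ^ X := by positivity
  obtain ⟨a, hchg⟩ := hchg
  obtain ⟨β, hβ⟩ : ∃ β, β = P'.b ω := ⟨_, rfl⟩
  rw [← hβ] at hg
  obtain ⟨W, hW⟩ : ∃ W : Matrix (Fin c) (Fin c) ℝ,
    W = bm X (fam d P'.tau P'.E fun j => P'.th (w j)) := ⟨_, rfl⟩
  have hWd : W.det ≠ 0 := hW ▸ bm_det
  rw [← hW] at hg
  obtain ⟨r, hr⟩ : ∃ r : Fin c → ℝ, r = W⁻¹ *ᵥ (Mt β *ᵥ g) := ⟨_, rfl⟩
  rw [← hr] at hg
  have hv : Mt β *ᵥ g = W *ᵥ r := by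
    rw [hr, Matrix.mulVec_mulVec, Matrix.mul_nonsing_inv _ (isUnit_iff_ne_zero.2 hWd),
      Matrix.one_mulVec]
  -- the vectors
  obtain ⟨T, hT⟩ : ∃ T : Ω → ℤ, T = fun ω => P.tau (P.th ω) := ⟨_, rfl⟩
  obtain ⟨ev, hev⟩ : ∃ ev : Ω → Fin k → Fin c → ℝ, ev = fun ω => P.E (P.th ω) := ⟨_, rfl⟩
  obtain ⟨ev', hev'⟩ : ∃ ev' : Ω → Fin k → Fin c → ℝ, ev' = fun ω => P'.E (P'.th ω) := ⟨_, rfl⟩
  have hddP' : ∀ (σ : Fin (d + 2) → Fin (N + 1)) (u : Fin k),
      dd d P'.tau P'.E u (fun j => P'.th (w (σ j))) = dd d T ev' u (fun j => w (σ j)) := by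
    intro σ u
    rw [hT, hev']
    have : (fun ω => P.tau (P.th ω)) = fun ω => P'.tau (P'.th ω) := by
      funext ω
      exact (htau ω).symm
    rw [this]
    rfl
  have hddP : ∀ (σ : Fin (d + 2) → Fin (N + 1)) (u : Fin k),
      dd d P.tau P.E u (fun j => P.th (w (σ j))) = dd d T ev u (fun j => w (σ j)) := by
    intro σ u
    rw [hT, hev]
    rfl
  obtain ⟨bx, hbx⟩ : ∃ bx : Fin c → ((Fin (d + 2) → Fin (N + 1)) × Fin k) ⊕ Fin c,
    bx = bi X (fam d P'.tau P'.E fun j => P'.th (w j)) := ⟨_, rfl⟩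
  obtain ⟨cf, hcf⟩ : ∃ cf : Fin c → ℝ, cf = fun a =>
    match bx a with
    | .inl q => r a * ph q.2
    | .inr _ => 0 := ⟨_, rfl⟩
  obtain ⟨y, hy⟩ : ∃ y : Fin c → Fin c → ℝ, y = fun a =>
    match bx a with
    | .inl q => if Function.Injective q.1 then dd d P.tau P.E q.2 (fun j => P.th (w (q.1 j)))
        else 0
    | .inr _ => 0 := ⟨_, rfl⟩
  -- the columns
  have hcol : ∀ b i, |W i b - (Mt β *ᵥ fun l => (match bx b with
      | .inl q => ph q.2
      | .inr _ => 0) * y b l) i| ≤ (d + 2) * D / 2 ^ X := by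
    intro b i
    have e1 : W i b = fx X (fam d P'.tau P'.E fun j => P'.th (w j)) (bx b) i := by
      rw [hW, hbx]
      rfl
    have hpos : 0 ≤ ((d : ℝ) + 2) * D / 2 ^ X := by positivity
    rw [e1, hy]
    simp only
    rcases hb : bx b with q | l
    · simp only
      have e2 : fx X (fam d P'.tau P'.E fun j => P'.th (w j)) (.inl q) =
          dd d P'.tau P'.E q.2 (fun j => P'.th (w (q.1 j))) := rfl
      rw [e2]
      by_cases hi : Function.Injective q.1
      · simp only [if_pos hi]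
        rw [hddP', hddP]
        have h3 := dd_chg (X := X) (T := T) (e := ev) (e' := ev') (M := Mt β) (φ := ph)
          (a := a (P'.L (w 0))) (D := D) (fun j => w (q.1 j)) (fun j u i => by
            have h4 := hchg (w (q.1 j)) (hw _).1 u i
            rw [(hw (q.1 j)).2.2, ← hβ, (hw (q.1 j)).2.1] at h4
            rw [hev, hev', hT]
            exact h4) q.2 i
        have h5 : (Mt β *ᵥ fun l => ph q.2 * dd d T ev q.2 (fun j => w (q.1 j)) l) i =
            ph q.2 * (Mt β *ᵥ dd d T ev q.2 fun j => w (q.1 j)) i := by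
          have h6 : (fun l => ph q.2 * dd d T ev q.2 (fun j => w (q.1 j)) l) =
              ph q.2 • dd d T ev q.2 (fun j => w (q.1 j)) := rfl
          rw [h6, Matrix.mulVec_smul]
          rfl
        rw [h5]
        refine h3.trans (le_of_eq ?_)
        ring
      · simp only [if_neg hi]
        have e3 : dd d P'.tau P'.E q.2 (fun j => P'.th (w (q.1 j))) = 0 := by
          funext i
          unfold dd
          rw [if_neg]
          · rfl
          · rintro ⟨h3, -⟩
            refine hi fun x y h => h3 ?_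
            simp only [h]
        rw [e3]
        have e4 : (fun l : Fin c => ph q.2 * (0 : Fin c → ℝ) l) = 0 := by
          funext l
          simp
        rw [e4, Matrix.mulVec_zero, sub_self, abs_zero]
        exact hpos
    · simp only
      have e4 : (fun l' : Fin c => (0 : ℝ) * (0 : Fin c → ℝ) l') = 0 := by
        funext l
        simp
      rw [e4, Matrix.mulVec_zero, Pi.zero_apply, sub_zero]
      simp only [fx, Pi.single_apply]
      have h1D : (1 : ℝ) ≤ (d + 2) * D := by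
        have : (0 : ℝ) ≤ d := Nat.cast_nonneg d
        nlinarith
      split_ifs
      · rw [abs_of_pos (by positivity), inv_eq_one_div]
        exact div_le_div_of_nonneg_right h1D hX.le
      · rw [abs_zero]
        exact hpos
  refine ⟨cf, y, fun i => ?_, fun b => ?_, fun b => ?_⟩
  · -- the error
    obtain ⟨z, hz⟩ : ∃ z : Fin c → ℝ, z = fun i => (Mt β *ᵥ g) i -
      (Mt β *ᵥ fun l => ∑ b, cf b * y b l) i := ⟨_, rfl⟩
    have hzb : ∀ i, |z i| ≤ c * (Dh * ((d + 2) * D / 2 ^ X)) := by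
      intro i
      have e5 : z i = ∑ b, r b * (W i b - (Mt β *ᵥ fun l => (match bx b with
          | .inl q => ph q.2
          | .inr _ => 0) * y b l) i) := by
        rw [hz]
        simp only
        rw [hv]
        simp only [mul_sub, Finset.sum_sub_distrib]
        congr 1
        · unfold Matrix.mulVec dotProduct
          exact Finset.sum_congr rfl fun b _ => mul_comm _ _
        · unfold Matrix.mulVec dotProduct
          simp only [Finset.mul_sum]
          rw [Finset.sum_comm]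
          refine Finset.sum_congr rfl fun b _ => Finset.sum_congr rfl fun l _ => ?_
          rw [hcf]
          simp only
          rcases bx b with q | l'
          · simp only
            ring
          · simp
      rw [e5]
      refine (Finset.abs_sum_le_sum_abs _ _).trans ?_
      calc ∑ b, |r b * (W i b - (Mt β *ᵥ fun l => (match bx b with
            | .inl q => ph q.2
            | .inr _ => 0) * y b l) i)| ≤ ∑ _b : Fin c, Dh * ((d + 2) * D / 2 ^ X) := by
            refine Finset.sum_le_sum fun b _ => ?_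
            rw [abs_mul]
            exact mul_le_mul (hg b) (hcol b i) (abs_nonneg _) (by linarith)
        _ = c * (Dh * ((d + 2) * D / 2 ^ X)) := by
            rw [Finset.sum_const, Finset.card_univ, Fintype.card_fin, nsmul_eq_mul]
    have e6 : g - (fun l => ∑ b, cf b * y b l) = (Mt β)⁻¹ *ᵥ z := by
      have e7 : z = Mt β *ᵥ (g - fun l => ∑ b, cf b * y b l) := by
        rw [hz, Matrix.mulVec_sub]
        rfl
      rw [e7, Matrix.mulVec_mulVec, Matrix.nonsing_inv_mul _ (isUnit_iff_ne_zero.2 (hMd _)),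
        Matrix.one_mulVec]
    have e8 : g i - ∑ b, cf b * y b i = ((Mt β)⁻¹ *ᵥ z) i := congrFun e6 i
    rw [e8]
    refine (mulVec_bd (by linarith) (fun i j => hMi β i j) hzb i).trans ?_
    have e9 : (c : ℝ) * (D * (c * (Dh * ((d + 2) * D / 2 ^ X)))) =
        c * (D * (c * (Dh * ((d + 2) * D)))) / 2 ^ X := by ring
    rw [e9]
    exact div_le_div_of_nonneg_right h2 hX.le
  · rw [hcf]
    simp only
    rcases bx b with q | l
    · simp only
      rw [abs_mul]
      exact (mul_le_mul (hg b) (hφ _) (abs_nonneg _) (by linarith)).trans h1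
    · simp only [abs_zero]
      positivity
  · rw [hy]
    simp only
    rcases bx b with q | l
    · simp only
      by_cases hi : Function.Injective q.1
      · right
        refine ⟨q.2, fun j => w (q.1 j), fun j => ⟨(hw _).1, ?_, (hw _).2.2⟩, hGd _ hi, ?_⟩
        · rw [(hw (q.1 j)).2.1, (hw (q.1 0)).2.1]
        · rw [if_pos hi]
      · left
        rw [if_neg hi]
    · left
      rfl

end Pool.TC35
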