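import Pool.Agent.H35.TC.Sat

/-!
# TC: the sampled body contains the body of the line before

If the mean volume of the sampled bodies is almost that of the bodies `S'` which contain all the
vectors, then `S'` is contained in the sampled body, enlarged, with large probability.
-/

set_option autoImplicit false

namespace Pool.TC35

open Finset Real Matrix
open Pool.Agent.H49.Ent Pool.Agent.H32.Dense Pool.STK Pool.FAD Pool.POT Pool.SLO
open Pool.BFL (Pb)
open Pool.TT37 (dd pb_mono pb_nonneg pb_ex pb_union pb_or markov)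

variable {c k d X N : ℕ}

/-- Entries of a quotient of bodies. -/
theorem quo_le {κ : Type} [Finite κ] {V : κ → Fin c → ℝ} {S : Matrix (Fin c) (Fin c) ℝ}
    (hi : ∀ i j, |S⁻¹ i j| ≤ 2 ^ X) (h : ∀ v i, |(S⁻¹ *ᵥ V v) i| ≤ 1) (i j : Fin c) :
    |(S⁻¹ * bm X V) i j| ≤ 1 := by
  have h1 : (S⁻¹ * bm X V) i j = (S⁻¹ *ᵥ fx X V (bi X V j)) i := rfl
  rw [h1]
  rcases bi X V j with v | l
  · exact h v i
  · have h2 : fx X V (.inr l) = Pi.single l ((2 : ℝ) ^ X)⁻¹ := rfl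
    rw [h2, inv_axis, abs_mul, abs_of_pos (by positivity : (0 : ℝ) < ((2 : ℝ) ^ X)⁻¹),
      ← div_eq_mul_inv, div_le_one (by positivity)]
    exact hi i l

/-- The volumes of a body and of a body inside. -/
theorem quo_lv {S W : Matrix (Fin c) (Fin c) ℝ} (hS : S.det ≠ 0) (hW : W.det ≠ 0)
    (h : ∀ i j, |(S⁻¹ * W) i j| ≤ 1) : lv W - lv S ≤ Real.log c.factorial := by
  have hR : (S⁻¹ * W).det ≠ 0 := by
    rw [Matrix.det_mul, Matrix.det_nonsing_inv, Ring.inverse_eq_inv']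
    exact mul_ne_zero (inv_ne_zero hS) hW
  have e1 : S * (S⁻¹ * W) = W := by
    rw [← Matrix.mul_assoc, Matrix.mul_nonsing_inv _ (isUnit_iff_ne_zero.2 hS), Matrix.one_mul]
  have e2 := lv_mul hS hR
  rw [e1] at e2
  have e3 := lv_le hR h
  rw [one_pow, mul_one] at e3
  linarith

/-- The larger body is in the smaller one, enlarged. -/
theorem quo_inv {S W : Matrix (Fin c) (Fin c) ℝ} (hS : S.det ≠ 0) (hW : W.det ≠ 0)
    (h : ∀ i j, |(S⁻¹ * W) i j| ≤ 1) {t : ℝ} (ht : lv S - lv W ≤ t) (i j : Fin c) :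
    |(W⁻¹ * S) i j| ≤ c.factorial * Real.exp t := by
  have hR : (S⁻¹ * W).det ≠ 0 := by
    rw [Matrix.det_mul, Matrix.det_nonsing_inv, Ring.inverse_eq_inv']
    exact mul_ne_zero (inv_ne_zero hS) hW
  have e1 : S * (S⁻¹ * W) = W := by
    rw [← Matrix.mul_assoc, Matrix.mul_nonsing_inv _ (isUnit_iff_ne_zero.2 hS), Matrix.one_mul]
  have e2 := lv_mul hS hR
  rw [e1] at e2
  have e3 : Real.exp (-t) ≤ |(S⁻¹ * W).det| := by
    have e4 : -t ≤ lv (S⁻¹ * W) := by linarith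
    have e5 := Real.exp_le_exp.2 e4
    unfold lv at e5
    rwa [Real.exp_log (abs_pos.2 hR)] at e5
  have e6 := inv_bd h (Real.exp_pos _) e3 i j
  have e7 : (S⁻¹ * W)⁻¹ = W⁻¹ * S := by
    rw [Matrix.mul_inv_rev, Matrix.nonsing_inv_nonsing_inv _ (isUnit_iff_ne_zero.2 hS)]
  rw [e7, Real.exp_neg, div_inv_eq_mul] at e6
  exact e6

variable {Ω Λ : Type} [Fintype Ω] {p : Ω → ℝ} {L : Ω → Λ} {T : Ω → ℤ}
  {e : Ω → Fin k → Fin c → ℝ}

open Classical in
/-- **Containment.** -/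
theorem cnt (hl : IsLaw p) {C : ℝ} (hC1 : 1 ≤ C) (hE : ∀ ω u i, |e ω u i| ≤ C)
    {S : Λ → Matrix (Fin c) (Fin c) ℝ} (hSd : ∀ z, (S z).det ≠ 0)
    (hSi : ∀ z i j, |(S z)⁻¹ i j| ≤ 2 ^ X) {Gs : Ω → Prop} {b₀ : ℝ}
    (hGs : Pb p (fun ω => ¬ Gs ω) ≤ b₀)
    (hgood : ∀ w : Fin (d + 2) → Ω, (∀ j, 0 < p (w j) ∧ L (w j) = L (w 0) ∧ Gs (w j)) → ∀ u i,
      |((S (L (w 0)))⁻¹ *ᵥ dd d T e u w) i| ≤ 1) {a t : ℝ} (ht : 0 < t)
    (hvol : Ex p (fun ω => lv (S (L ω))) ≤ Wv d p L T e X N + a) :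
    Pb (tup p L N) (fun u => ¬ ∀ i j,
      |((bm X (fam d T e u))⁻¹ * S (L (u 0))) i j| ≤ c.factorial * Real.exp t) ≤
      (a + Real.log c.factorial + (|Vmx c d C| + c * (X * Real.log 2) + Real.log c.factorial) *
        ((N + 1) * b₀)) / t + (N + 1) * b₀ := by
  have h0 := hl.nonneg
  have q0 := tup_isLaw hl L N
  obtain ⟨Λ1, hΛ1⟩ : ∃ Λ1 : ℝ, Λ1 = |Vmx c d C| + c * (X * Real.log 2) + Real.log c.factorial :=
    ⟨_, rfl⟩
  have hL2 : 0 ≤ Real.log 2 := Real.log_nonneg (by norm_num)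
  have hf0 : 0 ≤ Real.log (c.factorial : ℝ) :=
    Real.log_nonneg (by exact_mod_cast Nat.succ_le_of_lt (Nat.factorial_pos c))
  have hcX : 0 ≤ (c : ℝ) * (X * Real.log 2) := by positivity
  have hΛ0 : 0 ≤ Λ1 := by
    rw [hΛ1]
    have := abs_nonneg (Vmx c d C)
    linarith
  obtain ⟨Bad, hBad⟩ : ∃ Bad : (Fin (N + 1) → Ω) → Prop, Bad = fun u => ∃ j, ¬ Gs (u j) :=
    ⟨_, rfl⟩
  have hPb : Pb (tup p L N) Bad ≤ (N + 1) * b₀ := by
    rw [hBad]
    refine (pb_union q0.nonneg (fun j w => ¬ Gs (w j))).trans ?_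
    calc ∑ j : Fin (N + 1), Pb (tup p L N) (fun w => ¬ Gs (w j)) ≤ ∑ _j : Fin (N + 1), b₀ := by
          refine Finset.sum_le_sum fun j _ => ?_
          rw [Pool.LBL.pmarg (tup_marg h0 L N j) (fun ω => ¬ Gs ω)]
          exact hGs
      _ = (N + 1) * b₀ := by
          rw [Finset.sum_const, Finset.card_univ, Fintype.card_fin, nsmul_eq_mul]
          push_cast
          ring
  -- the quotient on the good event
  have hq : ∀ u, 0 < tup p L N u → ¬ Bad u → ∀ i j,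
      |((S (L (u 0)))⁻¹ * bm X (fam d T e u)) i j| ≤ 1 := by
    intro u hu hb
    rw [hBad] at hb
    push Not at hb
    have hpos := (tup_pos_iff h0 L N u).1 hu
    refine quo_le (hSi _) fun v i => ?_
    have h1 := hgood (fun j => u (v.1 j)) (fun j => ⟨hpos.1 _, by
      rw [hpos.2 (v.1 j), hpos.2 (v.1 0)], hb _⟩) v.2 i
    rw [hpos.2 (v.1 0)] at h1
    exact h1
  obtain ⟨F, hF⟩ : ∃ F : (Fin (N + 1) → Ω) → ℝ, F = fun u =>
    (lv (S (L (u 0))) - lv (bm X (fam d T e u))) + Real.log c.factorial +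
      Λ1 * (if Bad u then (1 : ℝ) else 0) := ⟨_, rfl⟩
  have hF0 : ∀ u, 0 < tup p L N u → 0 ≤ F u := by
    intro u hu
    rw [hF]
    simp only
    by_cases hb : Bad u
    · rw [if_pos hb, mul_one, hΛ1]
      have h1 := lv_ge (hSd (L (u 0))) (hSi (L (u 0)))
      have h2 := lv_bm_le (X := X) (tau := T) (d := d) u hC1 fun j => hE (u j)
      have h3 := le_abs_self (Vmx c d C)
      linarith
    · rw [if_neg hb, mul_zero, add_zero]
      have h1 := quo_lv (hSd _) bm_det (hq u hu hb)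
      linarith
  have hEF : Ex (tup p L N) F ≤ a + Real.log c.factorial + Λ1 * ((N + 1) * b₀) := by
    have e1 : Ex (tup p L N) F = Ex (tup p L N) (fun u => lv (S (L (u 0)))) -
        Ex (tup p L N) (fun u => lv (bm X (fam d T e u))) + Real.log c.factorial +
          Λ1 * Pb (tup p L N) Bad := by
      rw [hF, Ex_add, Ex_add, Ex_sub, Ex_const q0.sum_one, pb_ex]
      congr 1
      unfold Ex
      rw [Finset.mul_sum]
      refine Finset.sum_congr rfl fun w _ => ?_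
      ring
    have e2 : Ex (tup p L N) (fun u => lv (S (L (u 0)))) = Ex p (fun ω => lv (S (L ω))) :=
      (tup_marg h0 L N 0).ex (fun ω => lv (S (L ω)))
    have e3 : Ex (tup p L N) (fun u => lv (bm X (fam d T e u))) = Wv d p L T e X N := rfl
    rw [e1, e2, e3]
    have := mul_le_mul_of_nonneg_left hPb hΛ0
    linarith
  have hM := markov q0.nonneg hF0 ht
  have hfin : Pb (tup p L N) (fun u => ¬ ∀ i j,
      |((bm X (fam d T e u))⁻¹ * S (L (u 0))) i j| ≤ c.factorial * Real.exp t) ≤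
      Pb (tup p L N) (fun u => t < F u) + Pb (tup p L N) Bad := by
    refine pb_or q0.nonneg fun u hu hn => ?_
    by_contra hcon
    push Not at hcon
    obtain ⟨h1, h2⟩ := hcon
    refine hn (quo_inv (hSd _) bm_det (hq u hu h2) ?_)
    rw [hF] at h1
    simp only [if_neg h2, mul_zero, add_zero] at h1
    linarith
  rw [← hΛ1]
  refine hfin.trans (add_le_add ?_ hPb)
  refine hM.trans ?_
  exact div_le_div_of_nonneg_right hEF ht.le

end Pool.TC35
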