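import Pool.Agent.H35.TC.Lin

/-!
# TC: the `(d + 2)`-point vectors

`lam`: the coefficients. They kill the polynomials of degree `d`.
-/

set_option autoImplicit false

namespace Pool.TC35

open Finset Real Matrix
open Pool.TT37 (dd pj pj_ne lg lg_eval ip ip_deg ip_eval)

section poly

open Polynomial

theorem ip_node {d : ℕ} (y v : Fin (d + 1) → ℝ) (hy : Function.Injective y) (m : Fin (d + 1)) :
    (ip y v).eval (y m) = v m := by
  unfold ip
  rw [eval_finsetSum, Finset.sum_eq_single m]
  · rw [eval_mul, eval_C, lg_eval]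
    have : (∏ k, if k = m then (1 : ℝ) else (y m - y k)⁻¹ * (y m - y k)) = 1 := by
      refine Finset.prod_eq_one fun k _ => ?_
      split_ifs with h
      · rfl
      · exact inv_mul_cancel₀ (sub_ne_zero.2 fun e => h (hy e).symm)
    rw [this, mul_one]
  · intro j _ hj
    rw [eval_mul, lg_eval]
    have : (∏ k, if k = j then (1 : ℝ) else (y j - y k)⁻¹ * (y m - y k)) = 0 := by
      refine Finset.prod_eq_zero (Finset.mem_univ m) ?_
      rw [if_neg hj.symm, sub_self, mul_zero]
    rw [this, mul_zero]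
  · intro h
    exact absurd (Finset.mem_univ m) h

/-- The divided difference kills polynomials. -/
theorem pj_poly {d : ℕ} (x : Fin (d + 2) → ℝ) (hx : Function.Injective x) (q : ℝ[X])
    (hq : q.natDegree ≤ d) : ∑ j, pj x 0 / pj x j * q.eval (x j) = 0 := by
  rw [← ip_eval x hx (fun j => q.eval (x j))]
  have hy : Function.Injective fun k : Fin (d + 1) => x k.succ := fun a b h =>
    Fin.succ_injective _ (hx h)
  have hc : (Finset.univ : Finset (Fin (d + 1))).card = d + 1 := by simp
  have h1 : ip (fun k => x k.succ) (fun k => q.eval (x k.succ)) = q := by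
    refine Polynomial.eq_of_degrees_lt_of_eval_index_eq Finset.univ
      (v := fun k : Fin (d + 1) => x k.succ) (fun a _ b _ h => hy h) ?_ ?_ ?_
    · rw [hc]
      refine (degree_le_natDegree).trans_lt ?_
      have := ip_deg (fun k => x k.succ) (fun k => q.eval (x k.succ))
      exact_mod_cast Nat.lt_succ_of_le this
    · rw [hc]
      refine (degree_le_natDegree).trans_lt ?_
      exact_mod_cast Nat.lt_succ_of_le hq
    · intro i _
      exact ip_node _ _ hy i
  rw [h1, sub_self]

end poly

variable {T : Type} {c k d : ℕ}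

open Classical in
/-- The coefficients. -/
noncomputable def lam (tau : T → ℤ) (t : Fin (d + 2) → T) (j : Fin (d + 2)) : ℝ :=
  if Function.Injective (fun j => tau (t j)) ∧
      ∀ j, |pj (fun j => (tau (t j) : ℝ)) 0| ≤ |pj (fun j => (tau (t j) : ℝ)) j| then
    pj (fun j => (tau (t j) : ℝ)) 0 / pj (fun j => (tau (t j) : ℝ)) j
  else 0

theorem dd_lam (tau : T → ℤ) (E : T → Fin k → Fin c → ℝ) (u : Fin k) (t : Fin (d + 2) → T)
    (i : Fin c) : dd d tau E u t i = ∑ j, lam tau t j * E (t j) u i := by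
  unfold dd lam
  split_ifs
  · rfl
  · simp

theorem lam_le (tau : T → ℤ) (t : Fin (d + 2) → T) (j : Fin (d + 2)) : |lam tau t j| ≤ 1 := by
  unfold lam
  split_ifs with h
  · have hx : Function.Injective (fun j => (tau (t j) : ℝ)) := fun a b e =>
      h.1 (Int.cast_injective (α := ℝ) e)
    rw [abs_div, div_le_one (abs_pos.2 (pj_ne _ hx j))]
    exact h.2 j
  · simp

theorem lam_poly (tau : T → ℤ) (t : Fin (d + 2) → T) (a : Fin (d + 1) → ℝ) (r : ℝ) :
    ∑ j, lam tau t j * ∑ n, a n * ((tau (t j) : ℝ) / r) ^ (n : ℕ) = 0 := by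
  classical
  by_cases h : Function.Injective (fun j => tau (t j)) ∧
      ∀ j, |pj (fun j => (tau (t j) : ℝ)) 0| ≤ |pj (fun j => (tau (t j) : ℝ)) j|
  · have hx : Function.Injective (fun j => (tau (t j) : ℝ)) := fun a b e =>
      h.1 (Int.cast_injective (α := ℝ) e)
    have h1 := pj_poly _ hx (∑ n : Fin (d + 1), Polynomial.C (a n / r ^ (n : ℕ)) *
      Polynomial.X ^ (n : ℕ)) (by
        refine Polynomial.natDegree_sum_le_of_forall_le _ _ fun n _ => ?_
        refine (Polynomial.natDegree_C_mul_X_pow_le _ _).trans ?_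
        have := n.2
        omega)
    refine Eq.trans (Finset.sum_congr rfl fun j _ => ?_) h1
    unfold lam
    rw [if_pos h, Polynomial.eval_finsetSum]
    congr 1
    refine Finset.sum_congr rfl fun n _ => ?_
    rw [Polynomial.eval_mul, Polynomial.eval_C, Polynomial.eval_pow, Polynomial.eval_X, div_pow]
    ring
  · refine Finset.sum_eq_zero fun j _ => ?_
    unfold lam
    rw [if_neg h, zero_mul]

/-- Slopes which are polynomials up to an error. -/
theorem dd_near (tau : T → ℤ) (E : T → Fin k → Fin c → ℝ) (u : Fin k) (t : Fin (d + 2) → T)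
    (i : Fin c) (a : Fin (d + 1) → ℝ) (r : ℝ) (F : T → ℝ) {e : ℝ}
    (h : ∀ j, |E (t j) u i - (F (t j) + ∑ n, a n * ((tau (t j) : ℝ) / r) ^ (n : ℕ))| ≤ e) :
    |dd d tau E u t i - ∑ j, lam tau t j * F (t j)| ≤ (d + 2) * e := by
  rw [dd_lam]
  have h1 : ∑ j, lam tau t j * E (t j) u i - ∑ j, lam tau t j * F (t j) =
      ∑ j, lam tau t j *
        (E (t j) u i - (F (t j) + ∑ n, a n * ((tau (t j) : ℝ) / r) ^ (n : ℕ))) := by
    have h2 := lam_poly tau t a r
    rw [← sub_zero (∑ j, lam tau t j * E (t j) u i - ∑ j, lam tau t j * F (t j)), ← h2,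
      ← Finset.sum_sub_distrib, ← Finset.sum_sub_distrib]
    refine Finset.sum_congr rfl fun j _ => ?_
    ring
  rw [h1]
  refine (Finset.abs_sum_le_sum_abs _ _).trans ?_
  calc ∑ j, |lam tau t j * (E (t j) u i - (F (t j) +
        ∑ n, a n * ((tau (t j) : ℝ) / r) ^ (n : ℕ)))| ≤ ∑ _j : Fin (d + 2), e := by
        refine Finset.sum_le_sum fun j _ => ?_
        rw [abs_mul]
        have := mul_le_mul (lam_le tau t j) (h j) (abs_nonneg _) zero_le_one
        linarith
    _ = (d + 2) * e := by
        rw [Finset.sum_const, Finset.card_univ, Fintype.card_fin, nsmul_eq_mul]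
        push_cast
        ring

/-- The vectors are bounded. -/
theorem dd_bd (tau : T → ℤ) (E : T → Fin k → Fin c → ℝ) (u : Fin k) (t : Fin (d + 2) → T)
    (i : Fin c) {C : ℝ} (h : ∀ j, |E (t j) u i| ≤ C) : |dd d tau E u t i| ≤ (d + 2) * C := by
  have h1 := dd_near tau E u t i (fun _ => 0) 1 (fun _ => 0) (e := C) (fun j => by
    simpa using h j)
  simpa using h1

/-- A linear map which is constant on the tuple. -/
theorem dd_mulVec (tau : T → ℤ) (E : T → Fin k → Fin c → ℝ) (u : Fin k) (t : Fin (d + 2) → T)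
    (M : Matrix (Fin c) (Fin c) ℝ) (E' : T → Fin k → Fin c → ℝ)
    (h : ∀ j, E' (t j) u = M *ᵥ E (t j) u) :
    dd d tau E' u t = M *ᵥ dd d tau E u t := by
  funext i
  rw [dd_lam]
  simp only [h]
  unfold Matrix.mulVec dotProduct
  simp only [dd_lam]
  simp only [Finset.mul_sum]
  rw [Finset.sum_comm]
  refine Finset.sum_congr rfl fun a _ => Finset.sum_congr rfl fun j _ => ?_
  ring

end Pool.TC35
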