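import Pool.Agent.H16.TT.TqH
import Pool.Agent.H37.TT.Cnd

/-!
# TC: the chain of places, the statement

One law `p` and a chain of places. The record of a place knows the line of the place before. At one
of the places the `(d + 2)`-point vectors of the slopes are small.
-/

set_option autoImplicit false

namespace Pool.TC35

open Finset Real Matrix
open Pool.Agent.H49.Ent Pool.Agent.H32.Dense Pool.STK Pool.POT Pool.FAD Pool.SLO Pool.TQ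
open Pool.BFL (Pb)
open Pool.TT37 (dd)

/-- **The data of a place.** `L` the line, `th` the abstract time, `b` the context, `R` the record,
`Wd` the slow digits with the time, `hgt` the heights of the tied coordinates over the frame of
the context, `Z` the heights over the record, `Q e w r z` the heights `z` modulo the direction `e`,
`tau` the real time, `E` the slopes, `A` the body of `d + 2` times. -/
structure Pl (Ω : Type) (c k d : ℕ) where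
  Λ : Type
  τ : Type
  B : Type
  ρ : Type
  β : Type
  Dr : Type
  L : Ω → Λ
  th : Ω → τ
  b : Ω → B
  R : Ω → ρ
  Wd : Ω → β
  hgt : Ω → Fin c → ℤ
  Z : Ω → Fin c → ℤ
  Q : Dr → β → ρ → (Fin c → ℤ) → Fin c → ℤ
  tau : τ → ℤ
  E : τ → Fin k → Fin c → ℝ
  A : (Fin (d + 2) → τ) → Matrix (Fin c) (Fin c) ℝ

variable {Ω : Type} {c k d : ℕ}

/-- **The hypotheses at one place.** -/
structure Pl.Ok [Fintype Ω] (P : Pl Ω c k d) (p : Ω → ℝ) (X : ℕ)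
    (C K1 s γ δ₂ io η h x ϖ : ℝ) : Prop where
  Lb : Det p P.L P.b
  bR : Det p P.b P.R
  tau_r : ∀ ω, 0 ≤ P.tau (P.th ω) ∧ P.tau (P.th ω) < 2 ^ X
  E_b : ∀ ω u i, |P.E (P.th ω) u i| ≤ C
  tm : Pb (tup p P.L 1) (fun w =>
    |((P.tau (P.th (w 0)) - P.tau (P.th (w 1)) : ℤ) : ℝ)| ≤ s * 2 ^ X) ≤ δ₂
  h0 : MI p P.th P.L P.b ≤ io * X
  A_det : ∀ t, (P.A t).det ≠ 0
  A_b : ∀ t i j, |P.A t i j| ≤ K1
  A_inv : ∀ t i j, |(P.A t)⁻¹ i j| ≤ 2 ^ X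
  A_dd : ∀ t u i, |((P.A t)⁻¹ *ᵥ dd d P.tau P.E u t) i| ≤ K1
  body : DF (tup p P.L (d + 2)) (fun _ => Tx c X) (fun w => P.A fun j => P.th (w j.succ))
    (fun w => xv X (P.hgt (w 0)))
    (fun w => (P.b (w 0), (P.th (w 0), fun j : Fin (d + 2) => P.th (w j.succ)))) ≤ η * X
  Z_b : ∀ ω i, |(P.Z ω i : ℝ)| ≤ 2 ^ (γ * X) * 2 ^ X
  Q_b : ∀ ω e i, |(P.Q e (P.Wd ω) (P.R ω) (P.Z ω) i : ℝ)| ≤ 2 ^ (γ * X) * 2 ^ X
  rel : ∀ ω ω', 0 < p ω → 0 < p ω' → P.Z ω = P.Z ω' → P.Wd ω = P.Wd ω' → P.th ω = P.th ω' →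
    P.b ω = P.b ω' → ∀ i, |((P.hgt ω i - P.hgt ω' i : ℤ) : ℝ)| ≤ 2 ^ (γ * X)
  wd : MI p P.hgt P.Wd (fun ω => (P.th ω, P.b ω)) ≤ io * X
  b1 : ∀ G : Ω → Prop, ϖ ≤ Pool.K2S.Pe p G →
    CH (cond p G True) P.Z (fun ω => (P.Wd ω, P.R ω)) ≤ (c - h) * X * Real.log 2
  b2 : ∀ (f : P.ρ → P.Dr) (G : Ω → Prop), ϖ ≤ Pool.K2S.Pe p G →
    (c - 1 - x) * X * Real.log 2 ≤
      CH (cond p G True) (fun ω => P.Q (f (P.R ω)) (P.Wd ω) (P.R ω) (P.Z ω))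
        (fun ω => (P.Wd ω, P.R ω))

/-- `g` is up to `2 ^ (δ X) / 2 ^ X` a combination with moderate coefficients of
`(d + 2)`-point vectors of good samples with the context of `ω` at the next place, each of one
line of the next place. -/
def Spn (P P' : Pl Ω c k d) (p : Ω → ℝ) (X : ℕ) (δ : ℝ) (Gd : (Fin (d + 2) → Ω) → Prop)
    (ω : Ω) (g : Fin c → ℝ) : Prop :=
  ∃ (cf : Fin c → ℝ) (y : Fin c → Fin c → ℝ),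
    (∀ i, |g i - ∑ a, cf a * y a i| ≤ 2 ^ (δ * X) / 2 ^ X) ∧
    (∀ a, |cf a| ≤ 2 ^ (δ * X)) ∧
    ∀ a, y a = 0 ∨
      ∃ (u : Fin k) (w : Fin (d + 2) → Ω),
        (∀ j, 0 < p (w j) ∧ P'.L (w j) = P'.L (w 0) ∧ P'.b (w j) = P'.b ω) ∧ Gd w ∧
        y a = dd d P.tau P.E u fun j => P.th (w j)

/-- **The hypotheses for two places which follow each other.** `Mt` and `ph` are the change of the
frame and of the units. -/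
structure Chn [Fintype Ω] (P P' : Pl Ω c k d) (Mt : P'.B → Matrix (Fin c) (Fin c) ℝ)
    (ph : Fin k → ℝ) (Gd : (Fin (d + 2) → Ω) → Prop) (p : Ω → ℝ) (X A : ℕ)
    (γ δ δ₂ h : ℝ) : Prop where
  RL : Det p P'.R P.L
  tau_eq : ∀ ω, P'.tau (P'.th ω) = P.tau (P.th ω)
  M_det : ∀ b, (Mt b).det ≠ 0
  M_b : ∀ b i j, |Mt b i j| ≤ 2 ^ (γ * X)
  M_inv : ∀ b i j, |(Mt b)⁻¹ i j| ≤ 2 ^ (γ * X)
  ph_b : ∀ u, |ph u| ≤ 2 ^ (γ * X)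
  chg : ∃ a : P'.Λ → Fin k → Fin (d + 1) → Fin c → ℝ, ∀ ω, 0 < p ω → ∀ u i,
    |P'.E (P'.th ω) u i - (ph u * (Mt (P'.b ω) *ᵥ P.E (P.th ω) u) i +
      ∑ n, a (P'.L ω) u n i * ((P.tau (P.th ω) : ℝ) / 2 ^ X) ^ (n : ℕ))| ≤
      2 ^ (γ * X) / 2 ^ X
  gd : Pb (tup p P'.L (d + 1)) (fun w => ¬ Gd w) ≤ δ₂
  dir : ∀ g : P.Λ → Fin c → ℝ, ∃ f : P'.ρ → P'.Dr, ∀ ω ω', 0 < p ω → 0 < p ω' →
    P'.Wd ω = P'.Wd ω' → P'.th ω = P'.th ω' → P'.b ω = P'.b ω' →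
    Spn P P' p X δ Gd ω (g (P.L ω)) →
    ∀ i0, (∀ i, |(Mt (P'.b ω) *ᵥ g (P.L ω)) i| ≤ |(Mt (P'.b ω) *ᵥ g (P.L ω)) i0|) →
    (2 : ℝ) ^ (-(h * X)) ≤ |(Mt (P'.b ω) *ᵥ g (P.L ω)) i0| →
    pr i0 (fun i => (Mt (P'.b ω) *ᵥ g (P.L ω)) i / (Mt (P'.b ω) *ᵥ g (P.L ω)) i0) (P'.hgt ω) =
      pr i0 (fun i => (Mt (P'.b ω) *ᵥ g (P.L ω)) i / (Mt (P'.b ω) *ᵥ g (P.L ω)) i0)
        (P'.hgt ω') →
    ∀ i, |((P'.Q (f (P'.R ω)) (P'.Wd ω) (P'.R ω) (P'.Z ω) i -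
      P'.Q (f (P'.R ω')) (P'.Wd ω') (P'.R ω') (P'.Z ω') i : ℤ) : ℝ)| ≤ 2 ^ (A * δ * X)

/-- **TC.** At one of the places the `(d + 2)`-point vectors of the slopes are small. -/
def TcStmt (c k d : ℕ) : Prop :=
  ∀ (h x x₀ ε₀ : ℝ) (A : ℕ), 0 < h → h ≤ 1 → 0 ≤ x → 0 < x₀ → x + x₀ < h → 0 < ε₀ →
  ∃ (N : ℕ) (γ δ δ₂ io η ϖ : ℝ), 0 < γ ∧ 0 < δ ∧ 0 < δ₂ ∧ 0 < io ∧ 0 < η ∧ 0 < ϖ ∧
  ∀ C s K1 : ℝ, 1 ≤ C → 0 < s → s ≤ 1 → ∃ X0 : ℕ,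
  ∀ (Ω : Type) [Fintype Ω] (p : Ω → ℝ) (P : ℕ → Pl Ω c k d)
    (Mt : ∀ m, (P (m + 1)).B → Matrix (Fin c) (Fin c) ℝ) (ph : ℕ → Fin k → ℝ)
    (Gd : ℕ → (Fin (d + 2) → Ω) → Prop) (X : ℕ), X0 ≤ X → IsLaw p →
    (∀ m ≤ N, (P m).Ok p X C K1 s γ δ₂ io η h x ϖ) →
    (∀ m < N, Chn (P m) (P (m + 1)) (Mt m) (ph m) (Gd m) p X A γ δ δ₂ h) →
    ∃ m < N, Pb (tup p (P m).L (d + 2)) (fun w => ∃ u i,
      2 ^ (-(x₀ * X)) < |dd d (P m).tau (P m).E u (fun j => (P m).th (w j.succ)) i|) ≤ ε₀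

end Pool.TC35
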