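import Pool.Agent.H35.TC.Dd

/-!
# TC: bodies of the lines

`Adm`: bodies, functions of the line, which contain almost all the `(d + 2)`-point vectors.
`str`: the slopes are polynomials modulo the body. `step`: the body of a line contains the vectors
of all the lines of the next place.
-/

set_option autoImplicit false

namespace Pool.TC35

open Finset Real Matrix
open Pool.Agent.H49.Ent Pool.Agent.H32.Dense Pool.STK Pool.FAD Pool.POT Pool.SLO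
open Pool.BFL (Pb)
open Pool.TT37 (dd con_d pb_mono pb_nonneg pb_union)

variable {Ω Λ Λ' B : Type} [Fintype Ω] {c k d X : ℕ} {p : Ω → ℝ}

/-- Bad tuples for the bodies `S`. -/
def Bd (L : Ω → Λ) (T : Ω → ℤ) (e : Ω → Fin k → Fin c → ℝ) (S : Λ → Matrix (Fin c) (Fin c) ℝ)
    (w : Fin (d + 2) → Ω) : Prop :=
  ∃ u i, 1 < |((S (L (w 0)))⁻¹ *ᵥ dd d T e u w) i|

/-- The admissible bodies. -/
structure Adm (d : ℕ) (p : Ω → ℝ) (L : Ω → Λ) (T : Ω → ℤ) (e : Ω → Fin k → Fin c → ℝ) (X : ℕ)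
    (δ : ℝ) (S : Λ → Matrix (Fin c) (Fin c) ℝ) : Prop where
  det : ∀ z, (S z).det ≠ 0
  inv : ∀ z i j, |(S z)⁻¹ i j| ≤ 2 ^ X
  bad : Pb (tup p L (d + 1)) (Bd L T e S) ≤ δ

theorem Adm.mono {L : Ω → Λ} {T : Ω → ℤ} {e : Ω → Fin k → Fin c → ℝ} {δ δ' : ℝ}
    {S : Λ → Matrix (Fin c) (Fin c) ℝ} (h : Adm d p L T e X δ S) (hδ : δ ≤ δ') :
    Adm d p L T e X δ' S := ⟨h.det, h.inv, h.bad.trans hδ⟩

/-- The smallest volume. -/
noncomputable def Vf (d : ℕ) (p : Ω → ℝ) (L : Ω → Λ) (T : Ω → ℤ) (e : Ω → Fin k → Fin c → ℝ)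
    (X : ℕ) (δ : ℝ) : ℝ :=
  sInf {v | ∃ S, Adm d p L T e X δ S ∧ Ex p (fun ω => lv (S (L ω))) = v}

theorem Ex_lv_ge (hl : IsLaw p) {L : Ω → Λ} {S : Λ → Matrix (Fin c) (Fin c) ℝ}
    (hd : ∀ z, (S z).det ≠ 0) (hi : ∀ z i j, |(S z)⁻¹ i j| ≤ 2 ^ X) :
    -(c * (X * Real.log 2)) - Real.log c.factorial ≤ Ex p (fun ω => lv (S (L ω))) := by
  rw [← Ex_const hl.sum_one (-(c * (X * Real.log 2)) - Real.log c.factorial)]
  exact Ex_mono hl.nonneg fun ω _ => lv_ge (hd _) (hi _)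

variable {L : Ω → Λ} {T : Ω → ℤ} {e : Ω → Fin k → Fin c → ℝ} {δ : ℝ}

theorem Vf_le (hl : IsLaw p) {S : Λ → Matrix (Fin c) (Fin c) ℝ} (h : Adm d p L T e X δ S) :
    Vf d p L T e X δ ≤ Ex p (fun ω => lv (S (L ω))) := by
  refine csInf_le ⟨-(c * (X * Real.log 2)) - Real.log c.factorial, ?_⟩ ⟨S, h, rfl⟩
  rintro v ⟨S', h', rfl⟩
  exact Ex_lv_ge hl h'.det h'.inv

theorem Vf_ge (hl : IsLaw p) {S : Λ → Matrix (Fin c) (Fin c) ℝ} (h : Adm d p L T e X δ S) :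
    -(c * (X * Real.log 2)) - Real.log c.factorial ≤ Vf d p L T e X δ := by
  refine le_csInf ⟨_, S, h, rfl⟩ ?_
  rintro v ⟨S', h', rfl⟩
  exact Ex_lv_ge hl h'.det h'.inv

theorem Vf_near {S : Λ → Matrix (Fin c) (Fin c) ℝ} (h : Adm d p L T e X δ S) :
    ∃ S, Adm d p L T e X δ S ∧ Ex p (fun ω => lv (S (L ω))) < Vf d p L T e X δ + 1 := by
  have h1 : Vf d p L T e X δ < Vf d p L T e X δ + 1 := by linarith
  have hne : {v | ∃ S, Adm d p L T e X δ S ∧ Ex p (fun ω => lv (S (L ω))) = v}.Nonempty :=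
    ⟨_, S, h, rfl⟩
  obtain ⟨v, ⟨S', h', rfl⟩, hv⟩ := exists_lt_of_csInf_lt hne h1
  exact ⟨S', h', hv⟩

/-- **The slopes are polynomials modulo the body.** -/
theorem str (hl : IsLaw p) {S : Λ → Matrix (Fin c) (Fin c) ℝ} (hS : Adm d p L T e X δ S)
    {C s δ₂ : ℝ} (hs : 0 < s) (hs1 : s ≤ 1) (ht : ∀ ω, 0 ≤ T ω ∧ T ω < 2 ^ X)
    (hE : ∀ ω u i, |e ω u i| ≤ C)
    (hTM : Pb (tup p L 1) (fun w => |((T (w 0) - T (w 1) : ℤ) : ℝ)| ≤ s * 2 ^ X) ≤ δ₂) :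
    ∃ ep : Λ → Fin (d + 1) → Fin k → Fin c → ℝ,
      Pb p (fun ω => ¬ ∀ u i, |((S (L ω))⁻¹ *ᵥ e ω u) i -
        ∑ n, ep (L ω) n u i * ((T ω : ℝ) / 2 ^ X) ^ (n : ℕ)| ≤ 1 / s ^ (d + 2)) ≤
        (d + 2) * δ + (d + 2) ^ 2 * δ₂ := by
  have h0 := hl.nonneg
  obtain ⟨E', hE'⟩ : ∃ E' : Ω → Fin k → Fin c → ℝ, E' = fun ω u => (S (L ω))⁻¹ *ᵥ e ω u :=
    ⟨_, rfl⟩
  have b1 : ∀ ω u i, |E' ω u i| ≤ c * (2 ^ X * C) := by
    intro ω u i
    have h1 : E' ω u i = ∑ j, (S (L ω))⁻¹ i j * e ω u j := by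
      rw [hE']
      rfl
    rw [h1]
    refine (Finset.abs_sum_le_sum_abs _ _).trans ?_
    calc ∑ j, |(S (L ω))⁻¹ i j * e ω u j| ≤ ∑ _j : Fin c, 2 ^ X * C := by
          refine Finset.sum_le_sum fun j _ => ?_
          rw [abs_mul]
          exact mul_le_mul (hS.inv _ _ _) (hE _ _ _) (abs_nonneg _) (by positivity)
      _ = c * (2 ^ X * C) := by
          rw [Finset.sum_const, Finset.card_univ, Fintype.card_fin, nsmul_eq_mul]
  have b2 : Pb (tup p L (d + 2)) (fun w => ∃ u i,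
      (1 : ℝ) < |dd d T E' u (fun j => id (w (Fin.succ j))) i|) ≤ δ := by
    have m1 := Pool.LBL.pmarg (tup_sub h0 L (M := d + 1) (N := d + 2) Fin.succ
      (Fin.succ_injective _)) (Bd (d := d) L T e S)
    refine (pb_mono (tup_isLaw hl L (d + 2)).nonneg fun w hw hb => ?_).trans
      (m1.le.trans hS.bad)
    obtain ⟨u, i, hb⟩ := hb
    refine ⟨u, i, ?_⟩
    have hpos := ((tup_pos_iff h0 L (d + 2) w).1 hw).2
    have key := dd_mulVec T e u (fun j => w (Fin.succ j)) (S (L (w (Fin.succ 0))))⁻¹ E' (by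
      intro j
      rw [hE']
      beta_reduce
      rw [hpos (Fin.succ j), hpos (Fin.succ 0)])
    simp only [id] at hb
    rw [key] at hb
    exact hb
  obtain ⟨ep, -, h4⟩ := con_d hl L (id : Ω → Ω) T d E' hs hs1 ht b1 b2 hTM
  refine ⟨ep, ?_⟩
  rw [hE'] at h4
  exact h4

/-- A function of the line. -/
theorem fac (hl : IsLaw p) {L' : Ω → Λ'} {b : Ω → B} {L : Ω → Λ} (hb : Det p L' b)
    (hL : Det p L' L) : ∃ (β : Λ' → B) (lm : Λ' → Λ),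
      ∀ ω, 0 < p ω → β (L' ω) = b ω ∧ lm (L' ω) = L ω := by
  classical
  obtain ⟨ω₀⟩ : Nonempty Ω := by
    by_contra h
    rw [not_nonempty_iff] at h
    have := hl.sum_one
    simp at this
  have h1 : ∀ z, ∃ ω', ∀ ω, 0 < p ω → L' ω = z → 0 < p ω' ∧ L' ω' = z := by
    intro z
    by_cases h : ∃ ω', 0 < p ω' ∧ L' ω' = z
    · obtain ⟨ω', h⟩ := h
      exact ⟨ω', fun _ _ _ => h⟩
    · exact ⟨ω₀, fun ω h2 h3 => absurd ⟨ω, h2, h3⟩ h⟩
  choose r hr using h1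
  refine ⟨fun z => b (r z), fun z => L (r z), fun ω hω => ?_⟩
  obtain ⟨h2, h3⟩ := hr (L' ω) ω hω rfl
  exact ⟨hb _ _ h2 hω h3, hL _ _ h2 hω h3⟩

/-- The constant of the step. -/
noncomputable def Ks (c d : ℕ) (s : ℝ) : ℝ :=
  (d + 2) * (1 / s ^ (d + 2)) + c ^ 2 * (d + 2) + c

theorem Ks_pos {c d : ℕ} {s : ℝ} (hs : 0 < s) : 0 < Ks c d s := by
  unfold Ks
  positivity

/-- A matrix applied to a bounded vector. -/
theorem mulVec_bd {M : Matrix (Fin c) (Fin c) ℝ} {v : Fin c → ℝ} {a b : ℝ} (ha : 0 ≤ a)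
    (hM : ∀ i j, |M i j| ≤ a) (hv : ∀ j, |v j| ≤ b) (i : Fin c) : |(M *ᵥ v) i| ≤ c * (a * b) := by
  have h1 : (M *ᵥ v) i = ∑ j, M i j * v j := rfl
  rw [h1]
  refine (Finset.abs_sum_le_sum_abs _ _).trans ?_
  calc ∑ j, |M i j * v j| ≤ ∑ _j : Fin c, a * b := by
        refine Finset.sum_le_sum fun j _ => ?_
        rw [abs_mul]
        exact mul_le_mul (hM _ _) (hv _) (abs_nonneg _) ha
    _ = c * (a * b) := by
        rw [Finset.sum_const, Finset.card_univ, Fintype.card_fin, nsmul_eq_mul]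

omit [Fintype Ω] in
/-- **The change of the vectors.** -/
theorem dd_chg {T : Ω → ℤ} {e e' : Ω → Fin k → Fin c → ℝ} {M : Matrix (Fin c) (Fin c) ℝ}
    {φ : Fin k → ℝ} {a : Fin k → Fin (d + 1) → Fin c → ℝ} {D : ℝ} (w : Fin (d + 2) → Ω)
    (h : ∀ j u i, |e' (w j) u i - (φ u * (M *ᵥ e (w j) u) i +
      ∑ n, a u n i * ((T (w j) : ℝ) / 2 ^ X) ^ (n : ℕ))| ≤ D / 2 ^ X) (u : Fin k) (i : Fin c) :
    |dd d T e' u w i - φ u * (M *ᵥ dd d T e u w) i| ≤ (d + 2) * (D / 2 ^ X) := by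
  have h1 := dd_near T e' u w i (fun n => a u n i) (2 ^ X) (fun ω => φ u * (M *ᵥ e ω u) i)
    (fun j => h j u i)
  have h2 : ∑ j, lam T w j * (φ u * (M *ᵥ e (w j) u) i) = φ u * (M *ᵥ dd d T e u w) i := by
    have h3 := dd_mulVec T e u w M (fun ω u => M *ᵥ e ω u) (fun _ => rfl)
    rw [← h3, dd_lam, Finset.mul_sum]
    refine Finset.sum_congr rfl fun j _ => ?_
    ring
  rwa [h2] at h1

/-- **The step.** -/
theorem step (hl : IsLaw p) {L' : Ω → Λ'} {b : Ω → B} {e' : Ω → Fin k → Fin c → ℝ}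
    {Mt : B → Matrix (Fin c) (Fin c) ℝ} {φ : Fin k → ℝ} (hb : Det p L' b) (hL : Det p L' L)
    {C D s δ₂ : ℝ} (hD : 1 ≤ D) (hs : 0 < s) (hs1 : s ≤ 1)
    (ht : ∀ ω, 0 ≤ T ω ∧ T ω < 2 ^ X) (hE : ∀ ω u i, |e ω u i| ≤ C)
    (hTM : Pb (tup p L 1) (fun w => |((T (w 0) - T (w 1) : ℤ) : ℝ)| ≤ s * 2 ^ X) ≤ δ₂)
    (hMd : ∀ b, (Mt b).det ≠ 0) (hMi : ∀ b i j, |(Mt b)⁻¹ i j| ≤ D) (hφ : ∀ u, |φ u| ≤ D)
    (hchg : ∃ a : Λ' → Fin k → Fin (d + 1) → Fin c → ℝ, ∀ ω, 0 < p ω → ∀ u i,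
      |e' ω u i - (φ u * (Mt (b ω) *ᵥ e ω u) i +
        ∑ n, a (L' ω) u n i * ((T ω : ℝ) / 2 ^ X) ^ (n : ℕ))| ≤ D / 2 ^ X)
    {S : Λ → Matrix (Fin c) (Fin c) ℝ} (hS : Adm d p L T e X δ S) :
    ∃ (β : Λ' → B) (lm : Λ' → Λ) (Gs : Ω → Prop),
      (∀ ω, 0 < p ω → β (L' ω) = b ω ∧ lm (L' ω) = L ω) ∧
      Pb p (fun ω => ¬ Gs ω) ≤ (d + 2) * δ + (d + 2) ^ 2 * δ₂ ∧
      (∀ w : Fin (d + 2) → Ω, (∀ j, 0 < p (w j) ∧ L' (w j) = L' (w 0) ∧ Gs (w j)) → ∀ u i,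
        |(((Ks c d s * D ^ 2) • (Mt (β (L' (w 0))) * S (lm (L' (w 0)))))⁻¹ *ᵥ
          dd d T e' u w) i| ≤ 1) ∧
      Adm d p L' T e' X ((d + 2) * ((d + 2) * δ + (d + 2) ^ 2 * δ₂))
        (fun z => (Ks c d s * D ^ 2) • (Mt (β z) * S (lm z))) := by
  classical
  have h0 := hl.nonneg
  have hX : (0 : ℝ) < 2 ^ X := by positivity
  have hD0 : 0 < D := by linarith
  have hD2 : D ≤ D ^ 2 := by nlinarith
  obtain ⟨a, hchg⟩ := hchg
  obtain ⟨β, lm, hβ⟩ := fac hl hb hL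
  obtain ⟨ep, hep⟩ := str hl hS hs hs1 ht hE hTM
  obtain ⟨K, hK⟩ : ∃ K : ℝ, K = Ks c d s * D ^ 2 := ⟨_, rfl⟩
  have hK0 : 0 < K := hK ▸ mul_pos (Ks_pos hs) (by positivity)
  obtain ⟨Gs, hGs⟩ : ∃ Gs : Ω → Prop, Gs = fun ω => ∀ u i, |((S (L ω))⁻¹ *ᵥ e ω u) i -
        ∑ n, ep (L ω) n u i * ((T ω : ℝ) / 2 ^ X) ^ (n : ℕ)| ≤ 1 / s ^ (d + 2) := ⟨_, rfl⟩
  have hSd : ∀ z, (Mt (β z) * S (lm z)).det ≠ 0 := fun z => by
    rw [Matrix.det_mul]
    exact mul_ne_zero (hMd _) (hS.det _)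
  have hinv : ∀ z, (K • (Mt (β z) * S (lm z)))⁻¹ = K⁻¹ • ((S (lm z))⁻¹ * (Mt (β z))⁻¹) := by
    intro z
    rw [← Matrix.mul_inv_rev]
    refine Matrix.inv_eq_left_inv ?_
    rw [Matrix.smul_mul, Matrix.mul_smul, smul_smul, inv_mul_cancel₀ hK0.ne', one_smul,
      Matrix.nonsing_inv_mul _ (isUnit_iff_ne_zero.2 (hSd z))]
  have hs' : 0 ≤ ((d : ℝ) + 2) * (1 / s ^ (d + 2)) := by positivity
  have hc' : 0 ≤ (c : ℝ) ^ 2 * (d + 2) := by positivity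
  have hcc : 0 ≤ (c : ℝ) := by positivity
  have good : ∀ w : Fin (d + 2) → Ω, (∀ j, 0 < p (w j) ∧ L' (w j) = L' (w 0) ∧ Gs (w j)) →
      ∀ u i, |((K • (Mt (β (L' (w 0))) * S (lm (L' (w 0)))))⁻¹ *ᵥ dd d T e' u w) i| ≤ 1 := by
    intro w hw u i
    obtain ⟨z, hz⟩ : ∃ z, z = L' (w 0) := ⟨_, rfl⟩
    have hβw : ∀ j, b (w j) = β z ∧ L (w j) = lm z := fun j => by
      have h1 := hβ (w j) (hw j).1
      rw [(hw j).2.1, ← hz] at h1
      exact ⟨h1.1.symm, h1.2.symm⟩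
    rw [← hz, hinv, Matrix.smul_mulVec, Pi.smul_apply, smul_eq_mul, abs_mul,
      abs_of_pos (inv_pos.2 hK0), ← div_eq_inv_mul, div_le_one hK0]
    -- the change of the frame
    have c1 := dd_chg (T := T) (e := e) (e' := e') (M := Mt (β z)) (φ := φ) (a := a z) (D := D)
      (X := X) w (fun j u i => by
        have := hchg (w j) (hw j).1 u i
        rw [(hβw j).1, (hw j).2.1, ← hz] at this
        exact this) u
    -- the vector modulo the body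
    have c2 : ∀ i, |((S (lm z))⁻¹ *ᵥ dd d T e u w) i| ≤ (d + 2) * (1 / s ^ (d + 2)) := by
      intro i
      obtain ⟨E', hE'⟩ : ∃ E' : Ω → Fin k → Fin c → ℝ, E' = fun ω u => (S (lm z))⁻¹ *ᵥ e ω u :=
        ⟨_, rfl⟩
      have key := dd_mulVec T e u w (S (lm z))⁻¹ E' (fun j => by rw [hE'])
      rw [← key]
      have h1 := dd_near T E' u w i (fun n => ep (lm z) n u i) (2 ^ X) (fun _ => 0)
        (e := 1 / s ^ (d + 2)) (fun j => by
          have h2 := (hw j).2.2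
          rw [hGs] at h2
          have h3 := h2 u i
          rw [(hβw j).2] at h3
          rw [hE', zero_add]
          exact h3)
      simpa using h1
    obtain ⟨r, hr⟩ : ∃ r : Fin c → ℝ, r = dd d T e' u w - φ u • (Mt (β z) *ᵥ dd d T e u w) :=
      ⟨_, rfl⟩
    have hd' : dd d T e' u w = φ u • (Mt (β z) *ᵥ dd d T e u w) + r := by
      rw [hr]
      abel
    have hspl : (((S (lm z))⁻¹ * (Mt (β z))⁻¹) *ᵥ dd d T e' u w) i =
        φ u * ((S (lm z))⁻¹ *ᵥ dd d T e u w) i +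
          ((S (lm z))⁻¹ *ᵥ ((Mt (β z))⁻¹ *ᵥ r)) i := by
      have h1 : ((S (lm z))⁻¹ * (Mt (β z))⁻¹) *ᵥ dd d T e' u w =
          φ u • ((S (lm z))⁻¹ *ᵥ dd d T e u w) + (S (lm z))⁻¹ *ᵥ ((Mt (β z))⁻¹ *ᵥ r) := by
        rw [hd', Matrix.mulVec_add, Matrix.mulVec_smul, Matrix.mulVec_mulVec, Matrix.mul_assoc,
          Matrix.nonsing_inv_mul _ (isUnit_iff_ne_zero.2 (hMd _)), Matrix.mul_one,
          Matrix.mulVec_mulVec]
      rw [h1, Pi.add_apply, Pi.smul_apply, smul_eq_mul]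
    rw [hspl]
    have c3 := mulVec_bd (M := (Mt (β z))⁻¹) (v := r)
      (a := D) (b := (d + 2) * (D / 2 ^ X)) (by linarith) (fun i j => hMi _ i j)
      (fun j => by
        rw [hr, Pi.sub_apply, Pi.smul_apply, smul_eq_mul]
        exact c1 j)
    have c4 := mulVec_bd (M := (S (lm z))⁻¹) (a := 2 ^ X) (by positivity)
      (fun i j => hS.inv _ i j) c3 i
    have c5 : (c : ℝ) * (2 ^ X * (c * (D * ((d + 2) * (D / 2 ^ X))))) =
        c ^ 2 * (d + 2) * D ^ 2 := by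
      field_simp
    rw [c5] at c4
    refine (abs_add_le _ _).trans ?_
    have c6 : |φ u * ((S (lm z))⁻¹ *ᵥ dd d T e u w) i| ≤
        D ^ 2 * ((d + 2) * (1 / s ^ (d + 2))) := by
      rw [abs_mul]
      refine (mul_le_mul (hφ u) (c2 i) (abs_nonneg _) hD0.le).trans ?_
      exact mul_le_mul_of_nonneg_right hD2 hs'
    rw [hK]
    unfold Ks
    have c7 : 0 ≤ (c : ℝ) * D ^ 2 := by positivity
    linarith
  refine ⟨β, lm, Gs, hβ, hGs ▸ hep, hK ▸ good, ?_, ?_, ?_⟩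
  · intro z
    rw [Matrix.det_smul]
    exact mul_ne_zero (pow_ne_zero _ (hK ▸ hK0.ne')) (hSd z)
  · intro z i j
    rw [← hK, hinv, Matrix.smul_apply, smul_eq_mul, abs_mul, abs_of_pos (inv_pos.2 hK0),
      ← div_eq_inv_mul, div_le_iff₀ hK0, Matrix.mul_apply]
    refine (Finset.abs_sum_le_sum_abs _ _).trans ?_
    calc ∑ l, |(S (lm z))⁻¹ i l * (Mt (β z))⁻¹ l j| ≤ ∑ _l : Fin c, 2 ^ X * D := by
          refine Finset.sum_le_sum fun l _ => ?_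
          rw [abs_mul]
          exact mul_le_mul (hS.inv _ _ _) (hMi _ _ _) (abs_nonneg _) (by positivity)
      _ = 2 ^ X * (c * D) := by
          rw [Finset.sum_const, Finset.card_univ, Fintype.card_fin, nsmul_eq_mul]
          ring
      _ ≤ 2 ^ X * K := by
          refine mul_le_mul_of_nonneg_left ?_ (by positivity)
          rw [hK]
          unfold Ks
          have h1 : (c : ℝ) * D ≤ c * D ^ 2 := mul_le_mul_of_nonneg_left hD2 hcc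
          have h2 : 0 ≤ (((d : ℝ) + 2) * (1 / s ^ (d + 2)) + c ^ 2 * (d + 2)) * D ^ 2 := by
            positivity
          linarith
  · have q0 := tup_isLaw hl L' (d + 1)
    have h1 : Pb (tup p L' (d + 1)) (fun w => ∃ j, ¬ Gs (w j)) ≤
        (d + 2) * ((d + 2) * δ + (d + 2) ^ 2 * δ₂) := by
      refine (pb_union q0.nonneg (fun j w => ¬ Gs (w j))).trans ?_
      calc ∑ j : Fin (d + 2), Pb (tup p L' (d + 1)) (fun w => ¬ Gs (w j)) ≤
            ∑ _j : Fin (d + 2), ((d + 2) * δ + (d + 2) ^ 2 * δ₂) := by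
            refine Finset.sum_le_sum fun j _ => ?_
            have m1 := Pool.LBL.pmarg (tup_marg h0 L' (d + 1) j) (fun ω => ¬ Gs ω)
            rw [m1]
            exact hGs ▸ hep
        _ = (d + 2) * ((d + 2) * δ + (d + 2) ^ 2 * δ₂) := by
            rw [Finset.sum_const, Finset.card_univ, Fintype.card_fin, nsmul_eq_mul]
            push_cast
            ring
    refine (pb_mono q0.nonneg fun w hw hbad => ?_).trans h1
    by_contra hcon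
    push Not at hcon
    have hpos := (tup_pos_iff h0 L' (d + 1) w).1 hw
    obtain ⟨u, i, hbad⟩ := hbad
    have := good w (fun j => ⟨hpos.1 j, hpos.2 j, hcon j⟩) u i
    rw [hK] at this
    linarith

end Pool.TC35
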