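import Pool.Agent.H35.TC.Bod

/-!
# TC: two places

If the bodies of the lines are long with large probability, and the bodies are contained in the
sampled bodies of the next place, then the inequality of `tg0` holds for their longest columns.
-/

set_option autoImplicit false

namespace Pool.TC35

open Finset Real Matrix
open Pool.Agent.H49.Ent Pool.Agent.H32.Dense Pool.STK Pool.FAD Pool.POT Pool.SLO Pool.TQ
open Pool.TT37 (dd pb_mono pb_nonneg pb_union pb_or)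
open Pool.K2S (Pe)
open Pool.BFL (Pb)

variable {c k d X N A : ℕ} {Ω : Type} [Fintype Ω] {p : Ω → ℝ} {P P' : Pl Ω c k d}

theorem pe_pb (q : Ω → ℝ) (E : Ω → Prop) : Pe q E = Pb q E := by
  rw [Pool.K2S.Pe_eq]
  rfl

/-- The longest column. -/
noncomputable def gc (hc : 0 < c) (S : Matrix (Fin c) (Fin c) ℝ) (l : Fin c) : ℝ :=
  S l (pv hc S).2

theorem gc_self (hc : 0 < c) (S : Matrix (Fin c) (Fin c) ℝ) :
    |gc hc S (pv hc S).1| = pe hc S := rfl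

theorem exists_argmax (hc : 0 < c) (v : Fin c → ℝ) : ∃ i0, ∀ i, |v i| ≤ |v i0| := by
  have : Nonempty (Fin c) := ⟨⟨0, hc⟩⟩
  exact Finite.exists_max fun i => |v i|

/-- The largest component. -/
noncomputable def am (hc : 0 < c) (v : Fin c → ℝ) : Fin c := (exists_argmax hc v).choose

theorem am_max (hc : 0 < c) (v : Fin c → ℝ) (i : Fin c) : |v i| ≤ |v (am hc v)| :=
  (exists_argmax hc v).choose_spec i

/-- A vector and its image. -/
theorem long_of (hc : 0 < c) {M : Matrix (Fin c) (Fin c) ℝ} (hM : M.det ≠ 0) {D : ℝ}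
    (hD : 0 ≤ D) (hMi : ∀ i j, |M⁻¹ i j| ≤ D) (g : Fin c → ℝ) (i : Fin c) :
    |g i| ≤ c * (D * |(M *ᵥ g) (am hc (M *ᵥ g))|) := by
  have h1 : g = M⁻¹ *ᵥ (M *ᵥ g) := by
    rw [Matrix.mulVec_mulVec, Matrix.nonsing_inv_mul _ (isUnit_iff_ne_zero.2 hM),
      Matrix.one_mulVec]
  conv_lhs => rw [h1]
  exact mulVec_bd hD hMi (fun j => am_max hc _ j) i

open Classical in
/-- **Two places.** -/
theorem two_places (hc : 0 < c) (hl : IsLaw p) {C K1 s γ δ δ₂ io η h x ϖ : ℝ}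
    (hP' : P'.Ok p X C K1 s γ δ₂ io η h x ϖ)
    {Mt : P'.B → Matrix (Fin c) (Fin c) ℝ} {ph : Fin k → ℝ} {Gd : (Fin (d + 2) → Ω) → Prop}
    (hch : Chn P P' Mt ph Gd p X A γ δ δ₂ h) (hh : h ≤ 1) (hϖ : 0 < ϖ) (hγ : 0 ≤ γ)
    (hδ : 0 ≤ δ) (hη : 0 ≤ η) (hδ₂ : 0 ≤ δ₂) {S : P.Λ → Matrix (Fin c) (Fin c) ℝ}
    {β : P'.Λ → P'.B} {lm : P'.Λ → P.Λ}
    (hβ : ∀ ω, 0 < p ω → β (P'.L ω) = P'.b ω ∧ lm (P'.L ω) = P.L ω) {Kc F Dh : ℝ}
    (hKc : 1 ≤ Kc) (hFD : F ≤ Dh) (hDh1 : 1 ≤ Dh) {ε₁ ε₂ ℓ₀ ℓ₁ : ℝ}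
    (hcont : Pb (tup p P'.L N) (fun u => ¬ ∀ i j,
      |((bm X (fam d (fun ω => P'.tau (P'.th ω)) (fun ω => P'.E (P'.th ω)) u))⁻¹ *
        (Kc • (Mt (β (P'.L (u 0))) * S (lm (P'.L (u 0)))))) i j| ≤ F) ≤ ε₁)
    (hlong : ε₂ ≤ Pb p (fun ω => ℓ₀ < pe hc (S (P.L ω)))) (hℓ : c * (2 ^ (γ * X) * ℓ₁) ≤ ℓ₀)
    (hℓ1 : (2 : ℝ) ^ (-(h * X)) ≤ ℓ₁) (hn1 : Dh * 2 ^ (γ * X) ≤ 2 ^ (δ * X))
    (hn2 : c * (2 ^ (γ * X) * (c * (Dh * ((d + 2) * 2 ^ (γ * X))))) ≤ (2 : ℝ) ^ (δ * X))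
    (hn3 : ((2 : ℝ) ^ X)⁻¹ ≤ (2 ^ (δ * X))⁻¹ * ℓ₁) {m : ℝ} (hm : 0 < m)
    (hmass : m * c < ε₂ - ε₁ - (N + 1) ^ (d + 2) * δ₂) {K : ℕ} (hK : 0 < K) :
    Real.log ((2 ^ (δ * X))⁻¹ * ℓ₁) + X * Real.log 2 -
      (((N + 1) ^ (d + 2) * (η * X + ((N + 1 : ℕ) : ℝ) * (io * X)) +
        CF c (c + 1) (c * max K1 1) ((N + 1) ^ (d + 2) - 1) + Cc c c) + |Cc c (c + 1)|) / m -
        Cc c c ≤
      (((N + 1 : ℕ) : ℝ) + 1) * (io * X) / m +
        (c * Real.log (2 * 2 ^ (γ * X) + 1) + c * Real.log (2 * 2 ^ (A * δ * X) + 1)) +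
        ((c - h) * X * Real.log 2 + (1 / m / K + 1 / m * ϖ) * Gb c X γ + Real.log (K + 1) -
          (1 - 1 / m * ϖ) * max 0 ((c - 1 - x) * X * Real.log 2)) := by
  have h0 := hl.nonneg
  have hX : (0 : ℝ) < 2 ^ X := by positivity
  have hD1 : (1 : ℝ) ≤ 2 ^ (γ * X) := Real.one_le_rpow (by norm_num) (by positivity)
  have hδX : (1 : ℝ) ≤ 2 ^ (δ * X) := Real.one_le_rpow (by norm_num) (by positivity)
  have hρ0 : (0 : ℝ) < (2 ^ (δ * X))⁻¹ := by positivity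
  have hρ1 : ((2 : ℝ) ^ (δ * X))⁻¹ ≤ 1 := inv_le_one_of_one_le₀ hδX
  have hℓ10 : 0 < ℓ₁ := lt_of_lt_of_le (by positivity) hℓ1
  have hDhδ : Dh ≤ 2 ^ (δ * X) := by
    calc Dh = Dh * 1 := (mul_one _).symm
      _ ≤ Dh * 2 ^ (γ * X) := mul_le_mul_of_nonneg_left hD1 (by linarith)
      _ ≤ _ := hn1
  -- the line as a function of the context
  have hbL : Det p P'.b P.L := fun ω ω' a a' e => hch.RL ω ω' a a' (hP'.bR ω ω' a a' e)
  obtain ⟨β', lb, hlb⟩ := fac hl (L' := P'.b) (b := P'.b) (L := P.L) (fun _ _ _ _ e => e) hbL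
  obtain ⟨g, hg⟩ : ∃ g : P.Λ → Fin c → ℝ, g = fun z => gc hc (S z) := ⟨_, rfl⟩
  obtain ⟨v, hv⟩ : ∃ v : P'.B → Fin c → ℝ, v = fun b => Mt b *ᵥ g (lb b) := ⟨_, rfl⟩
  have hvω : ∀ ω, 0 < p ω → v (P'.b ω) = Mt (P'.b ω) *ᵥ g (P.L ω) := by
    intro ω hω
    rw [hv]
    simp only
    rw [(hlb ω hω).2]
  obtain ⟨f, hf⟩ := hch.dir g
  -- the mass
  have q0 := tup_isLaw hl P'.L (N + 1)
  obtain ⟨Cn, hCn⟩ : ∃ Cn : (Fin (N + 1) → Ω) → Prop, Cn = fun u => ∀ i j,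
      |((bm X (fam d (fun ω => P'.tau (P'.th ω)) (fun ω => P'.E (P'.th ω)) u))⁻¹ *
        (Kc • (Mt (β (P'.L (u 0))) * S (lm (P'.L (u 0)))))) i j| ≤ F := ⟨_, rfl⟩
  obtain ⟨Gg, hGg⟩ : ∃ Gg : (Fin (N + 1) → Ω) → Prop, Gg = fun u =>
      ∀ σ : Fin (d + 2) → Fin (N + 1), Function.Injective σ → Gd fun j => u (σ j) := ⟨_, rfl⟩
  obtain ⟨Ev, hEv⟩ : ∃ Ev : (Fin (N + 2) → Ω) → Prop, Ev = fun w =>
      ℓ₀ < pe hc (S (P.L (w 0))) ∧ Cn (fun j => w j.succ) ∧ Gg (fun j => w j.succ) := ⟨_, rfl⟩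
  have m1 : ε₂ ≤ Pb (tup p P'.L (N + 1)) (fun w => ℓ₀ < pe hc (S (P.L (w 0)))) := by
    rw [Pool.LBL.pmarg (tup_marg h0 P'.L (N + 1) 0) (fun ω => ℓ₀ < pe hc (S (P.L ω)))]
    exact hlong
  have m2 : Pb (tup p P'.L (N + 1)) (fun w => ¬ Cn (fun j => w j.succ)) ≤ ε₁ := by
    have := Pool.LBL.pmarg (tup_sub h0 P'.L (M := N) (N := N + 1) Fin.succ
      (Fin.succ_injective _)) (fun u => ¬ Cn u)
    refine le_trans this.le ?_
    rw [hCn]
    exact hcont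
  have m3 : Pb (tup p P'.L (N + 1)) (fun w => ¬ Gg (fun j => w j.succ)) ≤
      (N + 1) ^ (d + 2) * δ₂ := by
    have k1 := pb_union q0.nonneg (fun (σ : Fin (d + 2) → Fin (N + 1)) (w : Fin (N + 2) → Ω) =>
      Function.Injective σ ∧ ¬ Gd fun j => w (σ j).succ)
    refine (pb_mono q0.nonneg fun w _ hw => ?_).trans (k1.trans ?_)
    · rw [hGg] at hw
      push Not at hw
      exact hw
    · calc ∑ σ : Fin (d + 2) → Fin (N + 1), Pb (tup p P'.L (N + 1)) (fun w =>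
            Function.Injective σ ∧ ¬ Gd fun j => w (σ j).succ) ≤
            ∑ _σ : Fin (d + 2) → Fin (N + 1), δ₂ := by
            refine Finset.sum_le_sum fun σ _ => ?_
            by_cases hσ : Function.Injective σ
            · have := Pool.LBL.pmarg (tup_sub h0 P'.L (M := d + 1) (N := N + 1)
                (fun j => (σ j).succ) (fun a b e => hσ (Fin.succ_injective _ e)))
                (fun u => ¬ Gd u)
              refine (pb_mono q0.nonneg fun w _ hw => hw.2).trans ?_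
              exact this.le.trans hch.gd
            · refine le_trans (le_of_eq ?_) hδ₂
              unfold Pb
              exact Finset.sum_eq_zero fun w _ => if_neg fun hw => hσ hw.1
        _ = (N + 1) ^ (d + 2) * δ₂ := by
            rw [Finset.sum_const, Finset.card_univ, Fintype.card_fun, Fintype.card_fin,
              Fintype.card_fin, nsmul_eq_mul]
            push_cast
            ring
  have m4 : Pb (tup p P'.L (N + 1)) (fun w => ℓ₀ < pe hc (S (P.L (w 0)))) ≤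
      Pb (tup p P'.L (N + 1)) Ev + (Pb (tup p P'.L (N + 1)) (fun w => ¬ Cn (fun j => w j.succ)) +
        Pb (tup p P'.L (N + 1)) (fun w => ¬ Gg (fun j => w j.succ))) := by
    refine (pb_or q0.nonneg (A := Ev) (B := fun w => ¬ Cn (fun j => w j.succ) ∨
      ¬ Gg (fun j => w j.succ)) fun w _ hw => ?_).trans
      (add_le_add le_rfl (pb_or q0.nonneg fun w _ hw => hw))
    by_contra hcon
    push Not at hcon
    refine hcon.1 ?_
    rw [hEv]
    exact ⟨hw, hcon.2.1, hcon.2.2⟩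
  have m5 : m * c < Pe (tup p P'.L (N + 1)) Ev := by
    rw [pe_pb]
    linarith
  obtain ⟨i0, hi0⟩ := Pe_pig hc Ev (fun w => am hc (v (P'.b (w 0)))) m5
  have hcR : (0 : ℝ) < c := by exact_mod_cast hc
  rw [mul_div_cancel_right₀ _ hcR.ne'] at hi0
  -- the good event
  obtain ⟨G, hG⟩ : ∃ G : P'.B → (Fin (N + 1) → P'.τ) → Prop, G = fun b t =>
    (∃ w : Fin (N + 1) → Ω, (∀ j, 0 < p (w j) ∧ P'.L (w j) = P'.L (w 0) ∧ P'.b (w j) = b ∧
      P'.th (w j) = t j) ∧ Gg w) ∧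
    (∀ i, |((bm X (fam d P'.tau P'.E t))⁻¹ *ᵥ v b) i| ≤ Dh) ∧ ℓ₁ ≤ |v b i0| ∧
    ∀ i, |v b i| ≤ |v b i0| := ⟨_, rfl⟩
  have hmG : m ≤ Pe (tup p P'.L (N + 1)) (fun w => G (P'.b (w 0)) fun j => P'.th (w j.succ)) := by
    refine hi0.trans ?_
    rw [pe_pb, pe_pb]
    refine pb_mono q0.nonneg fun w hw hE => ?_
    obtain ⟨hE, hi⟩ := hE
    rw [hEv] at hE
    obtain ⟨e1, e2, e3⟩ := hE
    have hpos := (tup_pos_iff h0 P'.L (N + 1) w).1 hw
    have hb : ∀ j, P'.b (w j) = P'.b (w 0) := fun j =>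
      hP'.Lb _ _ (hpos.1 j) (hpos.1 0) (hpos.2 j)
    rw [hG]
    refine ⟨⟨fun j => w j.succ, fun j => ⟨hpos.1 _, ?_, hb _, rfl⟩, e3⟩, fun i => ?_, ?_, ?_⟩
    · rw [hpos.2 j.succ, hpos.2 (Fin.succ 0)]
    · -- the containment
      rw [hCn] at e2
      have h1 := e2 i (pv hc (S (P.L (w 0)))).2
      have h2 := hβ (w (Fin.succ 0)) (hpos.1 _)
      have h3 : P'.L (w (Fin.succ 0)) = P'.L (w 0) := hpos.2 _
      have h4 := hβ (w 0) (hpos.1 0)
      rw [h3, h4.1, h4.2] at h1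
      have h5 : ((bm X (fam d (fun ω => P'.tau (P'.th ω)) (fun ω => P'.E (P'.th ω))
          fun j => w j.succ))⁻¹ * (Kc • (Mt (P'.b (w 0)) * S (P.L (w 0))))) i
          (pv hc (S (P.L (w 0)))).2 = Kc * ((bm X (fam d P'.tau P'.E
            fun j => P'.th (w j.succ)))⁻¹ *ᵥ v (P'.b (w 0))) i := by
        rw [hvω _ (hpos.1 0), hg, Matrix.mul_smul, Matrix.smul_apply, smul_eq_mul,
          ← Matrix.mul_assoc]
        congr 1
        rw [Matrix.mulVec_mulVec]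
        rfl
      rw [h5, abs_mul, abs_of_pos (by linarith : 0 < Kc)] at h1
      have h6 : |((bm X (fam d P'.tau P'.E fun j => P'.th (w j.succ)))⁻¹ *ᵥ
          v (P'.b (w 0))) i| ≤ Kc * |((bm X (fam d P'.tau P'.E
            fun j => P'.th (w j.succ)))⁻¹ *ᵥ v (P'.b (w 0))) i| :=
        le_mul_of_one_le_left (abs_nonneg _) hKc
      exact (h6.trans h1).trans hFD
    · -- the length
      have h1 := long_of hc (hch.M_det (P'.b (w 0))) (by linarith) (hch.M_inv (P'.b (w 0)))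
        (g (P.L (w 0))) (pv hc (S (P.L (w 0)))).1
      rw [← hvω _ (hpos.1 0), hi] at h1
      have h2 : |g (P.L (w 0)) (pv hc (S (P.L (w 0)))).1| = pe hc (S (P.L (w 0))) := by
        rw [hg]
        rfl
      rw [h2] at h1
      have h3 : (c : ℝ) * (2 ^ (γ * X) * ℓ₁) < c * (2 ^ (γ * X) * |v (P'.b (w 0)) i0|) := by
        linarith
      have h4 := lt_of_mul_lt_mul_left h3 hcR.le
      exact (lt_of_mul_lt_mul_left h4 (by linarith)).le
    · intro i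
      rw [← hi]
      exact am_max hc _ i
  -- the body
  obtain ⟨A0, hA0⟩ : ∃ A0 : P'.B → (Fin (N + 1) → P'.τ) → Matrix (Fin c) (Fin c) ℝ,
    A0 = fun b t => if G b t then Vm X i0 (fun i => (2 ^ (δ * X))⁻¹ * v b i) else Tx c X :=
    ⟨_, rfl⟩
  have hGi0 : ∀ b t, G b t → ((2 : ℝ) ^ (δ * X))⁻¹ * ℓ₁ ≤ |(2 ^ (δ * X))⁻¹ * v b i0| := by
    intro b t hb
    rw [hG] at hb
    rw [abs_mul, abs_of_pos hρ0]
    exact mul_le_mul_of_nonneg_left hb.2.2.1 hρ0.le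
  have hne : ∀ b t, G b t → ((2 : ℝ) ^ (δ * X))⁻¹ * v b i0 ≠ 0 := fun b t hb =>
    abs_pos.1 (lt_of_lt_of_le (mul_pos hρ0 hℓ10) (hGi0 b t hb))
  have hdet : ∀ b t, (A0 b t).det ≠ 0 := by
    intro b t
    rw [hA0]
    simp only
    split_ifs with hb
    · exact Vm_det_ne (hne b t hb)
    · exact Tx_det c X
  have hinv : ∀ b t i j, |(A0 b t)⁻¹ i j| ≤ 2 ^ X := by
    intro b t i j
    rw [hA0]
    simp only
    split_ifs with hb
    · refine vm_inv (hn3.trans (hGi0 b t hb)) (fun i => ?_) i j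
      rw [hG] at hb
      rw [abs_mul, abs_mul]
      exact mul_le_mul_of_nonneg_left (hb.2.2.2 i) (abs_nonneg _)
    · exact Tx_inv_le i j
  have hincl : ∀ b t, Inc c (A0 b t) (bm X (fam d P'.tau P'.E t)) := by
    intro b t
    rw [hA0]
    simp only
    split_ifs with hb
    · refine vm_inc (fun i j => bm_inv i j) fun i => ?_
      rw [hG] at hb
      have h1 : (fun i => ((2 : ℝ) ^ (δ * X))⁻¹ * v b i) = ((2 : ℝ) ^ (δ * X))⁻¹ • v b := rfl
      rw [h1, Matrix.mulVec_smul, Pi.smul_apply, smul_eq_mul, abs_mul, abs_of_pos hρ0,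
        inv_mul_le_iff₀ (by positivity), mul_one]
      exact (hb.2.1 i).trans hDhδ
    · exact tx_inc fun i j => bm_inv i j
  have hdG : ∀ {T : Type} (F : P'.B → (Fin (N + 1) → P'.τ) → T), Det (tup p P'.L (N + 1))
      (fun w => (P'.b (w 0), (P'.th (w 0), fun j : Fin (N + 1) => P'.th (w j.succ))))
      (fun w => F (P'.b (w 0)) fun j => P'.th (w j.succ)) := by
    intro T F w w' _ _ e
    simp only [Prod.mk.injEq] at e
    simp only
    rw [e.1, e.2.2]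
  have hηX : 0 ≤ η * X := by positivity
  have e1 := DF_smp (k := k) (d := d) hl hP'.Lb hP'.h0 P'.tau P'.E P'.A hP'.A_det hP'.A_inv
    hP'.A_dd hηX hP'.body N
  have e2 := DF_mono q0.nonneg q0.sum_one (T := fun _ => Tx c X)
    (W := fun w => A0 (P'.b (w 0)) fun j : Fin (N + 1) => P'.th (w j.succ))
    (S := fun w => bm X (fam d P'.tau P'.E fun j : Fin (N + 1) => P'.th (w j.succ)))
    (fun w => xv X (P'.hgt (w 0)))
    (fun w => (P'.b (w 0), (P'.th (w 0), fun j : Fin (N + 1) => P'.th (w j.succ))))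
    (hdG fun b t => A0 b t) (hdG fun _ t => bm X (fam d P'.tau P'.E t)) (fun w => hdet _ _)
    (fun w => bm_det) (a := (c : ℝ)) (by positivity) (fun w => hincl _ _)
  refine tg0 hc hl hP' hh hϖ (A0 := A0) hdet hinv (e2.trans (add_le_add e1 le_rfl)) (i0 := i0) v
    (G := G) (a₀ := (2 ^ (δ * X))⁻¹ * ℓ₁) (mul_pos hρ0 hℓ10) ?_ ?_ f (D := 2 ^ (A * δ * X)) ?_ hm
    hmG hK
  · intro b t
    rw [hA0]
    simp only
    split_ifs with hb
    · rw [Vm_self]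
      exact hne b t hb
    · exact Tx_self i0
  · intro b t hb
    rw [hA0]
    simp only [if_pos hb, Vm_self]
    refine ⟨hGi0 b t hb, fun i => ?_⟩
    exact mul_div_mul_left _ _ hρ0.ne'
  · intro t ω ω' a a' hb eW et eb
    rw [hG] at hb
    obtain ⟨⟨w, hw, hgw⟩, hb1, hb2, hb3⟩ := hb
    rw [hvω ω a] at hb1 hb2 hb3 ⊢
    have hspn : Spn P P' p X δ Gd ω (g (P.L ω)) := by
      have ht : t = fun j => P'.th (w j) := by
        funext j
        exact (hw j).2.2.2.symm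
      rw [ht] at hb1
      refine spn_of hD1 hDh1 hch.tau_eq hch.M_det hch.M_inv hch.ph_b hch.chg w ω
        (fun j => ⟨(hw j).1, (hw j).2.1, (hw j).2.2.1⟩) ?_ _ hb1 hn1 hn2
      rw [hGg] at hgw
      exact hgw
    exact hf ω ω' a a' eW et eb hspn i0 hb3 (hℓ1.trans hb2)

end Pool.TC35
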