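import Pool.Agent.H35.TC.Def
import Pool.Agent.H21.QW.Asm

/-!
# TC: linear algebra

`bm X V`: the matrix of the `c` vectors of largest determinant among the vectors `V` and the small
axes.
-/

set_option autoImplicit false

namespace Pool.TC35

open Finset Real Matrix
open Pool.FAD Pool.POT
open Pool.QC (mat)

variable {c : ℕ} {κ κ' : Type}

/-- The vectors `V` and the small axes. -/
noncomputable def fx (X : ℕ) (V : κ → Fin c → ℝ) : κ ⊕ Fin c → Fin c → ℝ
  | .inl j => V j
  | .inr i => Pi.single i ((2 : ℝ) ^ X)⁻¹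

theorem exists_best [Finite κ] (X : ℕ) (V : κ → Fin c → ℝ) : ∃ f : Fin c → κ ⊕ Fin c,
    ∀ f' : Fin c → κ ⊕ Fin c, |(mat fun b => fx X V (f' b)).det| ≤ |(mat fun b => fx X V (f b)).det| := by
  have : Nonempty (Fin c → κ ⊕ Fin c) := ⟨fun b => .inr b⟩
  exact Finite.exists_max (fun f : Fin c → κ ⊕ Fin c => |(mat fun b => fx X V (f b)).det|)

/-- The chosen vectors. -/
noncomputable def bi [Finite κ] (X : ℕ) (V : κ → Fin c → ℝ) : Fin c → κ ⊕ Fin c :=
  (exists_best X V).choose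

/-- The body. -/
noncomputable def bm [Finite κ] (X : ℕ) (V : κ → Fin c → ℝ) : Matrix (Fin c) (Fin c) ℝ :=
  mat fun b => fx X V (bi X V b)

variable [Finite κ] [Finite κ'] {X : ℕ} {V : κ → Fin c → ℝ}

theorem bm_max (f' : Fin c → κ ⊕ Fin c) : |(mat fun b => fx X V (f' b)).det| ≤ |(bm X V).det| :=
  (exists_best X V).choose_spec f'

theorem mat_axes : (mat fun b => fx X V (.inr b)) = Tx c X := by
  ext i j
  simp only [mat, fx, Tx, Matrix.of_apply, Matrix.diagonal_apply, Pi.single_apply]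

theorem bm_det : (bm X V).det ≠ 0 := by
  have h1 := bm_max (X := X) (V := V) (fun b => .inr b)
  rw [mat_axes] at h1
  exact abs_pos.1 ((abs_pos.2 (Tx_det c X)).trans_le h1)

/-- Cramer. -/
theorem mat_upd {G : Fin c → Fin c → ℝ} (hd : (mat G).det ≠ 0) (v : Fin c → ℝ) (b : Fin c) :
    |((mat G)⁻¹ *ᵥ v) b| * |(mat G).det| = |(mat (Function.update G b v)).det| := by
  have h1 : ((mat G)⁻¹ *ᵥ v) b = (mat (Function.update G b v)).det / (mat G).det := by
    rw [Matrix.inv_def, Matrix.smul_mulVec, ← Matrix.cramer_eq_adjugate_mulVec, Pi.smul_apply,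
      Matrix.cramer_apply, Ring.inverse_eq_inv', smul_eq_mul, div_eq_inv_mul]
    congr 2
    ext i j
    rw [Matrix.updateCol_apply]
    simp only [mat, Matrix.of_apply, Function.update_apply]
    by_cases e : j = b
    · rw [if_pos e, if_pos e]
    · rw [if_neg e, if_neg e]
  rw [h1, abs_div, div_mul_cancel₀ _ (abs_pos.2 hd).ne']

theorem upd_fx (f : Fin c → κ ⊕ Fin c) (v : κ ⊕ Fin c) (b : Fin c) :
    Function.update (fun b => fx X V (f b)) b (fx X V v) =
      fun b' => fx X V (Function.update f b v b') := by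
  funext b'
  by_cases e : b' = b
  · subst e
    simp
  · simp [e]

/-- A larger family with one more vector. -/
theorem bm_step {V' : κ' → Fin c → ℝ} (ι : κ → κ') (hι : ∀ j, V' (ι j) = V j) (v : κ' ⊕ Fin c)
    (b : Fin c) :
    |((bm X V)⁻¹ *ᵥ fx X V' v) b| * |(bm X V).det| ≤ |(bm X V').det| := by
  have h1 : ∀ w : κ ⊕ Fin c, fx X V' (Sum.map ι id w) = fx X V w := by
    intro w
    rcases w with j | i
    · exact hι j
    · rfl
  have h2 : bm X V = mat (fun b => fx X V' (Sum.map ι id (bi X V b))) := by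
    unfold bm
    simp only [h1]
  have h3 : (mat (fun b => fx X V' (Sum.map ι id (bi X V b)))).det ≠ 0 := h2 ▸ bm_det
  have h4 := mat_upd h3 (fx X V' v) b
  rw [← h2] at h4
  rw [h4, upd_fx]
  exact bm_max _

/-- A larger family. -/
theorem bm_le_bm {V' : κ' → Fin c → ℝ} (ι : κ → κ') (hι : ∀ j, V' (ι j) = V j) :
    |(bm X V).det| ≤ |(bm X V').det| := by
  have h1 : ∀ w : κ ⊕ Fin c, fx X V' (Sum.map ι id w) = fx X V w := by
    intro w
    rcases w with j | i
    · exact hι j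
    · rfl
  have h2 : bm X V = mat (fun b => fx X V' (Sum.map ι id (bi X V b))) := by
    unfold bm
    simp only [h1]
  rw [h2]
  exact bm_max _

theorem bm_le (v : κ ⊕ Fin c) (b : Fin c) : |((bm X V)⁻¹ *ᵥ fx X V v) b| ≤ 1 := by
  have h1 := bm_step (X := X) (V := V) (V' := V) id (fun _ => rfl) v b
  have h2 : 0 < |(bm X V).det| := abs_pos.2 bm_det
  by_contra h
  push Not at h
  nlinarith

/-- Small axes in a body. -/
theorem inv_axis (S : Matrix (Fin c) (Fin c) ℝ) (i j : Fin c) :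
    (S⁻¹ *ᵥ (Pi.single j ((2 : ℝ) ^ X)⁻¹)) i = S⁻¹ i j * ((2 : ℝ) ^ X)⁻¹ := by
  rw [Matrix.mulVec_single]
  simp only [Pi.smul_apply, MulOpposite.smul_eq_mul_unop, MulOpposite.unop_op, Matrix.col_apply]

theorem bm_inv (i j : Fin c) : |(bm X V)⁻¹ i j| ≤ 2 ^ X := by
  have e := bm_le (X := X) (V := V) (.inr j) i
  have e1 : fx X V (.inr j) = Pi.single j ((2 : ℝ) ^ X)⁻¹ := rfl
  rw [e1, inv_axis, abs_mul, abs_of_pos (by positivity : (0 : ℝ) < ((2 : ℝ) ^ X)⁻¹),
    ← div_eq_mul_inv, div_le_one (by positivity)] at e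
  exact e

theorem bm_ent {M : ℝ} (hM : 1 ≤ M) (h : ∀ j i, |V j i| ≤ M) (i j : Fin c) : |bm X V i j| ≤ M := by
  have h1 : bm X V i j = fx X V (bi X V j) i := rfl
  rw [h1]
  rcases bi X V j with u | l
  · exact h u i
  · simp only [fx, Pi.single_apply]
    split_ifs
    · rw [abs_of_pos (by positivity)]
      exact (inv_le_one_of_one_le₀ (one_le_pow₀ (by norm_num))).trans hM
    · rw [abs_zero]
      linarith

/-- A determinant with bounded entries. -/
theorem det_bd {A : Matrix (Fin c) (Fin c) ℝ} {M : ℝ} (h : ∀ i j, |A i j| ≤ M) :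
    |A.det| ≤ c.factorial * M ^ c := by
  have h1 := Matrix.det_le (abv := AbsoluteValue.abs) (A := A) (x := M) h
  simp only [AbsoluteValue.abs_apply, Fintype.card_fin, nsmul_eq_mul] at h1
  exact h1

theorem lv_le {A : Matrix (Fin c) (Fin c) ℝ} (hA : A.det ≠ 0) {M : ℝ} (h : ∀ i j, |A i j| ≤ M) :
    lv A ≤ Real.log (c.factorial * M ^ c) :=
  Real.log_le_log (abs_pos.2 hA) (det_bd h)

theorem lv_inv {A : Matrix (Fin c) (Fin c) ℝ} (hA : A.det ≠ 0) : lv A⁻¹ = -lv A := by
  unfold lv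
  have h1 : A⁻¹.det = (A.det)⁻¹ := by
    rw [Matrix.det_nonsing_inv, Ring.inverse_eq_inv']
  rw [h1, abs_inv, Real.log_inv]

/-- A body which contains the small cube is not too thin. -/
theorem lv_ge {A : Matrix (Fin c) (Fin c) ℝ} (hA : A.det ≠ 0) (h : ∀ i j, |A⁻¹ i j| ≤ 2 ^ X) :
    -(c * (X * Real.log 2)) - Real.log c.factorial ≤ lv A := by
  have hf : (0 : ℝ) < c.factorial := by exact_mod_cast Nat.factorial_pos c
  have h0 : A⁻¹.det ≠ 0 := by
    rw [Matrix.det_nonsing_inv, Ring.inverse_eq_inv']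
    exact inv_ne_zero hA
  have h1 := lv_le h0 h
  rw [lv_inv hA, Real.log_mul hf.ne' (by positivity), ← pow_mul, Real.log_pow] at h1
  push_cast at h1
  linarith

theorem lv_mul {A B : Matrix (Fin c) (Fin c) ℝ} (hA : A.det ≠ 0) (hB : B.det ≠ 0) :
    lv (A * B) = lv A + lv B := by
  unfold lv
  rw [Matrix.det_mul, abs_mul, Real.log_mul (abs_ne_zero.2 hA) (abs_ne_zero.2 hB)]

/-- The inverse of a matrix with entries at most one. -/
theorem inv_bd {R : Matrix (Fin c) (Fin c) ℝ} (h : ∀ i j, |R i j| ≤ 1) {ρ : ℝ} (hρ : 0 < ρ)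
    (hR : ρ ≤ |R.det|) (i j : Fin c) : |R⁻¹ i j| ≤ c.factorial / ρ := by
  have hd : R.det ≠ 0 := abs_pos.1 (hρ.trans_le hR)
  have hd0 : 0 < |R.det| := abs_pos.2 hd
  rw [Matrix.inv_def, Ring.inverse_eq_inv', Matrix.smul_apply, smul_eq_mul, abs_mul, abs_inv,
    Matrix.adjugate_apply, mul_comm, ← div_eq_mul_inv]
  have h1 : |(R.updateRow j (Pi.single i 1)).det| ≤ c.factorial * 1 ^ c := by
    refine det_bd fun a b => ?_
    rw [Matrix.updateRow_apply]
    split_ifs
    · rw [Pi.single_apply]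
      split_ifs <;> simp
    · exact h a b
  rw [one_pow, mul_one] at h1
  exact div_le_div₀ (by positivity) h1 hρ hR

end Pool.TC35
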