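import Pool.Agent.H35.TC.Nms

/-!
# TC: the theorem

`tc`: at one of the places of the chain the `(d + 2)`-point vectors of the slopes are small.
-/

set_option autoImplicit false

namespace Pool.TC35

open Finset Real Matrix
open Pool.Agent.H49.Ent Pool.Agent.H32.Dense Pool.STK Pool.FAD Pool.POT Pool.SLO Pool.TQ
open Pool.TT37 (dd pb_mono pb_nonneg pb_union pb_or)
open Pool.BFL (Pb)

/-- Pigeonhole. -/
theorem pig (V : ℕ → ℝ) {Q : ℕ} {α Y a b : ℝ} (h0 : V 0 ≤ a) (hQ : -b ≤ V Q)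
    (hY : a + b < Q * (α * Y)) : ∃ n < Q, V n ≤ V (n + 1) + α * Y := by
  by_contra hcon
  push Not at hcon
  have h1 : ∀ q ≤ Q, V q + q * (α * Y) ≤ V 0 := by
    intro q
    induction q with
    | zero =>
      intro _
      simp
    | succ q ih =>
      intro hq
      have h2 := ih (by omega)
      have h3 := hcon q (by omega)
      push_cast
      linarith
  have h4 := h1 Q le_rfl
  linarith

/-- **TC.** -/
theorem tc (c k d : ℕ) : TcStmt c k d := by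
  intro h x x₀ ε₀ A hh hh1 hx hx₀ hxx hε₀
  rcases Nat.eq_zero_or_pos c with hc | hc
  · subst hc
    refine ⟨1, 1, 1, 1, 1, 1, 1, one_pos, one_pos, one_pos, one_pos, one_pos, one_pos,
      fun C s K1 _ _ _ => ⟨0, fun Ω _ p P Mt ph Gd X _ hl _ _ => ⟨0, one_pos, ?_⟩⟩⟩
    have q0 := tup_isLaw hl (P 0).L (d + 2)
    have h1 : Pb (tup p (P 0).L (d + 2)) (fun w => ∃ u i,
        2 ^ (-(x₀ * X)) < |dd d (P 0).tau (P 0).E u (fun j => (P 0).th (w j.succ)) i|) ≤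
        Pb (tup p (P 0).L (d + 2)) (fun _ => False) := by
      refine pb_mono q0.nonneg fun w _ hb => ?_
      obtain ⟨u, i, _⟩ := hb
      exact i.elim0
    have h2 : Pb (tup p (P 0).L (d + 2)) (fun _ => False) = 0 := by
      unfold Pb
      simp
    linarith
  obtain ⟨g, hg⟩ : ∃ g : ℝ, g = h - x - x₀ := ⟨_, rfl⟩
  have hg0 : 0 < g := by linarith
  have hg1 : g ≤ 1 := by linarith
  obtain ⟨ε, hε⟩ : ∃ ε : ℝ, ε = min ε₀ 1 := ⟨_, rfl⟩
  have hε0 : 0 < ε := by rw [hε]; exact lt_min hε₀ one_pos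
  have hε1 : ε ≤ 1 := by rw [hε]; exact min_le_right _ _
  have hεε : ε ≤ ε₀ := by rw [hε]; exact min_le_left _ _
  obtain ⟨n⟩ := ex_nums c d A hc hg0 hg1 hε0 hε1
  refine ⟨n.Q, n.γ, n.δ, n.δ₂, n.io, n.io, n.ϖ, n.γ0, n.δ0, n.δ₂0, n.io0, n.io0, n.ϖ0, ?_⟩
  intro C s K1 hC1 hs hs1
  have hcR : (1 : ℝ) ≤ c := by exact_mod_cast hc
  have hL2 : 0 < Real.log 2 := Real.log_pos (by norm_num)
  obtain ⟨W, hW⟩ : ∃ W : ℝ, W = ∑ N ∈ range n.Nb, |Wc c d n.K K1 n.m n.ϖ N| := ⟨_, rfl⟩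
  have hW0 : 0 ≤ W := by
    rw [hW]
    exact Finset.sum_nonneg fun _ _ => abs_nonneg _
  have hWN : ∀ N < n.Nb, Wc c d n.K K1 n.m n.ϖ N ≤ W := by
    intro N hN
    rw [hW]
    exact (le_abs_self _).trans (Finset.single_le_sum
      (f := fun N => |Wc c d n.K K1 n.m n.ϖ N|) (fun _ _ => abs_nonneg _)
      (Finset.mem_range.2 hN))
  have hf0 : 0 ≤ Real.log (c.factorial : ℝ) :=
    Real.log_nonneg (by exact_mod_cast Nat.succ_le_of_lt (Nat.factorial_pos c))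
  have hlc0 : 0 ≤ Real.log (c : ℝ) := Real.log_nonneg hcR
  obtain ⟨B, hB⟩ : ∃ B : ℝ, B = |Vmx c d C| + Real.log c.factorial +
    |c * Real.log (Ks c d s)| + 1 + 2 * Real.log c + |Real.log (c ^ 2 * (d + 2))| +
    |c * Real.log ((d + 2) * C)| + W := ⟨_, rfl⟩
  have b1 := abs_nonneg (Vmx c d C)
  have b2 := abs_nonneg (c * Real.log (Ks c d s))
  have b3 := abs_nonneg (Real.log ((c : ℝ) ^ 2 * (d + 2)))
  have b4 := abs_nonneg (c * Real.log (((d : ℝ) + 2) * C))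
  have b5 := le_abs_self (c * Real.log (Ks c d s))
  have b6 := le_abs_self (Real.log ((c : ℝ) ^ 2 * (d + 2)))
  have b7 := le_abs_self (c * Real.log (((d : ℝ) + 2) * C))
  obtain ⟨X0, hX0⟩ := ex_lin (a := n.α * Real.log 2) (b := B) (mul_pos n.α0 hL2)
  refine ⟨max X0 1, fun Ω _ p P Mt ph Gd X hX hl hOk hCh => ?_⟩
  have hX1 : 1 ≤ X := (le_max_right _ _).trans hX
  have hXR : (1 : ℝ) ≤ X := by exact_mod_cast hX1
  have hBX : B ≤ n.α * (X * Real.log 2) := by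
    have h1 := hX0 X ((le_max_left _ _).trans hX)
    linarith
  have hY0 : 0 < X * Real.log 2 := mul_pos (by linarith) hL2
  by_contra hcon
  push Not at hcon
  -- comparison of the coefficients
  have hα0 := n.α0
  have hcγ0 : 0 < c * n.γ := mul_pos (by linarith) n.γ0
  have hcAδ : 0 ≤ (c : ℝ) * (A * n.δ) :=
    mul_nonneg (by linarith) (mul_nonneg (by positivity) n.δ0.le)
  have hδg : n.δ ≤ g / 32 := by linarith [n.L1]
  have k1 : n.α * (X * Real.log 2) ≤ c * (X * Real.log 2) :=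
    mul_le_mul_of_nonneg_right (n.α1.trans hcR) hY0.le
  have k2 : n.α * (X * Real.log 2) ≤ g / 8 * (X * Real.log 2) := by
    refine mul_le_mul_of_nonneg_right ?_ hY0.le
    linarith [n.αδ, n.δ0]
  have k3 : n.α * (X * Real.log 2) ≤ n.δ / 4 * (X * Real.log 2) :=
    mul_le_mul_of_nonneg_right n.αδ hY0.le
  have k4 : n.α * (X * Real.log 2) ≤ 1 * (X * Real.log 2) :=
    mul_le_mul_of_nonneg_right n.α1 hY0.le
  have k5 : g / 8 * (X * Real.log 2) ≤ g / 4 * (X * Real.log 2) := by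
    refine mul_le_mul_of_nonneg_right ?_ hY0.le
    linarith
  -- the pigeonhole
  obtain ⟨V, hV⟩ : ∃ V : ℕ → ℝ, V = fun m =>
    Vf d p (P m).L (P m).T (P m).e X (n.dl m) := ⟨_, rfl⟩
  have hV0 : V 0 ≤ c * Real.log (((d : ℝ) + 2) * C) := by
    have h1 : ∀ ω u i, |(P 0).e ω u i| ≤ C := (hOk 0 (Nat.zero_le _)).E_b
    have h2 := Vf_le hl (init (X := X) (d := d) (L := (P 0).L) (T := (P 0).T) hl hC1
      (n.dl0 0).le h1)
    rw [Ex_const hl.sum_one, lv_init hC1] at h2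
    rw [hV]
    exact h2
  have hVQ : -(c * (X * Real.log 2) + Real.log c.factorial) ≤ V n.Q := by
    have h1 : ∀ ω u i, |(P n.Q).e ω u i| ≤ C := (hOk n.Q le_rfl).E_b
    have h2 := Vf_ge hl (init (X := X) (d := d) (L := (P n.Q).L) (T := (P n.Q).T) hl hC1
      (n.dl0 n.Q).le h1)
    rw [hV]
    linarith
  have hQ : c * Real.log (((d : ℝ) + 2) * C) + (c * (X * Real.log 2) + Real.log c.factorial) <
      n.Q * (n.α * (X * Real.log 2)) := by
    have h1 := mul_le_mul_of_nonneg_right n.Qα hY0.le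
    have h2 : c * Real.log (((d : ℝ) + 2) * C) + Real.log c.factorial ≤ 1 * (X * Real.log 2) := by
      linarith
    linarith
  obtain ⟨m, hm, hVm⟩ := pig V hV0 hVQ hQ
  have hbig := hcon m hm
  have hM := n.MM m
  rw [hV] at hVm
  refine pair (P := P m) (P' := P (m + 1)) (A := A) (M := n.M m) (K := n.K) hc hl
    (hOk m hm.le) (hOk (m + 1) hm) (hCh m hm) hC1 hs hs1 hh1 hx hx₀ hg.symm hg0 n.γ0 n.γδ n.δ0
    n.L1 n.ϖ0 n.io0.le n.δ₂0.le hε0 n.m_eq n.m_ϖ n.K0 n.m_K n.α0 n.α1 n.αδ (n.dl0 m).le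
    (n.dlε m hm.le) (n.dl0 (m + 1)) n.κ0 n.κ1 n.cγ n.cκ (n.M0 m) hM hX1 ?_ ?_ ?_ ?_ ?_
    (n.N1 m hm) (n.N2 m hm) (fun r hr => n.N3 m hm r hr X) (fun r hr => ?_) hVm
    (hεε.trans_lt hbig)
  · linarith
  · linarith
  · linarith
  · linarith
  · linarith
  · have h1 := hWN _ (n.Nb1 m hm r hr)
    linarith

end Pool.TC35
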