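import Pool.Agent.H35.TC.Pai

/-!
# TC: the choice of the numbers
-/

set_option autoImplicit false

namespace Pool.TC35

open Finset Real

/-- The numbers. -/
structure Nums (c d A : ℕ) (g ε : ℝ) where
  Q : ℕ
  K : ℕ
  Nb : ℕ
  γ : ℝ
  δ : ℝ
  δ₂ : ℝ
  io : ℝ
  ϖ : ℝ
  m : ℝ
  α : ℝ
  κ : ℝ
  dl : ℕ → ℝ
  M : ℕ → ℕ
  γ0 : 0 < γ
  δ0 : 0 < δ
  δ₂0 : 0 < δ₂
  io0 : 0 < io
  ϖ0 : 0 < ϖ
  γδ : γ ≤ δ / 16
  L1 : c * γ + c * (A * δ) + δ ≤ g / 32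
  m_eq : m = ε / (4 * c)
  m_ϖ : 3 * c * (1 / m * ϖ) ≤ g / 16
  K0 : 0 < K
  m_K : 2 * c * (1 / m / K) ≤ g / 16
  α0 : 0 < α
  α1 : α ≤ 1
  αδ : α ≤ δ / 4
  κ0 : 0 < κ
  κ1 : κ ≤ 1
  cγ : 3 * c * γ ≤ α
  cκ : c * κ ≤ α
  Qα : c + 3 ≤ Q * α
  dl0 : ∀ n, 0 < dl n
  dlε : ∀ n ≤ Q, dl n ≤ ε / 4
  M0 : ∀ n, 0 < M n
  MM : ∀ n, 8 * c ^ 2 ≤ M n * (dl (n + 1) * κ * α)
  N1 : ∀ n < Q, ∀ r < M n, (6 * α + 2 * c * ((nr d r + 1) * ((d + 2) * dl n +
      (d + 2) ^ 2 * δ₂))) / (δ / 4) + (nr d r + 1) * ((d + 2) * dl n + (d + 2) ^ 2 * δ₂) ≤ ε / 8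
  N2 : ∀ n < Q, ∀ r < M n, ((nr d r : ℝ) + 1) ^ (d + 2) * δ₂ ≤ ε / 8
  N3 : ∀ n < Q, ∀ r < M n, ∀ X : ℕ, (((nr d r : ℝ) + 1) ^ (d + 2) * (io * X +
      ((nr d r + 1 : ℕ) : ℝ) * (io * X)) + (((nr d r + 1 : ℕ) : ℝ) + 1) * (io * X)) / m ≤
      g / 16 * (X * Real.log 2)
  Nb1 : ∀ n < Q, ∀ r < M n, nr d r < Nb

/-- The numbers exist. -/
theorem ex_nums (c d A : ℕ) (hc : 0 < c) {g ε : ℝ} (hg0 : 0 < g) (hg1 : g ≤ 1) (hε : 0 < ε)
    (hε1 : ε ≤ 1) : Nonempty (Nums c d A g ε) := by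
  have hcR : (1 : ℝ) ≤ c := by exact_mod_cast hc
  have hc0 : (0 : ℝ) < c := by linarith
  have hL2 : 0 < Real.log 2 := Real.log_pos (by norm_num)
  have hd0 : (0 : ℝ) ≤ d := by positivity
  obtain ⟨u, hu⟩ : ∃ u : ℝ, u = d + 2 := ⟨_, rfl⟩
  have hu0 : 0 < u := by rw [hu]; positivity
  have hu2 : 2 ≤ u := by rw [hu]; linarith
  obtain ⟨δ, hδ⟩ : ∃ δ : ℝ, δ = g / (64 * (c * (A + 1))) := ⟨_, rfl⟩
  have hδ0 : 0 < δ := by rw [hδ]; positivity
  have hcA : (1 : ℝ) ≤ c * (A + 1) := by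
    have : (0 : ℝ) ≤ A := by positivity
    nlinarith
  have hδc : c * (A + 1) * δ = g / 64 := by
    rw [hδ]
    field_simp
  have hδ1 : δ ≤ 1 := by
    have h1 : 1 * δ ≤ c * (A + 1) * δ := mul_le_mul_of_nonneg_right hcA hδ0.le
    linarith
  obtain ⟨α, hα⟩ : ∃ α : ℝ, α = ε * δ / 768 := ⟨_, rfl⟩
  have hα0 : 0 < α := by rw [hα]; positivity
  have hαδ : α ≤ δ / 768 := by
    rw [hα]
    have : ε * δ ≤ 1 * δ := mul_le_mul_of_nonneg_right hε1 hδ0.le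
    linarith
  obtain ⟨γ, hγ⟩ : ∃ γ : ℝ, γ = α / (16 * c) := ⟨_, rfl⟩
  have hγ0 : 0 < γ := by rw [hγ]; positivity
  have hcγ : c * γ = α / 16 := by
    rw [hγ]
    field_simp
  have hγα : γ ≤ α / 16 := by
    have : 1 * γ ≤ c * γ := mul_le_mul_of_nonneg_right hcR hγ0.le
    linarith
  obtain ⟨κ, hκ⟩ : ∃ κ : ℝ, κ = α / c := ⟨_, rfl⟩
  have hκ0 : 0 < κ := by rw [hκ]; positivity
  have hcκ : c * κ = α := by
    rw [hκ]
    field_simp
  have hκα : κ ≤ α := by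
    have : 1 * κ ≤ c * κ := mul_le_mul_of_nonneg_right hcR hκ0.le
    linarith
  obtain ⟨e, he⟩ : ∃ e : ℝ, e = ε * δ / (32 * (8 * c + 1)) := ⟨_, rfl⟩
  have he0 : 0 < e := by rw [he]; positivity
  have heδ : (8 * c + 1) * e = ε * δ / 32 := by
    rw [he]
    field_simp
  have heε : e ≤ ε / 32 := by
    have h1 : 1 * e ≤ (8 * c + 1) * e := mul_le_mul_of_nonneg_right (by linarith) he0.le
    have h2 : ε * δ ≤ ε * 1 := mul_le_mul_of_nonneg_left hδ1 hε.le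
    linarith
  obtain ⟨D, hD⟩ : ∃ D : ℝ, D = 1 + 32 * u ^ 3 * c ^ 2 / (κ * α * e) := ⟨_, rfl⟩
  have hD1 : 1 ≤ D := by
    rw [hD]
    have : 0 ≤ 32 * u ^ 3 * c ^ 2 / (κ * α * e) := by positivity
    linarith
  have hD0 : 0 < D := by linarith
  have hDb : 32 * u ^ 3 * c ^ 2 ≤ D * (κ * α * e) := by
    have h1 : 32 * u ^ 3 * c ^ 2 / (κ * α * e) ≤ D := by
      rw [hD]
      linarith
    rwa [div_le_iff₀ (by positivity)] at h1
  obtain ⟨Q, hQ⟩ : ∃ Q : ℕ, Q = ⌈((c : ℝ) + 3) / α⌉₊ := ⟨_, rfl⟩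
  obtain ⟨δ₀, hδ₀⟩ : ∃ δ₀ : ℝ, δ₀ = e / (8 * u ^ 3 * D ^ (Q + 1)) := ⟨_, rfl⟩
  have hδ₀0 : 0 < δ₀ := by rw [hδ₀]; positivity
  obtain ⟨dl, hdl⟩ : ∃ dl : ℕ → ℝ, dl = fun n => D ^ n * δ₀ := ⟨_, rfl⟩
  have hdl0 : ∀ n, 0 < dl n := fun n => by rw [hdl]; positivity
  have hdlS : ∀ n, dl (n + 1) = D * dl n := fun n => by
    rw [hdl]
    simp only
    ring
  have hdlδ : ∀ n, δ₀ ≤ dl n := fun n => by
    rw [hdl]
    have : (1 : ℝ) ≤ D ^ n := one_le_pow₀ hD1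
    simp only
    nlinarith
  have hdlu : ∀ n ≤ Q, 8 * u ^ 3 * dl n ≤ e := fun n hn => by
    have h1 : D ^ n ≤ D ^ (Q + 1) := pow_le_pow_right₀ hD1 (by omega)
    have h2 : 8 * u ^ 3 * (D ^ (Q + 1) * δ₀) = e := by
      rw [hδ₀]
      field_simp
    rw [hdl]
    simp only
    rw [← h2]
    refine mul_le_mul_of_nonneg_left ?_ (by positivity)
    exact mul_le_mul_of_nonneg_right h1 hδ₀0.le
  obtain ⟨a, ha⟩ : ∃ a : ℕ → ℝ, a = fun n => 8 * c ^ 2 / (dl (n + 1) * κ * α) := ⟨_, rfl⟩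
  have ha0 : ∀ n, 0 ≤ a n := fun n => by
    have := hdl0 (n + 1)
    rw [ha]
    positivity
  obtain ⟨M, hM⟩ : ∃ M : ℕ → ℕ, M = fun n => ⌈a n⌉₊ + 1 := ⟨_, rfl⟩
  have hMu : ∀ n, (M n : ℝ) ≤ a n + 2 := fun n => by
    have h1 := (Nat.ceil_lt_add_one (ha0 n)).le
    rw [hM]
    push_cast
    linarith
  have hMl : ∀ n, a n ≤ M n := fun n => by
    have h1 := Nat.le_ceil (a n)
    rw [hM]
    push_cast
    linarith
  obtain ⟨Nx, hNx⟩ : ∃ Nx : ℝ, Nx = u * (8 * c ^ 2 / (δ₀ * κ * α) + 2) := ⟨_, rfl⟩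
  have hNx1 : 1 ≤ Nx := by
    rw [hNx]
    have : 0 ≤ 8 * (c : ℝ) ^ 2 / (δ₀ * κ * α) := by positivity
    nlinarith
  have hNx0 : 0 < Nx := by linarith
  have haN : ∀ n, u * (a n + 2) ≤ Nx := fun n => by
    rw [hNx]
    refine mul_le_mul_of_nonneg_left ?_ hu0.le
    have h1 : a n ≤ 8 * c ^ 2 / (δ₀ * κ * α) := by
      rw [ha]
      simp only
      refine div_le_div_of_nonneg_left (by positivity) (by positivity) ?_
      refine mul_le_mul_of_nonneg_right ?_ hα0.le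
      exact mul_le_mul_of_nonneg_right (hdlδ _) hκ0.le
    linarith
  -- the number of samples
  have hnr : ∀ n, ∀ r < M n, (nr d r : ℝ) + 1 ≤ u * (a n + 2) := fun n r hr => by
    have h1 : ((r : ℝ) + 1) ≤ M n := by exact_mod_cast hr
    have h2 : (nr d r : ℝ) = r * u := by
      unfold nr
      rw [hu]
      push_cast
      ring
    have h3 : ((r : ℝ) + 1) * u ≤ (a n + 2) * u := mul_le_mul_of_nonneg_right (h1.trans (hMu n)) hu0.le
    rw [h2]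
    linarith
  have hnrN : ∀ n, ∀ r < M n, (nr d r : ℝ) + 1 ≤ Nx := fun n r hr => (hnr n r hr).trans (haN n)
  obtain ⟨δ₂, hδ₂⟩ : ∃ δ₂ : ℝ, δ₂ = min δ₀ (ε / (8 * Nx ^ (d + 2))) := ⟨_, rfl⟩
  have hδ₂0 : 0 < δ₂ := by
    rw [hδ₂]
    exact lt_min hδ₀0 (by positivity)
  have hδ₂δ : δ₂ ≤ δ₀ := by rw [hδ₂]; exact min_le_left _ _
  have hδ₂N : Nx ^ (d + 2) * δ₂ ≤ ε / 8 := by
    have h1 : δ₂ ≤ ε / (8 * Nx ^ (d + 2)) := by rw [hδ₂]; exact min_le_right _ _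
    rw [le_div_iff₀ (by positivity)] at h1
    linarith
  obtain ⟨m, hm⟩ : ∃ m : ℝ, m = ε / (4 * c) := ⟨_, rfl⟩
  have hm0 : 0 < m := by rw [hm]; positivity
  obtain ⟨io, hio⟩ : ∃ io : ℝ, io = g * m * Real.log 2 / (64 * Nx ^ (d + 3)) := ⟨_, rfl⟩
  have hio0 : 0 < io := by rw [hio]; positivity
  have hioN : 4 * Nx ^ (d + 3) * io = g * m * Real.log 2 / 16 := by
    rw [hio]
    field_simp
    ring
  obtain ⟨ϖ, hϖ⟩ : ∃ ϖ : ℝ, ϖ = m * g / (48 * c) := ⟨_, rfl⟩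
  have hϖ0 : 0 < ϖ := by rw [hϖ]; positivity
  obtain ⟨K, hK⟩ : ∃ K : ℕ, K = ⌈32 * c / (m * g)⌉₊ + 1 := ⟨_, rfl⟩
  have hKl : 32 * c / (m * g) ≤ K := by
    have h1 := Nat.le_ceil (32 * c / (m * g))
    rw [hK]
    push_cast
    linarith
  have hK0 : 0 < K := by rw [hK]; omega
  have hKR : (0 : ℝ) < K := by exact_mod_cast hK0
  obtain ⟨Nb, hNb⟩ : ∃ Nb : ℕ, Nb = ⌈Nx⌉₊ + 1 := ⟨_, rfl⟩
  refine ⟨{
    Q := Q, K := K, Nb := Nb, γ := γ, δ := δ, δ₂ := δ₂, io := io, ϖ := ϖ, m := m, α := α, κ := κ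
    dl := dl, M := M, γ0 := hγ0, δ0 := hδ0, δ₂0 := hδ₂0, io0 := hio0, ϖ0 := hϖ0
    γδ := by linarith
    L1 := ?_, m_eq := hm, m_ϖ := ?_, K0 := hK0, m_K := ?_, α0 := hα0
    α1 := by linarith
    αδ := by linarith
    κ0 := hκ0
    κ1 := by linarith
    cγ := ?_
    cκ := hcκ.le
    Qα := ?_
    dl0 := hdl0
    dlε := ?_
    M0 := fun n => by rw [hM]; exact Nat.succ_pos _
    MM := ?_, N1 := ?_, N2 := ?_, N3 := ?_, Nb1 := ?_ }⟩
  · have h1 : (c : ℝ) * (A + 1) * δ = c * (A * δ) + c * δ := by ring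
    have h2 : 1 * δ ≤ c * δ := mul_le_mul_of_nonneg_right hcR hδ0.le
    have h3 : 0 ≤ (c : ℝ) * (A * δ) := by positivity
    rw [hcγ]
    linarith
  · have h1 : 3 * (c : ℝ) * (1 / m * ϖ) = g / 16 := by
      rw [hϖ]
      field_simp
      ring
    exact h1.le
  · have h1 : 2 * (c : ℝ) * (1 / m / K) = 2 * c / (m * K) := by
      field_simp
    rw [h1, div_le_iff₀ (by positivity)]
    rw [div_le_iff₀ (by positivity)] at hKl
    linarith
  · have h1 : 3 * (c : ℝ) * γ = 3 * (c * γ) := by ring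
    rw [h1, hcγ]
    linarith
  · have h1 := Nat.le_ceil (((c : ℝ) + 3) / α)
    rw [← hQ, div_le_iff₀ hα0] at h1
    exact h1
  · intro n hn
    have h1 := hdlu n hn
    have h2 : (1 : ℝ) ≤ u ^ 3 := one_le_pow₀ (by linarith)
    have h3 := hdl0 n
    have h4 : 1 * dl n ≤ u ^ 3 * dl n := mul_le_mul_of_nonneg_right h2 h3.le
    linarith
  · intro n
    have h1 := hMl n
    have h2 := hdl0 (n + 1)
    rw [ha] at h1
    simp only at h1
    rwa [div_le_iff₀ (by positivity)] at h1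
  · intro n hn r hr
    have h1 := hnr n r hr
    have hdn := hdl0 n
    have hdn1 := hdl0 (n + 1)
    have e1 : ((d : ℝ) + 2) = u := hu.symm
    rw [e1]
    have h2 : u * dl n + u ^ 2 * δ₂ ≤ 2 * u ^ 2 * dl n := by
      have h3 : δ₂ ≤ dl n := hδ₂δ.trans (hdlδ n)
      have h4 : u ^ 2 * δ₂ ≤ u ^ 2 * dl n := mul_le_mul_of_nonneg_left h3 (by positivity)
      have h5 : u * dl n ≤ u ^ 2 * dl n := by
        refine mul_le_mul_of_nonneg_right ?_ hdn.le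
        nlinarith
      linarith
    have h6 : ((nr d r : ℝ) + 1) * (u * dl n + u ^ 2 * δ₂) ≤ e := by
      calc ((nr d r : ℝ) + 1) * (u * dl n + u ^ 2 * δ₂) ≤ u * (a n + 2) * (2 * u ^ 2 * dl n) :=
            mul_le_mul h1 h2 (by positivity) (by have := ha0 n; positivity)
        _ = 2 * u ^ 3 * (a n * dl n) + 4 * u ^ 3 * dl n := by ring
        _ ≤ e / 2 + e / 2 := by
            refine add_le_add ?_ ?_
            · have h7 : a n * dl n = 8 * c ^ 2 / (D * (κ * α)) := by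
                rw [ha]
                simp only
                rw [hdlS]
                field_simp
              rw [h7]
              have h8 : 2 * u ^ 3 * (8 * c ^ 2 / (D * (κ * α))) =
                  16 * u ^ 3 * c ^ 2 / (D * (κ * α)) := by ring
              rw [h8, div_le_iff₀ (by positivity)]
              linarith
            · have := hdlu n hn.le
              linarith
        _ = e := by ring
    obtain ⟨B, hB⟩ : ∃ B : ℝ, B = ((nr d r : ℝ) + 1) * (u * dl n + u ^ 2 * δ₂) := ⟨_, rfl⟩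
    rw [← hB] at h6 ⊢
    have h9 : (6 * α + 2 * c * B) / (δ / 4) ≤ (6 * α + 2 * c * e) / (δ / 4) := by
      refine div_le_div_of_nonneg_right ?_ (by positivity)
      have := mul_le_mul_of_nonneg_left h6 (show 0 ≤ 2 * (c : ℝ) by positivity)
      linarith
    have h10 : (6 * α + 2 * c * e) / (δ / 4) + e ≤ ε / 16 := by
      have h11 : (6 * α + 2 * c * e) / (δ / 4) = (24 * α + 8 * c * e) / δ := by
        field_simp
        ring
      have h12 : (24 * α + 8 * c * e) / δ + e ≤ (24 * α + 8 * c * e + e) / δ := by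
        rw [add_div (24 * α + 8 * c * e) e δ]
        have h13 : e ≤ e / δ := by
          rw [le_div_iff₀ hδ0]
          nlinarith
        linarith
      rw [h11]
      refine h12.trans ?_
      rw [div_le_iff₀ hδ0]
      have h14 : 24 * α = ε * δ / 32 := by
        rw [hα]
        ring
      linarith
    linarith
  · intro n hn r hr
    have h1 := hnrN n r hr
    have h2 : ((nr d r : ℝ) + 1) ^ (d + 2) ≤ Nx ^ (d + 2) := pow_le_pow_left₀ (by positivity) h1 _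
    exact (mul_le_mul_of_nonneg_right h2 hδ₂0.le).trans hδ₂N
  · intro n hn r hr X
    have h1 := hnrN n r hr
    have h2 : ((nr d r : ℝ) + 1) ^ (d + 2) ≤ Nx ^ (d + 2) := pow_le_pow_left₀ (by positivity) h1 _
    have h3 : Nx ^ (d + 2) ≤ Nx ^ (d + 3) := pow_le_pow_right₀ hNx1 (by omega)
    have h4 : Nx ≤ Nx ^ (d + 3) := by
      calc Nx = Nx ^ 1 := (pow_one _).symm
        _ ≤ Nx ^ (d + 3) := pow_le_pow_right₀ hNx1 (by omega)
    have h5 : Nx ^ (d + 3) = Nx ^ (d + 2) * Nx := pow_succ _ _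
    have h6 : ((nr d r : ℝ) + 1) ^ (d + 2) * ((nr d r : ℝ) + 1) ≤ Nx ^ (d + 3) := by
      rw [h5]
      exact mul_le_mul h2 h1 (by positivity) (by positivity)
    rw [div_le_iff₀ hm0]
    push_cast
    obtain ⟨v, hv⟩ : ∃ v : ℝ, v = (nr d r : ℝ) + 1 := ⟨_, rfl⟩
    rw [← hv] at h1 h2 h6 ⊢
    have hioX : 0 ≤ io * X := by positivity
    have h7 : v ^ (d + 2) * (io * X + v * (io * X)) + (v + 1) * (io * X) =
        (v ^ (d + 2) + v ^ (d + 2) * v + v + 1) * (io * X) := by ring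
    rw [h7]
    have h8 : (v ^ (d + 2) + v ^ (d + 2) * v + v + 1) * (io * X) ≤
        (4 * Nx ^ (d + 3)) * (io * X) := by
      refine mul_le_mul_of_nonneg_right ?_ hioX
      linarith
    have h9 : (4 * Nx ^ (d + 3)) * (io * X) = (g * m * Real.log 2 / 16) * X := by
      rw [← hioN]
      ring
    linarith
  · intro n hn r hr
    have h1 := hnrN n r hr
    have h2 := Nat.le_ceil Nx
    have h3 : (nr d r : ℝ) < Nb := by
      rw [hNb]
      push_cast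
      linarith
    exact_mod_cast h3

end Pool.TC35
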