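import Pool.Agent.H35.TC.Sel

/-!
# TC: the last numbers
-/

set_option autoImplicit false

namespace Pool.TC35

open Finset Real

/-- `log (2 * 2 ^ (y X) + 1)`. -/
theorem log_two_add {y : ℝ} (hy : 0 ≤ y) (X : ℕ) :
    Real.log (2 * 2 ^ (y * X) + 1) ≤ Real.log 3 + y * (X * Real.log 2) := by
  have h1 : (1 : ℝ) ≤ 2 ^ (y * X) := Real.one_le_rpow (by norm_num) (by positivity)
  have h2 : (2 : ℝ) * 2 ^ (y * X) + 1 ≤ 3 * 2 ^ (y * X) := by linarith
  have h3 := Real.log_le_log (by positivity) h2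
  rwa [Real.log_mul (by norm_num) (by positivity), log_two_rpow] at h3

theorem Gb_le {c X : ℕ} {γ : ℝ} (hγ : 0 ≤ γ) (hγ1 : γ ≤ 1) :
    Gb c X γ ≤ c * Real.log 5 + 2 * c * (X * Real.log 2) := by
  unfold Gb
  have h1 : (1 : ℝ) ≤ 2 ^ (γ * X) := Real.one_le_rpow (by norm_num) (by positivity)
  have h2 : (1 : ℝ) ≤ 2 ^ X := one_le_pow₀ (by norm_num)
  have h3 : (1 : ℝ) ≤ 2 ^ (γ * X) * 2 ^ X := by nlinarith
  have h4 : (4 : ℝ) * (2 ^ (γ * X) * 2 ^ X) + 1 ≤ 5 * (2 ^ (γ * X) * 2 ^ X) := by linarith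
  have h5 := Real.log_le_log (by positivity) h4
  rw [Real.log_mul (by norm_num) (by positivity), Real.log_mul (by positivity) (by positivity),
    log_two_rpow, Real.log_pow] at h5
  have hY : 0 ≤ X * Real.log 2 := mul_nonneg (by positivity) (Real.log_nonneg (by norm_num))
  have h6 : γ * (X * Real.log 2) ≤ 1 * (X * Real.log 2) := mul_le_mul_of_nonneg_right hγ1 hY
  calc c * Real.log (4 * (2 ^ (γ * X) * 2 ^ X) + 1) ≤
        c * (Real.log 5 + (γ * (X * Real.log 2) + X * Real.log 2)) :=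
        mul_le_mul_of_nonneg_left h5 (by positivity)
    _ ≤ c * (Real.log 5 + 2 * (X * Real.log 2)) := by
        refine mul_le_mul_of_nonneg_left ?_ (by positivity)
        linarith
    _ = _ := by ring

/-- **The inequality of two places is false.** -/
theorem fin_num {c X A K : ℕ} (hc : 0 < c) {γ δ g h x x₁ m ϖ V1 V2 V3 I1 I2 : ℝ}
    (hγ : 0 ≤ γ) (hγ1 : γ ≤ 1) (hδ : 0 ≤ δ) (hm : 0 < m) (hx : 0 ≤ x)
    (hg : h - x - x₁ = 3 / 4 * g) (hg0 : 0 < g) (hL1 : c * γ + c * (A * δ) + δ ≤ g / 32)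
    (hϖ0 : 0 ≤ ϖ) (hϖ : 3 * c * (1 / m * ϖ) ≤ g / 16) (hK0 : 0 < K)
    (hK : 2 * c * (1 / m / K) ≤ g / 16) (hX : 1 ≤ X)
    (hI : (I1 + I2) / m ≤ g / 16 * (X * Real.log 2))
    (hB : (V1 + V2 + V3) / m + V2 + 2 * c * Real.log 3 + (1 / m / K + 1 / m * ϖ) *
      (c * Real.log 5) + Real.log (K + 1) ≤ g / 4 * (X * Real.log 2))
    (hineq : Real.log ((2 ^ (δ * X))⁻¹ * 2 ^ (-(x₁ * X))) + X * Real.log 2 -
      ((I1 + V1 + V2) + V3) / m - V2 ≤
      I2 / m + (c * Real.log (2 * 2 ^ (γ * X) + 1) + c * Real.log (2 * 2 ^ (A * δ * X) + 1)) +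
        ((c - h) * X * Real.log 2 + (1 / m / K + 1 / m * ϖ) * Gb c X γ + Real.log (K + 1) -
          (1 - 1 / m * ϖ) * max 0 ((c - 1 - x) * X * Real.log 2))) : False := by
  have hcR : (1 : ℝ) ≤ c := by exact_mod_cast hc
  have hL2 : 0 < Real.log 2 := Real.log_pos (by norm_num)
  have hXR : (1 : ℝ) ≤ X := by exact_mod_cast hX
  have hKR : (0 : ℝ) < K := by exact_mod_cast hK0
  have e1 : Real.log ((2 ^ (δ * X))⁻¹ * 2 ^ (-(x₁ * X))) =
      -(δ * (X * Real.log 2)) - x₁ * (X * Real.log 2) := by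
    rw [Real.log_mul (by positivity) (by positivity), Real.log_inv, log_two_rpow]
    have : -(x₁ * (X : ℝ)) = (-x₁) * X := by ring
    rw [this, log_two_rpow]
    ring
  have e2 := log_two_add hγ X
  have e3 := log_two_add (y := A * δ) (by positivity) X
  have e4 := Gb_le (c := c) (X := X) hγ hγ1
  rw [e1] at hineq
  obtain ⟨Y, hY⟩ : ∃ Y : ℝ, Y = X * Real.log 2 := ⟨_, rfl⟩
  have hY0 : 0 < Y := hY ▸ mul_pos (by linarith) hL2
  have e5 : (c - h) * X * Real.log 2 = (c - h) * Y := by rw [hY]; ring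
  have e6 : (c - 1 - x) * X * Real.log 2 = (c - 1 - x) * Y := by rw [hY]; ring
  rw [e5, e6] at hineq
  rw [← hY] at hineq hB hI e2 e3 e4
  obtain ⟨v, hv⟩ : ∃ v : ℝ, v = 1 / m * ϖ := ⟨_, rfl⟩
  obtain ⟨w, hw⟩ : ∃ w : ℝ, w = 1 / m / K := ⟨_, rfl⟩
  have hv0 : 0 ≤ v := by
    rw [hv]
    positivity
  have hw0 : 0 ≤ w := by
    rw [hw]
    positivity
  rw [← hv, ← hw] at hineq hB
  rw [← hv] at hϖ
  rw [← hw] at hK
  have hg1 : g ≤ 4 / 3 * (h - x - x₁) := by linarith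
  -- the maximum
  have hmax : (c - 1 - x) * Y - v * (c * Y) ≤ (1 - v) * max 0 ((c - 1 - x) * Y) := by
    have h1 : (c - 1 - x) * Y ≤ max 0 ((c - 1 - x) * Y) := le_max_right _ _
    have h2 : max 0 ((c - 1 - x) * Y) ≤ c * Y := by
      refine max_le (by positivity) ?_
      refine mul_le_mul_of_nonneg_right ?_ hY0.le
      linarith
    have h3 := mul_le_mul_of_nonneg_left h2 hv0
    linarith
  have h4 : (w + v) * Gb c X γ ≤ (w + v) * (c * Real.log 5) + (2 * c * w) * Y + 2 * (c * v) * Y := by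
    have := mul_le_mul_of_nonneg_left e4 (show 0 ≤ w + v by positivity)
    linarith
  have h5 : c * Real.log (2 * 2 ^ (γ * X) + 1) ≤ c * Real.log 3 + c * γ * Y := by
    have := mul_le_mul_of_nonneg_left e2 (show (0 : ℝ) ≤ c by positivity)
    linarith
  have h6 : c * Real.log (2 * 2 ^ (A * δ * X) + 1) ≤ c * Real.log 3 + c * (A * δ) * Y := by
    have := mul_le_mul_of_nonneg_left e3 (show (0 : ℝ) ≤ c by positivity)
    linarith
  have e7 : ((I1 + V1 + V2) + V3) / m = I1 / m + (V1 + V2 + V3) / m := by ring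
  have e8 : (I1 + I2) / m = I1 / m + I2 / m := by ring
  rw [e7] at hineq
  rw [e8] at hI
  have h7 : (h - x - x₁) * Y = 3 / 4 * g * Y := by rw [hg]
  have h8 : (c * γ + c * (A * δ) + δ) * Y ≤ g / 32 * Y := mul_le_mul_of_nonneg_right hL1 hY0.le
  have h9 : 3 * c * v * Y ≤ g / 16 * Y := mul_le_mul_of_nonneg_right hϖ hY0.le
  have h10 : 2 * c * w * Y ≤ g / 16 * Y := mul_le_mul_of_nonneg_right hK hY0.le
  have h11 : 0 < g * Y := mul_pos hg0 hY0
  linarith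

end Pool.TC35
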