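import Pool.Agent.H35.TC.Num

/-!
# TC: one pair of places, conclusion
-/

set_option autoImplicit false

namespace Pool.TC35

open Finset Real Matrix
open Pool.Agent.H49.Ent Pool.Agent.H32.Dense Pool.STK Pool.FAD Pool.POT Pool.SLO Pool.TQ
open Pool.TT37 (dd pb_mono pb_nonneg pb_union pb_or)
open Pool.BFL (Pb)

variable {c k d X A : ℕ} {Ω : Type} [Fintype Ω] {p : Ω → ℝ} {P P' : Pl Ω c k d}

/-- The constants of the inequality. -/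
noncomputable def Wc (c d K : ℕ) (K1 m ϖ : ℝ) (N : ℕ) : ℝ :=
  (CF c (c + 1) (c * max K1 1) ((N + 1) ^ (d + 2) - 1) + Cc c c + |Cc c (c + 1)|) / m + Cc c c +
    2 * c * Real.log 3 + (1 / m / K + 1 / m * ϖ) * (c * Real.log 5) + Real.log (K + 1)

/-- **One pair of places.** -/
theorem pair (hc : 0 < c) (hl : IsLaw p) {C K1 s γ δ δ₂ io η h x x₀ ϖ ε g m α δ'' δ₁ δ₁' : ℝ}
    {M K : ℕ} (hP : P.Ok p X C K1 s γ δ₂ io η h x ϖ) (hP' : P'.Ok p X C K1 s γ δ₂ io η h x ϖ)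
    {Mt : P'.B → Matrix (Fin c) (Fin c) ℝ} {ph : Fin k → ℝ} {Gd : (Fin (d + 2) → Ω) → Prop}
    (hch : Chn P P' Mt ph Gd p X A γ δ δ₂ h) (hC1 : 1 ≤ C) (hs : 0 < s) (hs1 : s ≤ 1)
    (hh1 : h ≤ 1) (hx : 0 ≤ x) (hx₀ : 0 < x₀) (hg : h - x - x₀ = g) (hg0 : 0 < g)
    (hγ : 0 < γ) (hγδ : γ ≤ δ / 16) (hδ : 0 < δ) (hL1 : c * γ + c * (A * δ) + δ ≤ g / 32)
    (hϖ0 : 0 < ϖ) (hη : 0 ≤ η) (hδ₂ : 0 ≤ δ₂) (hε : 0 < ε) (hm : m = ε / (4 * c))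
    (hϖ : 3 * c * (1 / m * ϖ) ≤ g / 16) (hK0 : 0 < K) (hK : 2 * c * (1 / m / K) ≤ g / 16)
    (hα : 0 < α) (hα1 : α ≤ 1) (hαδ : α ≤ δ / 4) (hδ1 : 0 ≤ δ₁) (hδ1ε : δ₁ ≤ ε / 4)
    (hδ' : 0 < δ₁') (hδ'' : 0 < δ'') (hδ''1 : δ'' ≤ 1) (hcγ : 3 * c * γ ≤ α)
    (hcδ : c * δ'' ≤ α) (hM0 : 0 < M) (hM : 8 * c ^ 2 ≤ M * (δ₁' * δ'' * α))
    (hX1 : 1 ≤ X) (hX2 : |Vmx c d C| + Real.log c.factorial ≤ c * (X * Real.log 2))
    (hX3 : c * Real.log (Ks c d s) + Real.log c.factorial + 1 ≤ α * (X * Real.log 2))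
    (hX4 : Real.log c.factorial ≤ α * (X * Real.log 2))
    (hX5 : 2 * Real.log c ≤ g / 8 * (X * Real.log 2))
    (hX6 : Real.log (c ^ 2 * (d + 2)) ≤ δ / 4 * (X * Real.log 2))
    (hN1 : ∀ r < M, (6 * α + 2 * c * ((nr d r + 1) * ((d + 2) * δ₁ + (d + 2) ^ 2 * δ₂))) /
      (δ / 4) + (nr d r + 1) * ((d + 2) * δ₁ + (d + 2) ^ 2 * δ₂) ≤ ε / 8)
    (hN2 : ∀ r < M, ((nr d r : ℝ) + 1) ^ (d + 2) * δ₂ ≤ ε / 8)
    (hN3 : ∀ r < M, (((nr d r : ℝ) + 1) ^ (d + 2) * (η * X + ((nr d r + 1 : ℕ) : ℝ) * (io * X)) +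
      (((nr d r + 1 : ℕ) : ℝ) + 1) * (io * X)) / m ≤ g / 16 * (X * Real.log 2))
    (hN4 : ∀ r < M, Wc c d K K1 m ϖ (nr d r) ≤ g / 4 * (X * Real.log 2))
    (hV : Vf d p P.L P.T P.e X δ₁ ≤ Vf d p P'.L P'.T P'.e X δ₁' + α * (X * Real.log 2))
    (hbig : ε < Pb (tup p P.L (d + 2)) (fun w => ∃ u i,
      2 ^ (-(x₀ * X)) < |dd d P.tau P.E u (fun j => P.th (w j.succ)) i|)) : False := by
  have hcR : (1 : ℝ) ≤ c := by exact_mod_cast hc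
  have hc0 : (0 : ℝ) < c := by linarith
  have hL2 : 0 < Real.log 2 := Real.log_pos (by norm_num)
  have hXR : (1 : ℝ) ≤ X := by exact_mod_cast hX1
  have hY0 : 0 < X * Real.log 2 := mul_pos (by linarith) hL2
  have hm0 : 0 < m := by
    rw [hm]
    positivity
  have hfp : (0 : ℝ) < c.factorial := by exact_mod_cast Nat.factorial_pos c
  have hcAδ : 0 ≤ (c : ℝ) * (A * δ) := by positivity
  have hcγ0 : 0 < c * γ := by positivity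
  obtain ⟨r, S, β, lm, hr, hS, hβ, hcont⟩ := sel hc hl hP hP' hch hC1 hs hs1 hγ.le hδ hα hα1 hδ1
    hδ' hδ'' hδ''1 hcγ hcδ hM0 hM hX1 hX2 hX3 hX4 hδ₂ hV
  have hlong := pl_long hc hl hS hbig
  have hcont' := hcont.trans (hN1 r hr)
  obtain ⟨x₁, hx₁⟩ : ∃ x₁ : ℝ, x₁ = x₀ + g / 4 := ⟨_, rfl⟩
  have hδg : δ ≤ g / 32 := by linarith
  have hKs1 : 1 ≤ Ks c d s := by
    unfold Ks
    have h1 : 0 ≤ ((d : ℝ) + 2) * (1 / s ^ (d + 2)) := by positivity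
    have h2 : 0 ≤ (c : ℝ) ^ 2 * (d + 2) := by positivity
    linarith
  have hD1 : (1 : ℝ) ≤ 2 ^ (γ * X) := Real.one_le_rpow (by norm_num) (by positivity)
  have hKc : 1 ≤ Ks c d s * (2 ^ (γ * X)) ^ 2 := by
    have h1 : (1 : ℝ) ≤ (2 ^ (γ * X)) ^ 2 := one_le_pow₀ hD1
    exact one_le_mul_of_one_le_of_one_le hKs1 h1
  have hFD : (c.factorial : ℝ) * Real.exp (δ / 4 * (X * Real.log 2)) ≤ 2 ^ (δ / 2 * X) := by
    rw [two_rpow]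
    have h1 : (c.factorial : ℝ) = Real.exp (Real.log c.factorial) := (Real.exp_log hfp).symm
    rw [h1, ← Real.exp_add]
    refine Real.exp_le_exp.2 ?_
    have h2 := mul_le_mul_of_nonneg_right hαδ hY0.le
    linarith
  have hDh1 : (1 : ℝ) ≤ 2 ^ (δ / 2 * X) := Real.one_le_rpow (by norm_num) (by positivity)
  have hγδY := mul_le_mul_of_nonneg_right hγδ hY0.le
  have hδgY := mul_le_mul_of_nonneg_right hδg hY0.le
  have hδY : 0 < δ * (X * Real.log 2) := mul_pos hδ hY0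
  have hgY : 0 < g * (X * Real.log 2) := mul_pos hg0 hY0
  have en : ∀ y : ℝ, (2 : ℝ) ^ (-(y * X)) = Real.exp (-(y * (X * Real.log 2))) := by
    intro y
    have h1 : -(y * (X : ℝ)) = (-y) * X := by ring
    rw [h1, two_rpow]
    congr 1
    ring
  have hℓ : c * (2 ^ (γ * X) * 2 ^ (-(x₁ * X))) ≤ (2 : ℝ) ^ (-(x₀ * X)) / c := by
    rw [le_div_iff₀ hc0, en, en, two_rpow]
    have h1 : (c : ℝ) * (Real.exp (γ * (X * Real.log 2)) * Real.exp (-(x₁ * (X * Real.log 2)))) *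
        c = Real.exp (2 * Real.log c + γ * (X * Real.log 2) - x₁ * (X * Real.log 2)) := by
      rw [Real.exp_sub, Real.exp_add, two_mul, Real.exp_add, Real.exp_log hc0, Real.exp_neg]
      field_simp
    rw [h1]
    refine Real.exp_le_exp.2 ?_
    rw [hx₁]
    linarith
  have hℓ1 : (2 : ℝ) ^ (-(h * X)) ≤ 2 ^ (-(x₁ * X)) := by
    refine Real.rpow_le_rpow_of_exponent_le (by norm_num) ?_
    have h1 : x₁ ≤ h := by
      rw [hx₁]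
      linarith
    have := mul_le_mul_of_nonneg_right h1 (show (0 : ℝ) ≤ X by positivity)
    linarith
  have hn1 : (2 : ℝ) ^ (δ / 2 * X) * 2 ^ (γ * X) ≤ 2 ^ (δ * X) := by
    rw [two_rpow, two_rpow, two_rpow, ← Real.exp_add]
    refine Real.exp_le_exp.2 ?_
    linarith
  have hn2 : c * (2 ^ (γ * X) * (c * (2 ^ (δ / 2 * X) * ((d + 2) * 2 ^ (γ * X))))) ≤
      (2 : ℝ) ^ (δ * X) := by
    have h1 : c * (2 ^ (γ * X) * (c * (2 ^ (δ / 2 * X) * ((d + 2) * 2 ^ (γ * X))))) =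
        ((c : ℝ) ^ 2 * (d + 2)) * (2 ^ (γ * X) * (2 ^ (γ * X) * 2 ^ (δ / 2 * X))) := by ring
    have h2 : ((c : ℝ) ^ 2 * (d + 2)) = Real.exp (Real.log (c ^ 2 * (d + 2))) :=
      (Real.exp_log (by positivity)).symm
    rw [h1, h2, two_rpow, two_rpow, two_rpow, ← Real.exp_add, ← Real.exp_add, ← Real.exp_add]
    refine Real.exp_le_exp.2 ?_
    linarith
  have hn3 : ((2 : ℝ) ^ X)⁻¹ ≤ (2 ^ (δ * X))⁻¹ * 2 ^ (-(x₁ * X)) := by
    have h1 : ((2 : ℝ) ^ X)⁻¹ = Real.exp (-(1 * (X * Real.log 2))) := by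
      rw [Real.exp_neg, ← two_rpow, one_mul, Real.rpow_natCast]
    rw [h1, en, two_rpow, ← Real.exp_neg, ← Real.exp_add]
    refine Real.exp_le_exp.2 ?_
    have h2 : δ + x₁ ≤ 1 := by
      rw [hx₁]
      linarith
    have := mul_le_mul_of_nonneg_right h2 hY0.le
    linarith
  have hmass : m * c < (ε - δ₁) - ε / 8 - ((nr d r : ℝ) + 1) ^ (d + 2) * δ₂ := by
    have h1 : m * c = ε / 4 := by
      rw [hm]
      field_simp
    have h2 := hN2 r hr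
    rw [h1]
    linarith
  have hineq := two_places hc hl hP' hch hh1 hϖ0 hγ.le hδ.le hη hδ₂ hβ hKc hFD hDh1 hcont' hlong
    hℓ hℓ1 hn1 hn2 hn3 hm0 hmass hK0
  have hW := hN4 r hr
  unfold Wc at hW
  refine fin_num (c := c) (X := X) (A := A) (K := K) (γ := γ) (δ := δ) (g := g) (h := h) (x := x)
    (x₁ := x₁) (m := m) (ϖ := ϖ)
    (V1 := CF c (c + 1) (c * max K1 1) ((nr d r + 1) ^ (d + 2) - 1)) (V2 := Cc c c)
    (V3 := |Cc c (c + 1)|)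
    (I1 := ((nr d r : ℝ) + 1) ^ (d + 2) * (η * X + ((nr d r + 1 : ℕ) : ℝ) * (io * X)))
    (I2 := (((nr d r + 1 : ℕ) : ℝ) + 1) * (io * X)) hc hγ.le ?_ hδ.le hm0 hx ?_ hg0 hL1 hϖ0.le hϖ
    hK0 hK hX1 (hN3 r hr) hW hineq
  · linarith
  · rw [hx₁]
    linarith

end Pool.TC35
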