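import Pool.Agent.H35.TC.Rnd

/-!
# TC: sampled bodies

`fam`: the `(d + 2)`-point vectors of `N` samples. `Wv`: the mean volume of their body. `Wv_step`:
new vectors outside the body increase it. `sat`: for one of the numbers of samples almost no new
vectors are outside the body. `vf_le`: so the smallest volume is at most the mean volume.
-/

set_option autoImplicit false

namespace Pool.TC35

open Finset Real Matrix
open Pool.Agent.H49.Ent Pool.Agent.H32.Dense Pool.STK Pool.FAD Pool.POT Pool.SLO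
open Pool.BFL (Pb)
open Pool.TT37 (dd pb_mono pb_nonneg pb_ex)

variable {c k d : ℕ}

/-- The `(d + 2)`-point vectors of `N` samples. -/
noncomputable def fam (d : ℕ) {S : Type} (tau : S → ℤ) (E : S → Fin k → Fin c → ℝ) {N : ℕ}
    (t : Fin N → S) (q : (Fin (d + 2) → Fin N) × Fin k) : Fin c → ℝ :=
  dd d tau E q.2 fun j => t (q.1 j)

theorem fam_bd {S : Type} {tau : S → ℤ} {E : S → Fin k → Fin c → ℝ} {N : ℕ} (t : Fin N → S)
    {C : ℝ} (hC : ∀ j u i, |E (t j) u i| ≤ C) (q : (Fin (d + 2) → Fin N) × Fin k) (i : Fin c) :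
    |fam d tau E t q i| ≤ (d + 2) * C :=
  dd_bd tau E q.2 (fun j => t (q.1 j)) i fun j => hC (q.1 j) q.2 i

variable {Ω Λ : Type} [Fintype Ω] {p : Ω → ℝ} {L : Ω → Λ} {T : Ω → ℤ}
  {e : Ω → Fin k → Fin c → ℝ} {X : ℕ}

/-- The mean volume. -/
noncomputable def Wv (d : ℕ) (p : Ω → ℝ) (L : Ω → Λ) (T : Ω → ℤ) (e : Ω → Fin k → Fin c → ℝ)
    (X N : ℕ) : ℝ :=
  Ex (tup p L N) fun w => lv (bm X (fam d T e w))

/-- Upper bound of the volumes. -/
noncomputable def Vmx (c d : ℕ) (C : ℝ) : ℝ := Real.log (c.factorial * ((d + 2) * C) ^ c)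

theorem lv_bm_le {S : Type} {tau : S → ℤ} {E : S → Fin k → Fin c → ℝ} {N : ℕ} (t : Fin N → S)
    {C : ℝ} (hC1 : 1 ≤ C) (hC : ∀ j u i, |E (t j) u i| ≤ C) :
    lv (bm X (fam d tau E t)) ≤ Vmx c d C := by
  refine lv_le bm_det (bm_ent ?_ fun q i => fam_bd t hC q i)
  have : (0 : ℝ) ≤ d := by positivity
  nlinarith

theorem lv_bm_ge {κ : Type} [Finite κ] (V : κ → Fin c → ℝ) :
    -(c * (X * Real.log 2)) ≤ lv (bm X V) := by
  have h1 := bm_max (X := X) (V := V) (fun b => .inr b)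
  rw [mat_axes] at h1
  have h2 : lv (Tx c X) ≤ lv (bm X V) := Real.log_le_log (abs_pos.2 (Tx_det c X)) h1
  rwa [lv_Tx] at h2

theorem Wv_le (hl : IsLaw p) {C : ℝ} (hC1 : 1 ≤ C) (hE : ∀ ω u i, |e ω u i| ≤ C) (N : ℕ) :
    Wv d p L T e X N ≤ Vmx c d C := by
  have q0 := tup_isLaw hl L N
  rw [← Ex_const q0.sum_one (Vmx c d C)]
  exact Ex_mono q0.nonneg fun w _ => lv_bm_le w hC1 fun j => hE (w j)

theorem Wv_ge (hl : IsLaw p) (N : ℕ) : -(c * (X * Real.log 2)) ≤ Wv d p L T e X N := by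
  have q0 := tup_isLaw hl L N
  rw [← Ex_const q0.sum_one (-(c * (X * Real.log 2)))]
  exact Ex_mono q0.nonneg fun w _ => lv_bm_ge _

/-- The new vectors `v` are not in the body of the samples `u`, enlarged. -/
def Out (d : ℕ) (T : Ω → ℤ) (e : Ω → Fin k → Fin c → ℝ) (X : ℕ) (κ : ℝ) {N : ℕ}
    (v : Fin (d + 2) → Ω) (u : Fin (N + 1) → Ω) : Prop :=
  ∃ a i, κ < |((bm X (fam d T e u))⁻¹ *ᵥ dd d T e a v) i|

open Classical in
/-- New vectors outside the body increase the volume. -/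
theorem Wv_step (hl : IsLaw p) (N : ℕ) {κ : ℝ} (hκ : 1 ≤ κ) :
    Wv d p L T e X N + Real.log κ * Pb (tup p L (d + 1 + 1 + N)) (fun w =>
      Out d T e X κ (fun i => w (Fin.castAdd (N + 1) i)) (fun j => w (Fin.natAdd (d + 2) j))) ≤
      Wv d p L T e X (d + 1 + 1 + N) := by
  have q0 := tup_isLaw hl L (d + 1 + 1 + N)
  have hκ0 : 0 < κ := by linarith
  have hinj : Function.Injective (fun j : Fin (N + 1) => (Fin.natAdd (d + 2) j :
      Fin (d + 2 + (N + 1)))) := fun a b h => (Fin.natAdd_inj _).1 h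
  have m1 := (tup_sub hl.nonneg L (M := N) (N := d + 1 + 1 + N)
    (fun j : Fin (N + 1) => (Fin.natAdd (d + 2) j : Fin (d + 2 + (N + 1)))) hinj).ex
      (fun u => lv (bm X (fam d T e u)))
  have e1 : Wv d p L T e X N = Ex (tup p L (d + 1 + 1 + N)) (fun w =>
      lv (bm X (fam d T e (fun j : Fin (N + 1) => w (Fin.natAdd (d + 2) j))))) := m1.symm
  rw [e1, pb_ex]
  have e2 : Real.log κ * Ex (tup p L (d + 1 + 1 + N)) (fun w =>
      if Out d T e X κ (fun i => w (Fin.castAdd (N + 1) i)) (fun j => w (Fin.natAdd (d + 2) j))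
      then (1 : ℝ) else 0) = Ex (tup p L (d + 1 + 1 + N)) (fun w => Real.log κ *
      if Out d T e X κ (fun i => w (Fin.castAdd (N + 1) i)) (fun j => w (Fin.natAdd (d + 2) j))
      then (1 : ℝ) else 0) := by
    unfold Ex
    rw [Finset.mul_sum]
    refine Finset.sum_congr rfl fun w _ => ?_
    ring
  rw [e2, ← Ex_add]
  unfold Wv
  refine Ex_mono q0.nonneg fun w _ => ?_
  have hι : ∀ q : (Fin (d + 2) → Fin (N + 1)) × Fin k,
      fam d T e w ((fun j => (Fin.natAdd (d + 2) (q.1 j) : Fin (d + 2 + (N + 1)))), q.2) =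
      fam d T e (fun j : Fin (N + 1) => w (Fin.natAdd (d + 2) j)) q := fun q => rfl
  have hb := abs_pos.2 (bm_det (X := X)
    (V := fam d T e (fun j : Fin (N + 1) => w (Fin.natAdd (d + 2) j))))
  split_ifs with h
  · obtain ⟨a, i, h⟩ := h
    have h1 := bm_step (X := X) (V := fam d T e (fun j : Fin (N + 1) => w (Fin.natAdd (d + 2) j)))
      (V' := fam d T e w) _ hι
      (.inl ((fun j => (Fin.castAdd (N + 1) j : Fin (d + 2 + (N + 1)))), a)) i
    have h2 : fx X (fam d T e w) (.inl ((fun j => (Fin.castAdd (N + 1) j :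
        Fin (d + 2 + (N + 1)))), a)) = dd d T e a (fun i => w (Fin.castAdd (N + 1) i)) := rfl
    rw [h2] at h1
    rw [mul_one]
    unfold lv
    rw [← Real.log_mul hb.ne' hκ0.ne']
    refine Real.log_le_log (mul_pos hb hκ0) ?_
    rw [mul_comm]
    exact (mul_le_mul_of_nonneg_right h.le hb.le).trans h1
  · rw [mul_zero, add_zero]
    exact Real.log_le_log hb (bm_le_bm _ hι)

/-- The number of samples after `r` rounds. -/
def nr (d r : ℕ) : ℕ := r * (d + 2)

theorem nr_succ (d r : ℕ) : nr d (r + 1) = d + 1 + 1 + nr d r := by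
  unfold nr
  ring

/-- **Saturation.** -/
theorem sat (hl : IsLaw p) {C : ℝ} (hC1 : 1 ≤ C) (hE : ∀ ω u i, |e ω u i| ≤ C) {κ : ℝ}
    (hκ : 1 ≤ κ) {M : ℕ} (hM : 0 < M) : ∃ r < M,
      Real.log κ * Pb (tup p L (d + 1 + 1 + nr d r)) (fun w =>
        Out d T e X κ (fun i => w (Fin.castAdd (nr d r + 1) i))
          (fun j => w (Fin.natAdd (d + 2) j))) ≤ (Vmx c d C + c * (X * Real.log 2)) / M := by
  by_contra hcon
  push Not at hcon
  have hMR : (0 : ℝ) < M := by exact_mod_cast hM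
  have h1 : ∀ r < M, (Vmx c d C + c * (X * Real.log 2)) / M <
      Wv d p L T e X (nr d (r + 1)) - Wv d p L T e X (nr d r) := by
    intro r hr
    have h2 := Wv_step (d := d) (L := L) (T := T) (e := e) (X := X) hl (nr d r) hκ
    have h3 := hcon r hr
    rw [nr_succ]
    linarith
  have h4 : ∑ r ∈ range M, (Vmx c d C + c * (X * Real.log 2)) / M <
      ∑ r ∈ range M, (Wv d p L T e X (nr d (r + 1)) - Wv d p L T e X (nr d r)) :=
    Finset.sum_lt_sum_of_nonempty ⟨0, Finset.mem_range.2 hM⟩ fun r hr =>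
      h1 r (Finset.mem_range.1 hr)
  rw [Finset.sum_range_sub (fun r => Wv d p L T e X (nr d r)), Finset.sum_const, Finset.card_range, nsmul_eq_mul,
    mul_div_cancel₀ _ hMR.ne'] at h4
  have h5 := Wv_le (d := d) (L := L) (T := T) (X := X) hl hC1 hE (nr d M)
  have h6 := Wv_ge (d := d) (L := L) (T := T) (e := e) (X := X) hl (nr d 0)
  linarith

open Classical in
/-- **The smallest volume and the mean volume.** -/
theorem vf_le (hl : IsLaw p) {C : ℝ} (hC1 : 1 ≤ C) (hE : ∀ ω u i, |e ω u i| ≤ C) {κ : ℝ}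
    (hκ : 1 ≤ κ) (hκX : κ ≤ 2 ^ X) (N : ℕ) {β δ : ℝ} (hβδ : β ≤ δ / 2) (hδ : 0 < δ)
    (hβ : Pb (tup p L (d + 1 + 1 + N)) (fun w =>
      Out d T e X κ (fun i => w (Fin.castAdd (N + 1) i)) (fun j => w (Fin.natAdd (d + 2) j))) ≤
        β) (hVm : 0 < Vmx c d C + c * (X * Real.log 2)) :
    Vf d p L T e X δ ≤ Wv d p L T e X N + c * Real.log κ +
      (Vmx c d C + c * (X * Real.log 2)) * (2 / δ) * β := by
  have h0 := hl.nonneg
  have hκ0 : 0 < κ := by linarith
  obtain ⟨Λ0, hΛ0⟩ : ∃ Λ0 : ℝ, Λ0 = Vmx c d C + c * (X * Real.log 2) := ⟨_, rfl⟩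
  rw [← hΛ0] at hVm ⊢
  obtain ⟨lm, hlm⟩ : ∃ lm : ℝ, lm = Λ0 * (2 / δ) := ⟨_, rfl⟩
  have hlm0 : 0 < lm := by
    rw [hlm]
    positivity
  obtain ⟨G, hG⟩ : ∃ G : (Fin (d + 1 + 1) → Ω) → (Fin (N + 1) → Ω) → ℝ, G = fun v u =>
    lv (bm X (fam d T e u)) + lm * (if Out d T e X κ v u then (1 : ℝ) else 0) := ⟨_, rfl⟩
  obtain ⟨f, hf1, hf2⟩ := fix_r hl L (d + 1) N G
  obtain ⟨S, hS⟩ : ∃ S : Λ → Matrix (Fin c) (Fin c) ℝ, S = fun z => κ • bm X (fam d T e (f z)) :=
    ⟨_, rfl⟩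
  have hSd : ∀ z, (S z).det ≠ 0 := fun z => by
    rw [hS]
    simp only
    rw [Matrix.det_smul]
    exact mul_ne_zero (pow_ne_zero _ hκ0.ne') bm_det
  have hSi : ∀ z, (S z)⁻¹ = κ⁻¹ • (bm X (fam d T e (f z)))⁻¹ := by
    intro z
    rw [hS]
    refine Matrix.inv_eq_left_inv ?_
    simp only
    rw [Matrix.smul_mul, Matrix.mul_smul, smul_smul, inv_mul_cancel₀ hκ0.ne', one_smul,
      Matrix.nonsing_inv_mul _ (isUnit_iff_ne_zero.2 bm_det)]
  have q1 := tup_isLaw hl L (d + 1)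
  have q2 := tup_isLaw hl L (d + 1 + 1 + N)
  -- the left side
  have e1 : Ex (tup p L (d + 1)) (fun v => G v (f (L (v 0)))) =
      Ex p (fun ω => lv (bm X (fam d T e (f (L ω))))) +
        lm * Pb (tup p L (d + 1)) (fun v => Out d T e X κ v (f (L (v 0)))) := by
    rw [hG]
    simp only
    rw [Ex_add]
    congr 1
    · exact (tup_marg h0 L (d + 1) 0).ex (fun ω => lv (bm X (fam d T e (f (L ω)))))
    · rw [pb_ex]
      unfold Ex
      rw [Finset.mul_sum]
      refine Finset.sum_congr rfl fun w _ => ?_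
      ring
  have e2 : Ex (tup p L (d + 1 + 1 + N)) (fun w => G (fun i => w (Fin.castAdd (N + 1) i))
      (fun j => w (Fin.natAdd (d + 1 + 1) j))) ≤ Wv d p L T e X N + lm * β := by
    rw [hG]
    simp only
    rw [Ex_add]
    have hinj : Function.Injective (fun j : Fin (N + 1) => (Fin.natAdd (d + 2) j :
        Fin (d + 2 + (N + 1)))) := fun a b h => (Fin.natAdd_inj _).1 h
    have m1 := (tup_sub h0 L (M := N) (N := d + 1 + 1 + N)
      (fun j : Fin (N + 1) => (Fin.natAdd (d + 2) j : Fin (d + 2 + (N + 1)))) hinj).ex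
        (fun u => lv (bm X (fam d T e u)))
    refine add_le_add m1.le ?_
    have e3 : Ex (tup p L (d + 1 + 1 + N)) (fun w => lm *
        if Out d T e X κ (fun i => w (Fin.castAdd (N + 1) i))
          (fun j => w (Fin.natAdd (d + 1 + 1) j)) then (1 : ℝ) else 0) =
        lm * Pb (tup p L (d + 1 + 1 + N)) (fun w =>
          Out d T e X κ (fun i => w (Fin.castAdd (N + 1) i))
            (fun j => w (Fin.natAdd (d + 2) j))) := by
      rw [pb_ex]
      unfold Ex
      rw [Finset.mul_sum]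
      refine Finset.sum_congr rfl fun w _ => ?_
      ring
    rw [e3]
    exact mul_le_mul_of_nonneg_left hβ hlm0.le
  rw [e1] at hf2
  have hf3 := hf2.trans e2
  -- the bounds
  have b1 : -(c * (X * Real.log 2)) ≤ Ex p (fun ω => lv (bm X (fam d T e (f (L ω))))) := by
    rw [← Ex_const hl.sum_one (-(c * (X * Real.log 2)))]
    exact Ex_mono h0 fun ω _ => lv_bm_ge _
  have b2 := Wv_le (d := d) (L := L) (T := T) (X := X) hl hC1 hE N
  have b3 := pb_nonneg q1.nonneg (fun v => Out d T e X κ v (f (L (v 0))))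
  have b4 : Pb (tup p L (d + 1)) (fun v => Out d T e X κ v (f (L (v 0)))) ≤ δ := by
    have h1 : lm * Pb (tup p L (d + 1)) (fun v => Out d T e X κ v (f (L (v 0)))) ≤
        Λ0 + lm * β := by
      rw [hΛ0]
      linarith
    have h2 : lm * (δ / 2) = Λ0 := by
      rw [hlm]
      field_simp
    have h3 : lm * Pb (tup p L (d + 1)) (fun v => Out d T e X κ v (f (L (v 0)))) ≤ lm * δ := by
      have : lm * β ≤ lm * (δ / 2) := mul_le_mul_of_nonneg_left hβδ hlm0.le
      linarith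
    exact le_of_mul_le_mul_left h3 hlm0
  have b5 : Ex p (fun ω => lv (bm X (fam d T e (f (L ω))))) ≤ Wv d p L T e X N + lm * β := by
    have : 0 ≤ lm * Pb (tup p L (d + 1)) (fun v => Out d T e X κ v (f (L (v 0)))) :=
      mul_nonneg hlm0.le b3
    linarith
  have hadm : Adm d p L T e X δ S := by
    refine ⟨hSd, fun z i j => ?_, ?_⟩
    · rw [hSi, Matrix.smul_apply, smul_eq_mul, abs_mul, abs_of_pos (inv_pos.2 hκ0)]
      calc κ⁻¹ * |(bm X (fam d T e (f z)))⁻¹ i j| ≤ 1 * 2 ^ X :=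
            mul_le_mul (inv_le_one_of_one_le₀ hκ) (bm_inv i j) (abs_nonneg _) zero_le_one
        _ = 2 ^ X := one_mul _
    · refine (pb_mono q1.nonneg fun v _ hv => ?_).trans b4
      obtain ⟨a, i, hv⟩ := hv
      refine ⟨a, i, ?_⟩
      rw [hSi, Matrix.smul_mulVec, Pi.smul_apply, smul_eq_mul, abs_mul,
        abs_of_pos (inv_pos.2 hκ0), ← div_eq_inv_mul, lt_div_iff₀ hκ0, one_mul] at hv
      exact hv
  have h9 := Vf_le hl hadm
  have e5 : Ex p (fun ω => lv (S (L ω))) = c * Real.log κ +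
      Ex p (fun ω => lv (bm X (fam d T e (f (L ω))))) := by
    rw [← Ex_const hl.sum_one (c * Real.log κ), ← Ex_add]
    congr 1
    funext ω
    rw [hS]
    simp only
    unfold lv
    rw [Matrix.det_smul, abs_mul, Real.log_mul (abs_ne_zero.2 (pow_ne_zero _ hκ0.ne'))
      (abs_ne_zero.2 bm_det), abs_pow, abs_of_pos hκ0, Real.log_pow, Fintype.card_fin]
  rw [e5] at h9
  rw [← hlm]
  linarith

end Pool.TC35
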