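import Pool.Agent.H35.TC.Fnl

/-!
# TC: one pair of places

`Pl.T`, `Pl.e`: time and slopes of the points. `init`: a body which is always admissible. `pl_long`:
if the vectors are not small then the bodies are long. `sel`: if the smallest volume does not
decrease, then the bodies of the line before are contained in the sampled bodies.
-/

set_option autoImplicit false

namespace Pool.TC35

open Finset Real Matrix
open Pool.Agent.H49.Ent Pool.Agent.H32.Dense Pool.STK Pool.FAD Pool.POT Pool.SLO Pool.TQ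
open Pool.TT37 (dd pb_mono pb_nonneg pb_union pb_or)
open Pool.BFL (Pb)

variable {c k d X A : ℕ} {Ω : Type}

/-- The time. -/
def Pl.T (P : Pl Ω c k d) (ω : Ω) : ℤ := P.tau (P.th ω)

/-- The slopes. -/
def Pl.e (P : Pl Ω c k d) (ω : Ω) : Fin k → Fin c → ℝ := P.E (P.th ω)

variable [Fintype Ω] {p : Ω → ℝ} {P P' : Pl Ω c k d}

/-- A body which is always admissible. -/
theorem init (hl : IsLaw p) {C δ : ℝ} (hC1 : 1 ≤ C) (hδ : 0 ≤ δ) {Λ : Type} {L : Ω → Λ}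
    {T : Ω → ℤ} {e : Ω → Fin k → Fin c → ℝ} (hE : ∀ ω u i, |e ω u i| ≤ C) :
    Adm d p L T e X δ (fun _ => ((d + 2 : ℝ) * C) • (1 : Matrix (Fin c) (Fin c) ℝ)) := by
  have hd : (0 : ℝ) ≤ d := by positivity
  have hK : 1 ≤ ((d : ℝ) + 2) * C := by nlinarith
  have hK0 : 0 < ((d : ℝ) + 2) * C := by linarith
  have hinv : (((d + 2 : ℝ) * C) • (1 : Matrix (Fin c) (Fin c) ℝ))⁻¹ =
      ((d + 2 : ℝ) * C)⁻¹ • (1 : Matrix (Fin c) (Fin c) ℝ) := by
    refine Matrix.inv_eq_left_inv ?_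
    rw [Matrix.smul_mul, Matrix.mul_smul, smul_smul, inv_mul_cancel₀ hK0.ne', one_smul,
      Matrix.one_mul]
  refine ⟨fun z => ?_, fun z i j => ?_, ?_⟩
  · rw [Matrix.det_smul, Matrix.det_one, mul_one]
    exact pow_ne_zero _ hK0.ne'
  · rw [hinv, Matrix.smul_apply, smul_eq_mul, abs_mul, abs_of_pos (inv_pos.2 hK0),
      Matrix.one_apply]
    have h2 : (1 : ℝ) ≤ 2 ^ X := one_le_pow₀ (by norm_num)
    have h3 : ((d + 2 : ℝ) * C)⁻¹ ≤ 1 := inv_le_one_of_one_le₀ hK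
    have h4 : 0 < ((d + 2 : ℝ) * C)⁻¹ := inv_pos.2 hK0
    split_ifs
    · rw [abs_one, mul_one]
      linarith
    · rw [abs_zero, mul_zero]
      linarith
  · have q1 := tup_isLaw hl L (d + 1)
    have h1 : Pb (tup p L (d + 1)) (Bd L T e (fun _ => ((d + 2 : ℝ) * C) •
        (1 : Matrix (Fin c) (Fin c) ℝ))) ≤ Pb (tup p L (d + 1)) (fun _ => False) := by
      refine pb_mono q1.nonneg fun w _ hb => ?_
      obtain ⟨u, i, hb⟩ := hb
      rw [hinv, Matrix.smul_mulVec, Pi.smul_apply, smul_eq_mul, abs_mul,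
        abs_of_pos (inv_pos.2 hK0), Matrix.one_mulVec] at hb
      have h2 := dd_bd T e u w i (fun j => hE (w j) u i)
      have h3 : ((d + 2 : ℝ) * C)⁻¹ * |dd d T e u w i| ≤ 1 := by
        rw [← div_eq_inv_mul, div_le_one hK0]
        exact h2
      linarith
    have h2 : Pb (tup p L (d + 1)) (fun _ => False) = 0 := by
      unfold Pb
      simp
    linarith

theorem lv_init {C : ℝ} (hC1 : 1 ≤ C) : lv (((d + 2 : ℝ) * C) • (1 : Matrix (Fin c) (Fin c) ℝ)) =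
    c * Real.log ((d + 2) * C) := by
  have hd : (0 : ℝ) ≤ d := by positivity
  have hK : 1 ≤ ((d : ℝ) + 2) * C := by nlinarith
  unfold lv
  rw [Matrix.det_smul, Matrix.det_one, mul_one, Fintype.card_fin, abs_pow,
    abs_of_nonneg (by linarith), Real.log_pow]

/-- If the vectors are not small then the bodies are long. -/
theorem pl_long (hc : 0 < c) (hl : IsLaw p) {δ ε₀ x₀ : ℝ} {S : P.Λ → Matrix (Fin c) (Fin c) ℝ}
    (hS : Adm d p P.L P.T P.e X δ S)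
    (h : ε₀ < Pb (tup p P.L (d + 2)) (fun w => ∃ u i,
      2 ^ (-(x₀ * X)) < |dd d P.tau P.E u (fun j => P.th (w j.succ)) i|)) :
    ε₀ - δ ≤ Pb p (fun ω => 2 ^ (-(x₀ * X)) / c < pe hc (S (P.L ω))) := by
  have h0 := hl.nonneg
  have hcR : (0 : ℝ) < c := by exact_mod_cast hc
  have q1 := tup_isLaw hl P.L (d + 1)
  have m1 := Pool.LBL.pmarg (tup_sub h0 P.L (M := d + 1) (N := d + 2) Fin.succ
    (Fin.succ_injective _)) (fun v => ∃ u i, (2 : ℝ) ^ (-(x₀ * X)) < |dd d P.T P.e u v i|)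
  have e1 : Pb (tup p P.L (d + 2)) (fun w => ∃ u i,
      2 ^ (-(x₀ * X)) < |dd d P.tau P.E u (fun j => P.th (w j.succ)) i|) =
      Pb (tup p P.L (d + 1)) (fun v => ∃ u i, (2 : ℝ) ^ (-(x₀ * X)) < |dd d P.T P.e u v i|) := m1
  rw [e1] at h
  have m2 := Pool.LBL.pmarg (tup_marg h0 P.L (d + 1) 0)
    (fun ω => 2 ^ (-(x₀ * X)) / c < pe hc (S (P.L ω)))
  rw [← m2]
  have h2 : Pb (tup p P.L (d + 1)) (fun v => ∃ u i,
      (2 : ℝ) ^ (-(x₀ * X)) < |dd d P.T P.e u v i|) ≤ Pb (tup p P.L (d + 1)) (Bd P.L P.T P.e S) +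
      Pb (tup p P.L (d + 1)) (fun v => 2 ^ (-(x₀ * X)) / c < pe hc (S (P.L (v 0)))) := by
    refine pb_or q1.nonneg fun v hv hb => ?_
    obtain ⟨u, i, hb⟩ := hb
    by_contra hcon
    push Not at hcon
    obtain ⟨hc1, hc2⟩ := hcon
    have hc1' : ∀ i, |((S (P.L (v 0)))⁻¹ *ᵥ dd d P.T P.e u v) i| ≤ 1 := by
      intro i
      by_contra h3
      push Not at h3
      exact hc1 ⟨u, i, h3⟩
    have h3 : dd d P.T P.e u v = S (P.L (v 0)) *ᵥ ((S (P.L (v 0)))⁻¹ *ᵥ dd d P.T P.e u v) := by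
      rw [Matrix.mulVec_mulVec, Matrix.mul_nonsing_inv _ (isUnit_iff_ne_zero.2 (hS.det _)),
        Matrix.one_mulVec]
    rw [h3] at hb
    have hp0 : 0 ≤ pe hc (S (P.L (v 0))) := abs_nonneg _
    have h4 := mulVec_bd (M := S (P.L (v 0))) (v := (S (P.L (v 0)))⁻¹ *ᵥ dd d P.T P.e u v)
      (a := pe hc (S (P.L (v 0)))) (b := 1) hp0 (fun i j => pv_max hc _ i j) hc1' i
    rw [le_div_iff₀ hcR] at hc2
    linarith
  have h3 := hS.bad
  linarith

/-- `2 ^ (y X)` is an exponential. -/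
theorem two_rpow (y : ℝ) (X : ℕ) : (2 : ℝ) ^ (y * X) = Real.exp (y * (X * Real.log 2)) := by
  rw [Real.rpow_def_of_pos (by norm_num)]
  congr 1
  ring

theorem log_two_rpow (y : ℝ) (X : ℕ) : Real.log ((2 : ℝ) ^ (y * X)) = y * (X * Real.log 2) := by
  rw [two_rpow, Real.log_exp]

open Classical in
/-- **Containment, if the smallest volume does not decrease.** -/
theorem sel (hc : 0 < c) (hl : IsLaw p) {C K1 s γ δ δ₂ io η h x ϖ : ℝ}
    (hP : P.Ok p X C K1 s γ δ₂ io η h x ϖ) (hP' : P'.Ok p X C K1 s γ δ₂ io η h x ϖ)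
    {Mt : P'.B → Matrix (Fin c) (Fin c) ℝ} {ph : Fin k → ℝ} {Gd : (Fin (d + 2) → Ω) → Prop}
    (hch : Chn P P' Mt ph Gd p X A γ δ δ₂ h) (hC1 : 1 ≤ C) (hs : 0 < s) (hs1 : s ≤ 1)
    (hγ : 0 ≤ γ) (hδ : 0 < δ) {δ₁ δ₁' α δ'' : ℝ} (hα : 0 < α) (hα1 : α ≤ 1) (hδ1 : 0 ≤ δ₁)
    (hδ' : 0 < δ₁') (hδ'' : 0 < δ'') (hδ''1 : δ'' ≤ 1) (hcγ : 3 * c * γ ≤ α)
    (hcδ : c * δ'' ≤ α) {M : ℕ} (hM0 : 0 < M) (hM : 8 * c ^ 2 ≤ M * (δ₁' * δ'' * α))
    (hX1 : 1 ≤ X) (hX2 : |Vmx c d C| + Real.log c.factorial ≤ c * (X * Real.log 2))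
    (hX3 : c * Real.log (Ks c d s) + Real.log c.factorial + 1 ≤ α * (X * Real.log 2))
    (hX4 : Real.log c.factorial ≤ α * (X * Real.log 2)) (hδ₂ : 0 ≤ δ₂)
    (hV : Vf d p P.L P.T P.e X δ₁ ≤ Vf d p P'.L P'.T P'.e X δ₁' + α * (X * Real.log 2)) :
    ∃ (r : ℕ) (S : P.Λ → Matrix (Fin c) (Fin c) ℝ) (β : P'.Λ → P'.B) (lm : P'.Λ → P.Λ),
      r < M ∧ Adm d p P.L P.T P.e X δ₁ S ∧
      (∀ ω, 0 < p ω → β (P'.L ω) = P'.b ω ∧ lm (P'.L ω) = P.L ω) ∧
      Pb (tup p P'.L (nr d r)) (fun u => ¬ ∀ i j,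
        |((bm X (fam d (fun ω => P'.tau (P'.th ω)) (fun ω => P'.E (P'.th ω)) u))⁻¹ *
          ((Ks c d s * (2 ^ (γ * X)) ^ 2) • (Mt (β (P'.L (u 0))) * S (lm (P'.L (u 0)))))) i j| ≤
          c.factorial * Real.exp (δ / 4 * (X * Real.log 2))) ≤
      (6 * α + 2 * c * ((nr d r + 1) * ((d + 2) * δ₁ + (d + 2) ^ 2 * δ₂))) / (δ / 4) +
        (nr d r + 1) * ((d + 2) * δ₁ + (d + 2) ^ 2 * δ₂) := by
  have h0 := hl.nonneg
  have hcR : (1 : ℝ) ≤ c := by exact_mod_cast hc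
  have hL2 : 0 < Real.log 2 := Real.log_pos (by norm_num)
  have hXR : (1 : ℝ) ≤ X := by exact_mod_cast hX1
  obtain ⟨Y, hY⟩ : ∃ Y : ℝ, Y = X * Real.log 2 := ⟨_, rfl⟩
  have hY0 : 0 < Y := hY ▸ mul_pos (by linarith) hL2
  obtain ⟨D, hD⟩ : ∃ D : ℝ, D = 2 ^ (γ * X) := ⟨_, rfl⟩
  have hD1 : 1 ≤ D := hD ▸ Real.one_le_rpow (by norm_num) (by positivity)
  have hD0 : 0 < D := by linarith
  have hlD : Real.log D = γ * Y := by rw [hD, log_two_rpow, hY]
  have hf0 : 0 ≤ Real.log (c.factorial : ℝ) :=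
    Real.log_nonneg (by exact_mod_cast Nat.succ_le_of_lt (Nat.factorial_pos c))
  have hfp : (0 : ℝ) < c.factorial := by exact_mod_cast Nat.factorial_pos c
  have hb₀ : 0 ≤ (d + 2 : ℝ) * δ₁ + (d + 2) ^ 2 * δ₂ := by positivity
  obtain ⟨b₀, hb₀'⟩ : ∃ b₀ : ℝ, b₀ = (d + 2 : ℝ) * δ₁ + (d + 2) ^ 2 * δ₂ := ⟨_, rfl⟩
  rw [← hY] at hX2 hX3 hX4 hV ⊢
  rw [← hD, ← hb₀']
  rw [← hb₀'] at hb₀
  -- near minimizer
  have hE : ∀ ω u i, |P.e ω u i| ≤ C := hP.E_b
  have hE' : ∀ ω u i, |P'.e ω u i| ≤ C := hP'.E_b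
  obtain ⟨S, hS, hSv⟩ := Vf_near (init (X := X) (d := d) (L := P.L) (T := P.T) hl hC1 hδ1 hE)
  -- the step
  have hLL : Det p P'.L P.L := fun ω ω' a a' e' =>
    hch.RL ω ω' a a' (hP'.bR ω ω' a a' (hP'.Lb ω ω' a a' e'))
  obtain ⟨β, lm, Gs, hβ, hGs, hgood, hadm⟩ := step (T := P.T) (e := P.e) (e' := P'.e) (X := X)
    (D := D) hl hP'.Lb hLL hD1 hs hs1 hP.tau_r hE hP.tm hch.M_det
    (fun b i j => by rw [hD]; exact hch.M_inv b i j) (fun u => by rw [hD]; exact hch.ph_b u)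
    (by rw [hD]; exact hch.chg) hS
  have hTT : P'.T = P.T := funext hch.tau_eq
  -- saturation
  obtain ⟨κ, hκ⟩ : ∃ κ : ℝ, κ = 2 ^ (δ'' * X) := ⟨_, rfl⟩
  have hκ1 : 1 ≤ κ := hκ ▸ Real.one_le_rpow (by norm_num) (by positivity)
  have hlκ : Real.log κ = δ'' * Y := by rw [hκ, log_two_rpow, hY]
  have hκX : κ ≤ 2 ^ X := by
    rw [hκ, ← Real.rpow_natCast]
    refine Real.rpow_le_rpow_of_exponent_le (by norm_num) ?_
    nlinarith
  obtain ⟨r, hr, hsat⟩ := sat (d := d) (L := P'.L) (T := P'.T) (e := P'.e) (X := X) hl hC1 hE'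
    hκ1 hM0
  have hVmx0 : 0 ≤ Vmx c d C := by
    unfold Vmx
    refine Real.log_nonneg ?_
    have hd : (0 : ℝ) ≤ d := by positivity
    have h1 : (1 : ℝ) ≤ ((d + 2) * C) ^ c := one_le_pow₀ (by nlinarith)
    have h2 : (1 : ℝ) ≤ c.factorial := by exact_mod_cast Nat.succ_le_of_lt (Nat.factorial_pos c)
    nlinarith
  have hVm : 0 < Vmx c d C + c * (X * Real.log 2) := by
    rw [← hY]
    have : 0 < (c : ℝ) * Y := by positivity
    linarith
  have hVm2 : Vmx c d C + c * (X * Real.log 2) ≤ 2 * c * Y := by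
    rw [← hY]
    have := le_abs_self (Vmx c d C)
    linarith
  have hMR : (0 : ℝ) < M := by exact_mod_cast hM0
  obtain ⟨βo, hβo⟩ : ∃ βo : ℝ, βo = 2 * c / (M * δ'') := ⟨_, rfl⟩
  have hβo0 : 0 ≤ βo := by
    rw [hβo]
    positivity
  have hsat2 : Pb (tup p P'.L (d + 1 + 1 + nr d r)) (fun w =>
        Out d P'.T P'.e X κ (fun i => w (Fin.castAdd (nr d r + 1) i))
          (fun j => w (Fin.natAdd (d + 2) j))) ≤ βo := by
    rw [hlκ] at hsat
    have h1 : (Vmx c d C + c * (X * Real.log 2)) / M ≤ 2 * c * Y / M :=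
      div_le_div_of_nonneg_right hVm2 hMR.le
    have h2 : δ'' * Y * βo = 2 * c * Y / M := by
      rw [hβo]
      field_simp
    have h3 := hsat.trans (h1.trans h2.ge)
    exact le_of_mul_le_mul_left h3 (by positivity)
  have hβδ : βo ≤ δ₁' / 2 := by
    rw [hβo, div_le_div_iff₀ (by positivity) (by norm_num)]
    have h1 : (M : ℝ) * (δ₁' * δ'' * α) ≤ M * (δ₁' * δ'' * 1) := by
      refine mul_le_mul_of_nonneg_left ?_ hMR.le
      exact mul_le_mul_of_nonneg_left hα1 (by positivity)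
    have h2 : (4 : ℝ) * c ≤ 8 * c ^ 2 := by nlinarith
    have h3 : (M : ℝ) * (δ₁' * δ'' * 1) = δ₁' * (M * δ'') := by ring
    linarith
  have hvf := vf_le (d := d) (L := P'.L) (T := P'.T) (e := P'.e) (X := X) hl hC1 hE' hκ1 hκX
    (nr d r) hβδ hδ' hsat2 hVm
  have hex : (Vmx c d C + c * (X * Real.log 2)) * (2 / δ₁') * βo ≤ α * Y := by
    have h1 : (Vmx c d C + c * (X * Real.log 2)) * (2 / δ₁') * βo ≤
        2 * c * Y * (2 / δ₁') * βo := by
      refine mul_le_mul_of_nonneg_right ?_ hβo0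
      exact mul_le_mul_of_nonneg_right hVm2 (by positivity)
    refine h1.trans ?_
    rw [hβo]
    have h2 : 2 * (c : ℝ) * Y * (2 / δ₁') * (2 * c / (M * δ'')) =
        8 * c ^ 2 * Y / (M * (δ₁' * δ'')) := by
      field_simp
      ring
    rw [h2, div_le_iff₀ (by positivity)]
    have h3 := mul_le_mul_of_nonneg_right hM hY0.le
    linarith
  rw [hlκ] at hvf
  have hKs := Ks_pos (c := c) (d := d) hs
  -- the volume of the enlarged body
  have hlK : Real.log (Ks c d s * D ^ 2) = Real.log (Ks c d s) + 2 * (γ * Y) := by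
    rw [Real.log_mul hKs.ne' (by positivity), Real.log_pow, hlD]
    push_cast
    ring
  have hvS : Ex p (fun ω => lv ((Ks c d s * D ^ 2) •
      (Mt (β (P'.L ω)) * S (lm (P'.L ω))))) ≤ c * (Real.log (Ks c d s) + 2 * (γ * Y)) +
        (Real.log c.factorial + c * (γ * Y)) + (Vf d p P.L P.T P.e X δ₁ + 1) := by
    have h1 : ∀ ω, 0 < p ω → lv ((Ks c d s * D ^ 2) •
        (Mt (β (P'.L ω)) * S (lm (P'.L ω)))) ≤ (c * (Real.log (Ks c d s) + 2 * (γ * Y)) +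
        (Real.log c.factorial + c * (γ * Y))) + lv (S (P.L ω)) := by
      intro ω hω
      rw [(hβ ω hω).2]
      have h2 : lv (Mt (β (P'.L ω))) ≤ Real.log c.factorial + c * (γ * Y) := by
        have h3 := lv_le (hch.M_det (β (P'.L ω))) (M := D) (fun i j => by
          rw [hD]
          exact hch.M_b _ i j)
        rw [Real.log_mul hfp.ne' (by positivity), Real.log_pow, hlD] at h3
        exact h3
      have h4 : lv ((Ks c d s * D ^ 2) • (Mt (β (P'.L ω)) * S (P.L ω))) =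
          c * (Real.log (Ks c d s) + 2 * (γ * Y)) +
            (lv (Mt (β (P'.L ω))) + lv (S (P.L ω))) := by
        have hK0 : 0 < Ks c d s * D ^ 2 := by positivity
        have hne : (Mt (β (P'.L ω)) * S (P.L ω)).det ≠ 0 := by
          rw [Matrix.det_mul]
          exact mul_ne_zero (hch.M_det _) (hS.det _)
        rw [← lv_mul (hch.M_det _) (hS.det _)]
        unfold lv
        rw [Matrix.det_smul, abs_mul, Real.log_mul (abs_ne_zero.2 (pow_ne_zero _ hK0.ne'))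
          (abs_ne_zero.2 hne), abs_pow, abs_of_pos hK0, Real.log_pow, Fintype.card_fin, hlK]
      rw [h4]
      linarith
    refine (Ex_mono h0 fun ω hω => h1 ω hω).trans ?_
    rw [Ex_add, Ex_const hl.sum_one]
    linarith
  have hvol : Ex p (fun ω => lv ((fun z => (Ks c d s * D ^ 2) • (Mt (β z) * S (lm z)))
      (P'.L ω))) ≤ Wv d p P'.L P'.T P'.e X (nr d r) + 5 * α * Y := by
    have e1 : c * (Real.log (Ks c d s) + 2 * (γ * Y)) + (Real.log c.factorial + c * (γ * Y)) =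
      c * Real.log (Ks c d s) + Real.log c.factorial + 3 * c * γ * Y := by ring
    have e2 : 3 * c * γ * Y ≤ α * Y := mul_le_mul_of_nonneg_right hcγ hY0.le
    have e3 : (c : ℝ) * (δ'' * Y) ≤ α * Y := by
      rw [← mul_assoc]
      exact mul_le_mul_of_nonneg_right hcδ hY0.le
    refine hvS.trans ?_
    linarith
  have hgood' : ∀ w : Fin (d + 2) → Ω, (∀ j, 0 < p (w j) ∧ P'.L (w j) = P'.L (w 0) ∧ Gs (w j)) →
      ∀ u i, |(((fun z => (Ks c d s * D ^ 2) • (Mt (β z) * S (lm z))) (P'.L (w 0)))⁻¹ *ᵥ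
        dd d P'.T P'.e u w) i| ≤ 1 := by
    rw [hTT]
    exact hgood
  rw [← hb₀'] at hGs
  have hcnt := cnt (L := P'.L) (T := P'.T) (e := P'.e) (X := X) (N := nr d r) hl hC1 hE'
    (S := fun z => (Ks c d s * D ^ 2) • (Mt (β z) * S (lm z))) hadm.det hadm.inv hGs hgood'
    (t := δ / 4 * Y) (by positivity) hvol
  refine ⟨r, S, β, lm, hr, hS, hβ, ?_⟩
  refine hcnt.trans ?_
  refine add_le_add ?_ le_rfl
  rw [← hY]
  have hN0 : 0 ≤ ((nr d r : ℝ) + 1) * b₀ := by positivity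
  have h1 : 5 * α * Y + Real.log c.factorial + (|Vmx c d C| + c * Y + Real.log c.factorial) *
      ((nr d r + 1) * b₀) ≤ (6 * α + 2 * c * ((nr d r + 1) * b₀)) * Y := by
    have h2 : (|Vmx c d C| + c * Y + Real.log c.factorial) * ((nr d r + 1) * b₀) ≤
        (2 * c * Y) * ((nr d r + 1) * b₀) := by
      refine mul_le_mul_of_nonneg_right ?_ hN0
      linarith
    linarith
  rw [div_le_div_iff₀ (by positivity) (by positivity)]
  have h3 := mul_le_mul_of_nonneg_right h1 (show 0 ≤ δ / 4 by positivity)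
  linarith

end Pool.TC35
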