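import Pool.Agent.H35.TC.Cnt

/-!
# TC: the height is full in the sampled body
-/

set_option autoImplicit false

namespace Pool.TC35

open Finset Real Matrix
open Pool.Agent.H49.Ent Pool.Agent.H32.Dense Pool.STK Pool.FAD Pool.POT Pool.SLO Pool.TQ
open Pool.TT37 (dd)

variable {c k d X N : ℕ} {Ω Λ τ B : Type} [Fintype Ω] {p : Ω → ℝ} {L : Ω → Λ} {th : Ω → τ}
  {b : Ω → B} {hgt : Ω → Fin c → ℤ}

/-- The body of `d + 2` of the times, given all the times. -/
theorem DF_sub (hl : IsLaw p) (hb : Det p L b) {m₀ : ℝ} (h0 : MI p th L b ≤ m₀)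
    (A : (Fin (d + 2) → τ) → Matrix (Fin c) (Fin c) ℝ) {e₀ : ℝ}
    (hbody : DF (tup p L (d + 2)) (fun _ => Tx c X) (fun w => A fun j => th (w j.succ))
      (fun w => xv X (hgt (w 0)))
      (fun w => (b (w 0), (th (w 0), fun j : Fin (d + 2) => th (w j.succ)))) ≤ e₀)
    (σ : Fin (d + 2) → Fin (N + 1)) (hσ : Function.Injective σ) :
    DF (tup p L (N + 1)) (fun _ => Tx c X) (fun w => A fun j => th (w (σ j).succ))
      (fun w => xv X (hgt (w 0)))
      (fun w => (b (w 0), (th (w 0), fun j : Fin (N + 1) => th (w j.succ)))) ≤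
      e₀ + ((N + 1 : ℕ) : ℝ) * m₀ := by
  have q0 := tup_isLaw hl L (N + 1)
  have hq0 := q0.nonneg
  obtain ⟨ρ, hρ⟩ : ∃ ρ : Fin (d + 3) → Fin (N + 2), ρ = Fin.cons 0 (fun j => (σ j).succ) :=
    ⟨_, rfl⟩
  have hρ0 : ρ 0 = 0 := by rw [hρ]; rfl
  have hρs : ∀ j : Fin (d + 2), ρ j.succ = (σ j).succ := fun j => by rw [hρ]; rfl
  have hρi : Function.Injective ρ := by
    intro x y h
    induction x using Fin.cases with
    | zero =>
      induction y using Fin.cases with
      | zero => rfl
      | succ y =>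
        rw [hρ0, hρs] at h
        exact absurd h.symm (Fin.succ_ne_zero _)
    | succ x =>
      induction y using Fin.cases with
      | zero =>
        rw [hρ0, hρs] at h
        exact absurd h (Fin.succ_ne_zero _)
      | succ y =>
        rw [hρs, hρs] at h
        rw [hσ (Fin.succ_injective _ h)]
  have him := im_of_marg (tup_sub hl.nonneg L (M := d + 2) (N := N + 1) ρ hρi)
  rw [DF_xv] at hbody ⊢
  have e1 := him.Ex (fun w => lv (A fun j => th (w j.succ)) - lv (Tx c X))
  simp only [Function.comp, hρs] at e1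
  have e2 := him.CH (fun w => hgt (w 0)) (fun w =>
    (cl (A fun j => th (w j.succ)) (xv X (hgt (w 0))),
      (b (w 0), (th (w 0), fun j : Fin (d + 2) => th (w j.succ)))))
  simp only [Function.comp, hρs, hρ0] at e2
  rw [← e1, ← e2] at hbody
  -- more times in the condition
  have f1 := CH_fib hq0 (fun w => hgt (w 0))
    (fun w => cl (A fun j => th (w (σ j).succ)) (xv X (hgt (w 0))))
    (fun w (j : Fin (N + 1)) => th (w j.succ))
    (fun w => (b (w 0), (th (w 0), fun j : Fin (d + 2) => th (w (σ j).succ)))) (by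
      intro w w' _ _ e
      simp only [Prod.mk.injEq] at e ⊢
      rw [e.1, e.2.2.2])
  have f2 : CH (tup p L (N + 1)) (fun w => hgt (w 0)) (fun w =>
      (cl (A fun j => th (w (σ j).succ)) (xv X (hgt (w 0))),
        ((fun (j : Fin (N + 1)) => th (w j.succ)),
          (b (w 0), (th (w 0), fun j : Fin (d + 2) => th (w (σ j).succ)))))) ≤
      CH (tup p L (N + 1)) (fun w => hgt (w 0)) (fun w =>
        (cl (A fun j => th (w (σ j).succ)) (xv X (hgt (w 0))),
          (b (w 0), (th (w 0), fun j : Fin (N + 1) => th (w j.succ))))) := by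
    refine CH_mono_cond hq0 fun w w' _ _ e => ?_
    simp only [Prod.mk.injEq] at e ⊢
    exact ⟨e.1, e.2.2.1, e.2.2.2.1, e.2.1⟩
  have f3 : MI (tup p L (N + 1)) (fun w => hgt (w 0)) (fun w (j : Fin (N + 1)) => th (w j.succ))
      (fun w => (b (w 0), (th (w 0), fun j : Fin (d + 2) => th (w (σ j).succ)))) ≤
      ((N + 1 : ℕ) : ℝ) * m₀ := by
    have g1 := tup_miN (N := N + 1) hl.nonneg hb h0 (fun ω => (hgt ω, th ω))
    have g2 := MI_data hq0 (A := fun w => hgt (w 0)) (B := fun w => th (w 0))
      (X := fun w => (hgt (w 0), th (w 0))) (Y := fun w (j : Fin (N + 1)) => th (w j.succ))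
      (Z := fun w => b (w 0))
      (fun w w' _ _ e => (Prod.ext_iff.mp (Prod.ext_iff.mp e).1).1)
      (fun w w' _ _ e => (Prod.ext_iff.mp (Prod.ext_iff.mp e).1).2)
    have g3 := MI_cond_right hq0 (X := fun w => hgt (w 0))
      (Y := fun w (j : Fin (N + 1)) => th (w j.succ))
      (B := fun w (j : Fin (d + 2)) => th (w (σ j).succ))
      (Z := fun w => (th (w 0), b (w 0)))
      (fun w w' _ _ e => by
        have h1 := (Prod.ext_iff.mp e).1
        funext j
        exact congrFun h1 (σ j))
    refine le_trans (le_of_eq ?_) (g3.trans (g2.trans g1))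
    refine MI_congr hq0 ?_ ?_ ?_ ?_ ?_ ?_ <;>
    · intro w w' _ _ e
      simp only [Prod.mk.injEq] at e ⊢
      tauto
  have e3 : Ex (tup p L (N + 1)) (fun ω' => lv (A fun j => th (ω' (σ j).succ)) - lv (Tx c X)) =
      Ex (tup p L (N + 1)) (fun ω => lv (A fun j => th (ω (σ j).succ)) - lv (Tx c X)) := rfl
  linarith

open Classical in
/-- **The sampled body.** -/
theorem DF_smp (hl : IsLaw p) (hb : Det p L b) {m₀ : ℝ} (h0 : MI p th L b ≤ m₀)
    (tau : τ → ℤ) (E : τ → Fin k → Fin c → ℝ)
    (A : (Fin (d + 2) → τ) → Matrix (Fin c) (Fin c) ℝ) (hAd : ∀ t, (A t).det ≠ 0)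
    (hAi : ∀ t i j, |(A t)⁻¹ i j| ≤ 2 ^ X) {K1 : ℝ}
    (hA1 : ∀ t u i, |((A t)⁻¹ *ᵥ dd d tau E u t) i| ≤ K1) {e₀ : ℝ} (he₀ : 0 ≤ e₀)
    (hbody : DF (tup p L (d + 2)) (fun _ => Tx c X) (fun w => A fun j => th (w j.succ))
      (fun w => xv X (hgt (w 0)))
      (fun w => (b (w 0), (th (w 0), fun j : Fin (d + 2) => th (w j.succ)))) ≤ e₀)
    (N : ℕ) :
    DF (tup p L (N + 1)) (fun _ => Tx c X)
      (fun w => bm X (fam d tau E (fun j : Fin (N + 1) => th (w j.succ))))
      (fun w => xv X (hgt (w 0)))
      (fun w => (b (w 0), (th (w 0), fun j : Fin (N + 1) => th (w j.succ)))) ≤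
      (N + 1) ^ (d + 2) * (e₀ + ((N + 1 : ℕ) : ℝ) * m₀) +
        CF c (c + 1) (c * max K1 1) ((N + 1) ^ (d + 2) - 1) := by
  have q0 := tup_isLaw hl L (N + 1)
  have hq0 := q0.nonneg
  have hm₀ : 0 ≤ m₀ := (MI_nonneg hl.nonneg _ _ _).trans h0
  obtain ⟨N', hN'⟩ : ∃ N', Fintype.card (Fin (d + 2) → Fin (N + 1)) = N' + 1 :=
    Nat.exists_eq_succ_of_ne_zero Fintype.card_ne_zero
  have hcard : (N + 1) ^ (d + 2) = N' + 1 := by
    rw [← hN', Fintype.card_fun, Fintype.card_fin, Fintype.card_fin]
  have hN1 : (N + 1) ^ (d + 2) - 1 = N' := by omega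
  obtain ⟨ε⟩ : Nonempty ((Fin (d + 2) → Fin (N + 1)) ≃ Fin (N' + 1)) :=
    ⟨(Fintype.equivFin _).trans (finCongr hN')⟩
  obtain ⟨W, hW⟩ : ∃ W : (Fin (N + 2) → Ω) → (Fin (N + 1) → τ), W = fun w j => th (w j.succ) :=
    ⟨_, rfl⟩
  obtain ⟨σ0, hσ0⟩ : ∃ σ0 : Fin (d + 2) → Fin (N + 1), σ0 = fun _ => 0 := ⟨_, rfl⟩
  have hσ0i : ¬ Function.Injective σ0 := by
    intro h
    have h1 : (0 : Fin (d + 2)) = 1 := h (by rw [hσ0])
    have h2 := congrArg Fin.val h1
    simp at h2
  obtain ⟨V, hV⟩ : ∃ V : (Fin (d + 2) → Fin (N + 1)) → (Fin (N + 1) → τ) →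
      Matrix (Fin c) (Fin c) ℝ, V = fun σ t =>
        if Function.Injective σ then A (fun j => t (σ j)) else Tx c X := ⟨_, rfl⟩
  have hVd : ∀ σ t, (V σ t).det ≠ 0 := by
    intro σ t
    rw [hV]
    simp only
    split_ifs
    · exact hAd _
    · exact Tx_det c X
  have hTi : ∀ i j, |(Tx c X)⁻¹ i j| ≤ 2 ^ X := by
    intro i j
    have h1 := bm_inv (X := X) (V := (fun q : Fin 0 => (Fin.elim0 q : Fin c → ℝ))) i j
    have h2 : (Tx c X)⁻¹ = diagonal fun _ => (2 : ℝ) ^ X := by
      refine Matrix.inv_eq_left_inv ?_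
      unfold Tx
      rw [Matrix.diagonal_mul_diagonal]
      have : (fun _ : Fin c => (2 : ℝ) ^ X * ((2 : ℝ) ^ X)⁻¹) = fun _ => 1 := by
        funext _
        exact mul_inv_cancel₀ (by positivity)
      rw [this, Matrix.diagonal_one]
    rw [h2, Matrix.diagonal_apply]
    split_ifs
    · rw [abs_of_pos (by positivity)]
    · rw [abs_zero]
      positivity
  have hVi : ∀ σ t i j, |(V σ t)⁻¹ i j| ≤ 2 ^ X := by
    intro σ t i j
    rw [hV]
    simp only
    split_ifs
    · exact hAi _ i j
    · exact hTi i j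
  obtain ⟨R, hR⟩ : ∃ R : (Fin (d + 2) → Fin (N + 1)) → (Fin (N + 1) → τ) →
      Matrix (Fin c) (Fin c) ℝ, R = fun σ t => Matrix.of fun i a =>
        match bi X (fam d tau E t) a with
        | .inl q => if q.1 = σ then ((V σ t)⁻¹ *ᵥ fam d tau E t q) i else 0
        | .inr l => if σ = σ0 then (Pi.single l (1 : ℝ) : Fin c → ℝ) i else 0 := ⟨_, rfl⟩
  have hfam : ∀ t (q : (Fin (d + 2) → Fin (N + 1)) × Fin k), ¬ Function.Injective q.1 →
      fam d tau E t q = 0 := by
    intro t q hq
    unfold fam
    funext i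
    unfold dd
    rw [if_neg]
    · rfl
    · rintro ⟨h1, -⟩
      refine hq fun x y h => h1 ?_
      simp only [h]
  have hsum : ∀ t, bm X (fam d tau E t) = ∑ σ, V σ t * R σ t := by
    intro t
    ext i a
    rw [Matrix.sum_apply]
    have h1 : bm X (fam d tau E t) i a = fx X (fam d tau E t) (bi X (fam d tau E t) a) i := rfl
    have h2 : ∀ σ, (V σ t * R σ t) i a = (V σ t *ᵥ fun j => R σ t j a) i := fun σ => rfl
    rw [h1]
    simp only [h2]
    rcases hbi : bi X (fam d tau E t) a with q | l
    · rw [Finset.sum_eq_single q.1]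
      · have h3 : (fun j => R q.1 t j a) = (V q.1 t)⁻¹ *ᵥ fam d tau E t q := by
          funext j
          rw [hR]
          simp only [Matrix.of_apply, hbi, if_true]
        rw [h3, Matrix.mulVec_mulVec, Matrix.mul_nonsing_inv _ (isUnit_iff_ne_zero.2 (hVd _ _)),
          Matrix.one_mulVec]
        rfl
      · intro σ _ hσ
        have h3 : (fun j => R σ t j a) = 0 := by
          funext j
          rw [hR]
          simp only [Matrix.of_apply, hbi]
          rw [if_neg (Ne.symm hσ)]
          rfl
        rw [h3, Matrix.mulVec_zero]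
        rfl
      · intro h
        exact absurd (Finset.mem_univ _) h
    · rw [Finset.sum_eq_single σ0]
      · have h3 : (fun j => R σ0 t j a) = Pi.single l 1 := by
          funext j
          rw [hR]
          simp only [Matrix.of_apply, hbi, if_true]
        have h4 : V σ0 t = Tx c X := by
          rw [hV]
          simp only [if_neg hσ0i]
        rw [h3, h4]
        unfold Tx
        rw [Matrix.mulVec_diagonal]
        simp only [fx, Pi.single_apply]
        split_ifs <;> simp
      · intro σ _ hσ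
        have h3 : (fun j => R σ t j a) = 0 := by
          funext j
          rw [hR]
          simp only [Matrix.of_apply, hbi]
          rw [if_neg hσ]
          rfl
        rw [h3, Matrix.mulVec_zero]
        rfl
      · intro h
        exact absurd (Finset.mem_univ _) h
  have hRb : ∀ σ t i, ∑ j, |R σ t i j| ≤ c * max K1 1 := by
    intro σ t i
    have hm : (0 : ℝ) ≤ max K1 1 := le_trans zero_le_one (le_max_right _ _)
    calc ∑ j, |R σ t i j| ≤ ∑ _j : Fin c, max K1 1 := by
          refine Finset.sum_le_sum fun a _ => ?_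
          rw [hR]
          simp only [Matrix.of_apply]
          rcases hbi : bi X (fam d tau E t) a with q | l
          · simp only
            split_ifs with hq
            · by_cases hi : Function.Injective q.1
              · have h4 : V σ t = A (fun j => t (q.1 j)) := by
                  rw [hV]
                  simp only
                  rw [← hq, if_pos hi]
                rw [h4]
                exact (hA1 _ _ _).trans (le_max_left _ _)
              · rw [hfam t q hi, Matrix.mulVec_zero, Pi.zero_apply, abs_zero]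
                exact hm
            · rw [abs_zero]
              exact hm
          · simp only
            split_ifs
            · rw [Pi.single_apply]
              split_ifs
              · rw [abs_one]
                exact le_max_right _ _
              · rw [abs_zero]
                exact hm
            · rw [abs_zero]
              exact hm
      _ = c * max K1 1 := by
          rw [Finset.sum_const, Finset.card_univ, Fintype.card_fin, nsmul_eq_mul]
  have hdt : ∀ {S : Type} (F : (Fin (N + 1) → τ) → S), Det (tup p L (N + 1))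
      (fun w => (b (w 0), (th (w 0), fun j : Fin (N + 1) => th (w j.succ)))) (fun w => F (W w)) := by
    intro S F w w' _ _ e
    have h1 := (Prod.ext_iff.mp (Prod.ext_iff.mp e).2).2
    have h2 : W w = W w' := by
      rw [hW]
      exact h1
    simp only [h2]
  have key := full_sum (n := c) hq0 q0.sum_one (T := fun _ => Tx c X)
    (W := fun w => bm X (fam d tau E (W w))) (N := N')
    (fun a w => V (ε.symm a) (W w)) (fun a w => R (ε.symm a) (W w))
    (fun w => xv X (hgt (w 0)))
    (fun w => (b (w 0), (th (w 0), fun j : Fin (N + 1) => th (w j.succ))))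
    (fun _ _ _ _ _ => rfl) (hdt (fun t => bm X (fam d tau E t)))
    (fun a => hdt (fun t => V (ε.symm a) t)) (fun _ => Tx_det c X) (fun _ => bm_det)
    (fun a w => hVd _ _) (c := (c : ℝ) + 1) (b := c * max K1 1) (by positivity) (by positivity)
    (fun a w => inc_of_inv (hVi _ _)) (fun w => by
      rw [hsum]
      exact (Equiv.sum_comp ε.symm (fun σ => V σ (W w) * R σ (W w))).symm)
    (fun a w i => hRb _ _ i)
  have hW' : (fun w : Fin (N + 2) → Ω => bm X (fam d tau E (W w))) = fun w =>
      bm X (fam d tau E (fun j : Fin (N + 1) => th (w j.succ))) := by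
    rw [hW]
  rw [hW'] at key
  rw [hN1]
  refine key.trans (add_le_add ?_ le_rfl)
  have hone : ∀ a : Fin (N' + 1), DF (tup p L (N + 1)) (fun _ => Tx c X)
      (fun w => V (ε.symm a) (W w)) (fun w => xv X (hgt (w 0)))
      (fun w => (b (w 0), (th (w 0), fun j : Fin (N + 1) => th (w j.succ)))) ≤
      e₀ + ((N + 1 : ℕ) : ℝ) * m₀ := by
    intro a
    by_cases hi : Function.Injective (ε.symm a)
    · have h1 : (fun w => V (ε.symm a) (W w)) = fun w : Fin (N + 2) → Ω =>
          A fun j => th (w (ε.symm a j).succ) := by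
        funext w
        rw [hV, hW]
        simp only [if_pos hi]
      rw [h1]
      exact DF_sub hl hb h0 A hbody (ε.symm a) hi
    · have h1 : (fun w => V (ε.symm a) (W w)) = fun _ : Fin (N + 2) → Ω => Tx c X := by
        funext w
        rw [hV]
        simp only [if_neg hi]
      rw [h1]
      have h2 : DF (tup p L (N + 1)) (fun _ => Tx c X) (fun _ => Tx c X)
          (fun w => xv X (hgt (w 0)))
          (fun w => (b (w 0), (th (w 0), fun j : Fin (N + 1) => th (w j.succ)))) = 0 := by
        unfold DF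
        have h3 := CH_eq_zero hq0 (X := fun w : Fin (N + 2) → Ω =>
          cl (Tx c X) (xv X (hgt (w 0))))
          (W := fun w : Fin (N + 2) → Ω => (cl (Tx c X) (xv X (hgt (w 0))),
            (b (w 0), (th (w 0), fun j : Fin (N + 1) => th (w j.succ)))))
          (fun w w' _ _ e => (Prod.ext_iff.mp e).1)
        rw [h3]
        simp only [sub_self]
        rw [Ex_const q0.sum_one, sub_self]
      rw [h2]
      positivity
  calc ∑ a : Fin (N' + 1), DF (tup p L (N + 1)) (fun _ => Tx c X)
        (fun w => V (ε.symm a) (W w)) (fun w => xv X (hgt (w 0)))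
        (fun w => (b (w 0), (th (w 0), fun j : Fin (N + 1) => th (w j.succ)))) ≤
        ∑ _a : Fin (N' + 1), (e₀ + ((N + 1 : ℕ) : ℝ) * m₀) := Finset.sum_le_sum fun a _ => hone a
    _ = (N + 1) ^ (d + 2) * (e₀ + ((N + 1 : ℕ) : ℝ) * m₀) := by
        rw [Finset.sum_const, Finset.card_univ, Fintype.card_fin, nsmul_eq_mul]
        congr 1
        have : (((N + 1) ^ (d + 2) : ℕ) : ℝ) = ((N' + 1 : ℕ) : ℝ) := by rw [hcard]
        push_cast at this ⊢
        exact this.symm

end Pool.TC35
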