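import Pool.Agent.H35.TC.Smp

/-!
# TC: the inequality at one place, for a direction which is a function of the record
-/

set_option autoImplicit false

namespace Pool.TC35

open Finset Real Matrix
open Pool.Agent.H49.Ent Pool.Agent.H32.Dense Pool.STK Pool.FAD Pool.POT Pool.SLO Pool.TQ
open Pool.K2S (Pe)

variable {c k d X M : ℕ} {Ω : Type} [Fintype Ω] {p : Ω → ℝ} {P : Pl Ω c k d}
  {C K1 s γ δ₂ io η h x ϖ : ℝ}

/-- Counting bound. -/
noncomputable def Gb (c X : ℕ) (γ : ℝ) : ℝ := c * Real.log (4 * (2 ^ (γ * X) * 2 ^ X) + 1)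

theorem Gb_nonneg (c X : ℕ) (γ : ℝ) : 0 ≤ Gb c X γ := by
  unfold Gb
  have h1 : 0 ≤ Real.log (4 * (2 ^ (γ * X) * 2 ^ X) + 1) := Real.log_nonneg (by
    have : (0 : ℝ) ≤ 2 ^ (γ * X) * 2 ^ X := by positivity
    linarith)
  positivity

/-- **The inequality.** -/
theorem tg0 (hc : 0 < c) (hl : IsLaw p) (hP : P.Ok p X C K1 s γ δ₂ io η h x ϖ) (hh : h ≤ 1)
    (hϖ : 0 < ϖ) {A0 : P.B → (Fin M → P.τ) → Matrix (Fin c) (Fin c) ℝ}
    (hdet : ∀ β t, (A0 β t).det ≠ 0) (hinv : ∀ β t i j, |(A0 β t)⁻¹ i j| ≤ 2 ^ X) {e₀ : ℝ}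
    (hbody : DF (tup p P.L M) (fun _ => Tx c X)
        (fun w => A0 (P.b (w 0)) fun j => P.th (w j.succ)) (fun w => xv X (P.hgt (w 0)))
        (fun w => (P.b (w 0), (P.th (w 0), fun j : Fin M => P.th (w j.succ)))) ≤ e₀)
    {i0 : Fin c} (v : P.B → Fin c → ℝ) {G : P.B → (Fin M → P.τ) → Prop} {a₀ : ℝ} (ha₀ : 0 < a₀)
    (hA0 : ∀ β t, A0 β t i0 i0 ≠ 0)
    (hG : ∀ β t, G β t → a₀ ≤ |A0 β t i0 i0| ∧
      ∀ i, A0 β t i i0 / A0 β t i0 i0 = v β i / v β i0)
    (f : P.ρ → P.Dr) {D : ℝ}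
    (hex : ∀ t ω ω', 0 < p ω → 0 < p ω' → G (P.b ω) t → P.Wd ω = P.Wd ω' → P.th ω = P.th ω' →
      P.b ω = P.b ω' → pr i0 (fun i => v (P.b ω) i / v (P.b ω) i0) (P.hgt ω) =
        pr i0 (fun i => v (P.b ω) i / v (P.b ω) i0) (P.hgt ω') →
      ∀ i, |((P.Q (f (P.R ω)) (P.Wd ω) (P.R ω) (P.Z ω) i -
        P.Q (f (P.R ω')) (P.Wd ω') (P.R ω') (P.Z ω') i : ℤ) : ℝ)| ≤ D)
    {m : ℝ} (hm : 0 < m)
    (hmG : m ≤ Pe (tup p P.L M) fun w => G (P.b (w 0)) fun j => P.th (w j.succ))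
    {K : ℕ} (hK : 0 < K) :
    Real.log a₀ + X * Real.log 2 - (e₀ + |Cc c (c + 1)|) / m - Cc c c ≤
      (M + 1) * (io * X) / m +
        (c * Real.log (2 * 2 ^ (γ * X) + 1) + c * Real.log (2 * D + 1)) +
        ((c - h) * X * Real.log 2 + (1 / m / K + 1 / m * ϖ) * Gb c X γ + Real.log (K + 1) -
          (1 - 1 / m * ϖ) * max 0 ((c - 1 - x) * X * Real.log 2)) := by
  classical
  set q := tup p P.L M with hq
  have hqL : IsLaw q := tup_isLaw hl P.L M
  have hq0 := hqL.nonneg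
  have him : Im q p (fun w => w 0) := im_tup hl.nonneg P.L M 0
  set ts : (Fin (M + 1) → Ω) → Fin M → P.τ := fun w j => P.th (w j.succ) with hts
  set Gw : (Fin (M + 1) → Ω) → Prop := fun w => G (P.b (w 0)) (ts w) with hGw
  set m' := Pe q Gw with hm'
  have hm'0 : 0 < m' := hm.trans_le hmG
  have hmm : m ≤ m' := hmG
  set r := cond q Gw True with hr
  have hrL : IsLaw r := cond_law hq0 hm'0
  have hr0 := hrL.nonneg
  have hrq : ∀ w, 0 < r w → 0 < q w ∧ Gw w := fun w hw => by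
    have := (cond_pos_iff hq0 Gw True w).1 hw
    exact ⟨this.1, of_eq_true this.2⟩
  have hrle : ∀ w, r w ≤ 1 / m * q w := fun w =>
    (cond_le hq0 w).trans (mul_le_mul_of_nonneg_right
      (one_div_le_one_div_of_le hm hmm) (hq0 w))
  have hd0 : 0 ≤ io * X := (MI_nonneg hl.nonneg _ _ _).trans hP.h0
  have hNd : 0 ≤ ((M : ℝ) + 1) * (io * X) := by positivity
  have hdm : (M + 1) * (io * X) / m' ≤ (M + 1) * (io * X) / m :=
    div_le_div_of_nonneg_left hNd hm hmm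
  -- the informations
  have miN : ∀ {S : Type} (X' : Ω → S), MI q (fun w => X' (w 0)) ts (fun w => P.b (w 0)) ≤
      M * (io * X) := fun X' => tup_miN hl.nonneg hP.Lb hP.h0 X'
  set Y : (Fin (M + 1) → Ω) → P.B × (P.τ × (Fin M → P.τ)) :=
    fun w => (P.b (w 0), (P.th (w 0), fun j : Fin M => P.th (w j.succ))) with hY
  have hdG : Det q Y Gw := by
    intro w w' _ _ e
    simp only [hY, Prod.mk.injEq] at e
    simp only [hGw, hts]
    rw [e.1, e.2.2]
  -- (ii) the fibre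
  set A : (Fin (M + 1) → Ω) → Matrix (Fin c) (Fin c) ℝ :=
    fun w => A0 (P.b (w 0)) fun j => P.th (w j.succ) with hA
  have hdA : Det q Y A := by
    intro w w' _ _ e
    simp only [hY, Prod.mk.injEq] at e
    simp only [hA]
    rw [e.1, e.2.2]
  have hdA' : Det r Y A := fun w w' a b e => hdA w w' (hrq w a).1 (hrq w' b).1 e
  have f1 := DF_ev hqL (G := Gw) (T := fun _ => Tx c X) (V := A)
    (fun w => xv X (P.hgt (w 0))) Y hdG (fun _ _ _ _ _ => rfl) hdA (fun _ => Tx_det c X)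
    (fun w => hdet _ _) (c := (c : ℝ) + 1) (by positivity)
    (fun w => inc_of_inv (hinv _ _)) hm'0
  have f2 : DF r (fun _ => Tx c X) A (fun w => xv X (P.hgt (w 0))) Y ≤
      (e₀ + |Cc c (c + 1)|) / m := by
    refine f1.trans ?_
    have g1 : DF q (fun _ => Tx c X) A (fun w => xv X (P.hgt (w 0))) Y + |Cc c (c + 1)| ≤
        e₀ + |Cc c (c + 1)| := by linarith [hbody]
    have g2 : 0 ≤ DF q (fun _ => Tx c X) A (fun w => xv X (P.hgt (w 0))) Y +
        |Cc c (c + 1)| := by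
      have := DF_ge hqL.nonneg hqL.sum_one (T := fun _ => Tx c X) (V := A)
        (fun w => xv X (P.hgt (w 0))) Y (fun _ _ _ _ _ => rfl) hdA (fun _ => Tx_det c X)
        (fun w => hdet _ _) (c := (c : ℝ) + 1) (by positivity)
        (fun w => inc_of_inv (hinv _ _))
      have := le_abs_self (Cc c (c + 1))
      linarith
    calc _ ≤ (e₀ + |Cc c (c + 1)|) / m' := div_le_div_of_nonneg_right g1 hm'0.le
      _ ≤ (e₀ + |Cc c (c + 1)|) / m := div_le_div_of_nonneg_left (g2.trans g1) hm hmm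
  have f3 := fib hrL X (A := A) (fun w => P.hgt (w 0)) Y hdA' (fun w => hdet _ _)
    (fun w => hinv _ _) i0 (fun _ => i0) (fun _ _ _ _ _ => rfl) (fun w => hA0 _ _)
  have f4 : Real.log a₀ ≤ Ex r (fun w => Real.log |A w i0 i0|) := by
    rw [← Ex_const hrL.sum_one (Real.log a₀)]
    refine Ex_mono hr0 fun w hw => ?_
    exact Real.log_le_log ha₀ (hG _ _ (hrq w hw).2).1
  set κ : (Fin (M + 1) → Ω) → Fin c → ℝ :=
    fun w i => v (P.b (w 0)) i / v (P.b (w 0)) i0 with hκ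
  have f5 : CH r (fun w => P.hgt (w 0)) (fun w =>
      (pr i0 (fun i => A w i i0 / A w i0 i0) (P.hgt (w 0)), Y w)) =
      CH r (fun w => P.hgt (w 0)) (fun w => (pr i0 (κ w) (P.hgt (w 0)), Y w)) := by
    have g : ∀ w, 0 < r w → (fun i => A w i i0 / A w i0 i0) = κ w := by
      intro w hw
      funext i
      exact (hG _ _ (hrq w hw).2).2 i
    refine CH_congr hr0 (fun _ _ _ _ e => (Prod.ext_iff.mp e).1)
      (fun _ _ _ _ e => (Prod.ext_iff.mp e).1) ?_ ?_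
    · intro w w' a b e
      simp only at e ⊢
      rw [← g w a, ← g w' b]
      exact e
    · intro w w' a b e
      simp only at e ⊢
      rw [g w a, g w' b]
      exact e
  -- (iii), (iv)
  have hdκ : Det r Y κ := fun w w' _ _ e => by
    simp only [hY, Prod.mk.injEq] at e
    simp only [hκ]
    rw [e.1]
  have g1 := CH_fib hr0 (fun w => P.hgt (w 0)) (fun w => pr i0 (κ w) (P.hgt (w 0)))
    (fun w => P.Wd (w 0)) Y (by
      intro w w' a b e
      have e1 := Prod.ext_iff.mp e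
      have e2 : P.hgt (w 0) = P.hgt (w' 0) := e1.1
      have e3 := hdκ w w' a b e1.2
      simp only [e2, e3])
  have g2 : MI q (fun w => P.hgt (w 0)) (fun w => P.Wd (w 0)) Y ≤ (M + 1) * (io * X) := by
    have a1 : MI q (fun w => P.hgt (w 0)) (fun w => P.Wd (w 0)) Y ≤
        MI q (fun w => P.hgt (w 0)) (fun w => (P.Wd (w 0), ts w))
          (fun w => (P.th (w 0), P.b (w 0))) := by
      have b1 := MI_cond_right hq0 (X := fun w => P.hgt (w 0))
        (Y := fun w => (P.Wd (w 0), ts w)) (B := ts) (Z := fun w => (P.th (w 0), P.b (w 0)))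
        (fun w w' _ _ e => (Prod.ext_iff.mp (Prod.ext_iff.mp e).1).2)
      refine le_trans (le_of_eq ?_) b1
      refine MI_congr hq0 ?_ ?_ ?_ ?_ ?_ ?_ <;>
      · intro w w' _ _ e
        simp only [hY, hts, Prod.mk.injEq] at e ⊢
        tauto
    have a2 := MI_chain hq0 (fun w => P.hgt (w 0)) (fun w => P.Wd (w 0)) ts
      (fun w => (P.th (w 0), P.b (w 0)))
    have a3 : MI q (fun w => P.hgt (w 0)) (fun w => P.Wd (w 0))
        (fun w => (P.th (w 0), P.b (w 0))) ≤ io * X := by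
      rw [him.MI P.hgt P.Wd (fun ω => (P.th ω, P.b ω))]
      exact hP.wd
    have a4 : MI q (fun w => P.hgt (w 0)) ts
        (fun w => (P.Wd (w 0), (P.th (w 0), P.b (w 0)))) ≤ M * (io * X) := by
      refine le_trans ?_ (miN (fun ω => (P.hgt ω, (P.Wd ω, P.th ω))))
      have b1 := MI_data hq0 (A := fun w => P.hgt (w 0)) (B := fun w => (P.Wd (w 0), P.th (w 0)))
        (X := fun w => (P.hgt (w 0), (P.Wd (w 0), P.th (w 0)))) (Y := ts)
        (Z := fun w => P.b (w 0))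
        (fun w w' _ _ e => (Prod.ext_iff.mp (Prod.ext_iff.mp e).1).1)
        (fun w w' _ _ e => (Prod.ext_iff.mp (Prod.ext_iff.mp e).1).2)
      refine le_trans (le_of_eq ?_) b1
      refine MI_congr hq0 ?_ ?_ ?_ ?_ ?_ ?_ <;>
      · intro w w' _ _ e
        simp only [Prod.mk.injEq] at e ⊢
        tauto
    linarith
  have g3 : MI r (fun w => P.hgt (w 0)) (fun w => P.Wd (w 0)) Y ≤ (M + 1) * (io * X) / m := by
    have := MI_ev hqL (G := Gw) (fun w => P.hgt (w 0)) (fun w => P.Wd (w 0)) Y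
      (fun w w' a b e => hdG w w' a b (Prod.ext_iff.mp e).2) hm'0
    refine this.trans (le_trans ?_ hdm)
    exact div_le_div_of_nonneg_right g2 hm'0.le
  -- (v)
  have hrp : ∀ w, 0 < r w → 0 < p (w 0) := fun w hw => him.pos hq0 (hrq w hw).1
  set QQ : (Fin (M + 1) → Ω) → Fin c → ℤ :=
    fun w => P.Q (f (P.R (w 0))) (P.Wd (w 0)) (P.R (w 0)) (P.Z (w 0)) with hQQ
  have g4 := CH_exch hrL (fun w => P.hgt (w 0)) (fun w => P.Z (w 0))
    (fun w => pr i0 (κ w) (P.hgt (w 0))) QQ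
    (fun w => (P.Wd (w 0), Y w)) (a := 2 ^ (γ * X)) (b := D) (by
      intro w w' a b e1 e2 i
      simp only [hY, Prod.mk.injEq] at e2
      exact hP.rel _ _ (hrp w a) (hrp w' b) e1 e2.1 e2.2.2.1 e2.2.1 i) (by
      intro w w' a b e1 e2 i
      have e3 : κ w = κ w' := hdκ w w' a b (Prod.ext_iff.mp e2).2
      simp only [hY, Prod.mk.injEq] at e2
      refine hex (ts w) (w 0) (w' 0) (hrp w a) (hrp w' b) (hrq w a).2 e2.1 e2.2.2.1 e2.2.1 ?_ i
      have e5 : pr i0 (κ w) (P.hgt (w 0)) = pr i0 (κ w') (P.hgt (w' 0)) := e1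
      rw [← e3] at e5
      exact e5)
  -- (vi) the record
  have hall : ∀ q' : Ω → ℝ, IsLaw q' → (∀ ω, 0 < q' ω → 0 < p ω) →
      CH q' P.Z (fun ω => (P.Wd ω, P.R ω)) ≤ Gb c X γ :=
    fun q' hq' _ => CH_cnt hq' P.Z _ fun ω _ i => hP.Z_b ω i
  have hb1n : 0 ≤ ((c : ℝ) - h) * X * Real.log 2 := by
    have h1 : (1 : ℝ) ≤ c := by exact_mod_cast hc
    have h2 : 0 ≤ (c : ℝ) - h := by linarith
    have := Real.log_nonneg (show (1 : ℝ) ≤ 2 by norm_num)
    positivity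
  have hup : CH r (fun w => P.Z (w 0)) (fun w => (P.Wd (w 0), P.R (w 0))) ≤
      (c - h) * X * Real.log 2 + (1 / m / K + 1 / m * ϖ) * Gb c X γ + Real.log (K + 1) :=
    up_up him hl hrL (F := 1 / m) (m₀ := ϖ) (by positivity) hrle hϖ.le hb1n (Gb_nonneg c X γ)
      P.Z (fun ω => (P.Wd ω, P.R ω)) (fun B hB _ => hP.b1 B hB) hall hK
  have hlow : (1 - 1 / m * ϖ) * max 0 ((c - 1 - x) * X * Real.log 2) ≤
      CH r QQ (fun w => (P.Wd (w 0), P.R (w 0))) :=
    up_low him hl hrL (F := 1 / m) (m₀ := ϖ) (by positivity) hrle hϖ.le (le_max_left _ _)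
      (fun ω => P.Q (f (P.R ω)) (P.Wd ω) (P.R ω) (P.Z ω)) (fun ω => (P.Wd ω, P.R ω))
      (fun B hB _ => max_le (CH_nonneg (cond_nonneg hl.nonneg _ _) _ _) (hP.b2 f B hB))
  -- the quotient
  have k1 : CH r (fun w => P.Z (w 0)) (fun w => (QQ w, (P.Wd (w 0), Y w))) ≤
      CH r (fun w => P.Z (w 0)) (fun w => (QQ w, (P.Wd (w 0), P.R (w 0)))) := by
    refine CH_mono_cond hr0 fun w w' a b e => ?_
    simp only [hY, Prod.mk.injEq] at e ⊢
    have e1 : P.b (w 0) = P.b (w' 0) := e.2.2.1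
    exact ⟨e.1, e.2.1, hP.bR _ _ (hrp w a) (hrp w' b) e1⟩
  have k2 := CH_chain hr0 (fun w => P.Z (w 0)) QQ (fun w => (P.Wd (w 0), P.R (w 0)))
  have k3 : CH r (fun w => (P.Z (w 0), QQ w)) (fun w => (P.Wd (w 0), P.R (w 0))) =
      CH r (fun w => P.Z (w 0)) (fun w => (P.Wd (w 0), P.R (w 0))) := by
    refine CH_congr hr0 ?_ ?_ (fun _ _ _ _ e => e) (fun _ _ _ _ e => e)
    · intro w w' _ _ e
      simp only [Prod.mk.injEq] at e
      exact e.1.1
    · intro w w' _ _ e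
      simp only [Prod.mk.injEq] at e
      simp only [hQQ, Prod.mk.injEq]
      rw [e.1, e.2.1, e.2.2]
      exact ⟨rfl, rfl⟩
  rw [f5] at f3
  have f6 : Ex r (fun w => Real.log |A w i0 i0|) + X * Real.log 2 -
      DF r (fun _ => Tx c X) A (fun w => xv X (P.hgt (w 0))) Y - Cc c c ≤
      CH r (fun w => P.hgt (w 0)) (fun w => (pr i0 (κ w) (P.hgt (w 0)), Y w)) := f3
  linarith

end Pool.TC35
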